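import Pool.Agent.Lib.MP_d9b062_al.Stmt

/-!
# Algebraicity of semisimple Lie algebras: interface
-/

namespace Pool.Agent.Lib.MP_d9b062_al.Stmt

open NormedSpace Matrix

attribute [local instance 100] LieRing.ofAssociativeRing

/-- `T` is in the Zariski closure (in the space of matrices) of the group generated by `exp 𝔤` -/
def InZcl {N : ℕ} (𝔤 : LieSubalgebra ℝ (Matrix (Fin N) (Fin N) ℝ))
    (T : Matrix (Fin N) (Fin N) ℝ) : Prop :=
  ∀ p : MvPolynomial (Fin N × Fin N) ℝ,
    (∀ l : List (Matrix (Fin N) (Fin N) ℝ), (∀ X ∈ l, X ∈ 𝔤) → polyVal p (l.map exp).prod = 0) →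
    polyVal p T = 0

end Pool.Agent.Lib.MP_d9b062_al.Stmt
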