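import Pool.Agent.Lib.MP_d9b062_al.CellDefs
import Pool.Agent.Lib.MP_d9b062_al_h9.Omega
import Pool.Agent.Lib.MP_d9b062_al_h46.Kak
import Pool.Agent.Lib.MP_d9b062_al_h46.Weyl
import Pool.Agent.Lib.MP_d9b062_al_h46.Fac
import Pool.Agent.Lib.MP_d9b062_al_h46.FinalMain
import Pool.Agent.Lib.MP_d9b062_al_h31.Compact
import Pool.Agent.Lib.MP_d9b062_al_helper62.Cone

/-!
# Assembly: the self-adjoint case
-/

namespace Pool.Agent.Lib.MP_d9b062_al

open NormedSpace Filter
open scoped Topology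

theorem exists_cell {N : ℕ} {G : Subgroup (Op N)ˣ} (hG : IsConnectedSemisimple G)
    {A : Submodule ℝ (Op N)} (hA : IsCartan G A) (hne : A ≠ ⊥) {H : A} (hH : IsRegular G A H)
    {w : (Op N)ˣ} (hw : IsLongest G A H w) (hS : ¬ CondS G A w) :
    ∃ (ι : Type) (_ : Fintype ι) (_ : LinearOrder ι), Nonempty (Cell G ι) := by
  obtain ⟨ι, i1, i2, W, hpos⟩ := exists_weightData (G := G) hA.symmetric hA.commute H hH
  refine ⟨ι, i1, i2, ?_⟩
  obtain ⟨π, hπo, hwP, hπ⟩ := W.exists_perm hG hA hpos hw hH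
  refine ⟨{
    P := W.P
    o := W.o
    r := W.r G
    μ := W.m W.H0
    C := {m | ∃ K ∈ W.Chamber G, m = W.m K}
    w := w
    π := π
    grading := W.grading
    star_P := W.star_P
    P_ne := W.P_ne
    exists_ne := ?_
    r_lt := fun i j h => W.r_lt h
    r_trans := fun i j k h h' => W.r_trans h h'
    μ_o := W.m_o _
    μ_mono := W.strictMono
    μ_mem := ?_
    C_o := ?_
    C_exp := ?_
    C_le := ?_
    C_root := ?_
    closed := ?_
    star_mem := hG.star_mem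
    irr := hG.irreducible.2
    zirr := fun F hF F' hF' h => zariski_irreducible hG hF hF' h
    conf := ?_
    fac := fun g hg hr => W.fac hG hA hg hr
    kak := ?_
    w_mem := hw.1
    w_P := hwP
    π_o := hπo
    π_anti := hπ
    w_fix := ?_ }⟩
  · -- a nonzero weight exists
    by_contra hcon
    push Not at hcon
    apply hne
    rw [Submodule.eq_bot_iff]
    intro X hX
    have h1 := W.eq_sum ⟨X, hX⟩
    have h2 : ∀ i, W.m ⟨X, hX⟩ i = 0 := fun i => by rw [hcon i]; exact W.m_o _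
    rw [show X = ∑ i, W.m ⟨X, hX⟩ i • W.P i from h1]
    exact Finset.sum_eq_zero fun i _ => by rw [h2 i]; exact zero_smul ℝ (W.P i)
  · intro t ht
    refine ⟨t • W.H0, ?_, by rw [map_smul]⟩
    intro a b hab
    have := W.H0_mem (G := G) a b hab
    simp only [map_smul, Pi.smul_apply, smul_eq_mul]
    exact mul_le_mul_of_nonneg_left this ht
  · rintro m ⟨K, hK, rfl⟩
    exact W.m_o K
  · rintro m ⟨K, hK, rfl⟩
    obtain ⟨g, hg, hgK⟩ := hA.mem_lieAlg K K.2 1
    exact ⟨g, hg, by rw [hgK, one_smul, W.exp_eq]⟩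
  · rintro m ⟨K, hK, rfl⟩ i j hij
    exact W.chamber_le hK hij
  · obtain ⟨c, hc, h⟩ := W.chamber_root hG hA
    refine ⟨c, hc, ?_⟩
    rintro m ⟨K, hK, rfl⟩ R hR hroot i j hij
    exact h K hK R hR hroot i j hij
  · exact fun g hg => hG.closed g fun p hp => hg _ (polyVal_mem p) hp
  · intro l hl hd
    obtain ⟨K, hK⟩ := W.conf hG hA hl hd
    exact ⟨W.m K, W.m_o K, hK⟩
  · intro g hg
    obtain ⟨k, hk, k', hk', K, hK, h1, h2, h3⟩ := W.kak hG hA hg
    exact ⟨k, hk, k', hk', W.m K, ⟨K, hK, rfl⟩, h1, h2, by rw [h3, W.exp_eq]⟩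
  · intro v hv
    by_contra hne'
    apply hS
    refine ⟨v, fun l hl => hv l hl.1 ?_, hne'⟩
    exact (W.diag_iff _).2 hl.2

/-- powers of a conjugate of `(l, 0)` -/
lemma aff_conj_pow {N : ℕ} (F : Aff (V N)) (l : (Op N)ˣ) (n : ℕ) :
    (F * ⟨l, 0⟩ * F⁻¹) ^ n = F * ⟨l ^ n, 0⟩ * F⁻¹ := by
  induction n with
  | zero =>
    have : (⟨l ^ 0, 0⟩ : Aff (V N)) = 1 := by
      apply Aff.ext
      · exact pow_zero l
      · rfl
    rw [pow_zero, this, mul_one, mul_inv_cancel]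
  | succ n ih =>
    have : (⟨l ^ (n + 1), 0⟩ : Aff (V N)) = ⟨l ^ n, 0⟩ * ⟨l, 0⟩ := by
      apply Aff.ext
      · exact pow_succ l n
      · change (0 : V N) = 0 + ((l ^ n : (Op N)ˣ) : Op N) 0
        rw [map_zero, add_zero]
    rw [pow_succ, ih, this]
    group

lemma aff_conj_fix {N : ℕ} (F : Aff (V N)) (l : (Op N)ˣ) :
    (F * ⟨l, 0⟩ * F⁻¹).act F.tr = F.tr := by
  have h1 : ∀ (a b : Aff (V N)) (v : V N), (a * b).act v = a.act (b.act v) := by
    intro a b v
    simp only [Aff.act, Aff.mul_lin, Aff.mul_tr, Units.val_mul, map_add]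
    change (a.lin : Op N) ((b.lin : Op N) v) + (a.tr + (a.lin : Op N) b.tr) = _
    abel
  have h2 : (F⁻¹).act F.tr = 0 := by
    change ((F.lin⁻¹ : (Op N)ˣ) : Op N) F.tr + -(((F.lin⁻¹ : (Op N)ˣ) : Op N) F.tr) = 0
    exact add_neg_cancel _
  rw [h1, h1, h2]
  change (F.lin : Op N) ((l : Op N) 0 + 0) + F.tr = F.tr
  rw [map_zero, add_zero, map_zero, zero_add]

/-- a properly discontinuous Zariski dense group is `Good` -/
theorem good_of_proper {N : ℕ} {G : Subgroup (Op N)ˣ} {ι : Type} [Fintype ι] [LinearOrder ι]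
    (c : Cell G ι) {Γ : Subgroup (Aff (V N))} (hlin : ∀ γ ∈ Γ, γ.lin ∈ G)
    (hz : ∀ p : MvPolynomial (Fin N × Fin N) ℝ,
      (∀ γ ∈ Γ, polyVal p (γ.lin : Op N) = 0) → ∀ g ∈ G, polyVal p (g : Op N) = 0)
    (hpd : ∀ K : Set (V N), IsCompact K →
      {γ : Aff (V N) | γ ∈ Γ ∧ (γ.act '' K ∩ K).Nonempty}.Finite) : c.Good Γ where
  lin_mem := hlin
  dense := by
    intro F hF h g hg
    obtain ⟨p, hp⟩ := exists_polyVal hF
    rw [hp]
    exact hz p (fun γ hγ => by rw [← hp]; exact h _ ⟨γ, hγ, rfl⟩) g hg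
  nofix := by
    rintro γ hγ F l t hlox rfl
    have hfin := hpd {F.tr} isCompact_singleton
    have hpow : ∀ n : ℕ, γ ^ n = F * ⟨l ^ n, 0⟩ * F⁻¹ := by
      intro n
      rw [hlox.eq, aff_conj_pow]
    -- the powers of `γ` are distinct
    have hinj : Function.Injective (fun n : ℕ => γ ^ n) := by
      intro n m hnm
      simp only [hpow] at hnm
      have h1 : (⟨l ^ n, 0⟩ : Aff (V N)) = ⟨l ^ m, 0⟩ := by
        have := mul_right_cancel hnm
        exact mul_left_cancel this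
      have h2 : l ^ n = l ^ m := congrArg Aff.lin h1
      obtain ⟨i, hi⟩ := c.exists_ne
      have h3 : (n : ℝ) • c.tau (l : Op N) = (m : ℝ) • c.tau (l : Op N) := by
        rw [← c.tau_pow hlox.l_mem, ← c.tau_pow hlox.l_mem, ← Units.val_pow_eq_pow_val,
          ← Units.val_pow_eq_pow_val, h2]
      have h4 := congrFun h3 i
      simp only [Pi.smul_apply, smul_eq_mul] at h4
      have h5 := mul_right_cancel₀ (hlox.vreg i hi) h4
      exact_mod_cast h5
    refine Set.infinite_of_injective_forall_mem hinj (s := {γ : Aff (V N) | γ ∈ Γ ∧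
      (γ.act '' {F.tr} ∩ {F.tr}).Nonempty}) ?_ hfin
    intro n
    refine ⟨Γ.pow_mem hγ n, F.tr, ?_, rfl⟩
    refine ⟨F.tr, rfl, ?_⟩
    rw [hpow, aff_conj_fix]

/-- The theorem for self-adjoint groups. -/
theorem isMilnor_of_selfAdjoint {N : ℕ} {G : Subgroup (Op N)ˣ} (hG : IsConnectedSemisimple G)
    {A : Submodule ℝ (Op N)} (hA : IsCartan G A) {H : A} (hH : IsRegular G A H)
    {w : (Op N)ˣ} (hw : IsLongest G A H w) (hS : ¬ CondS G A w) : IsMilnor G := by
  rintro ⟨Γ, hfree, hlin, hz, hpd⟩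
  by_cases hne : A = ⊥
  · -- compact case
    refine no_free_isometric Γ hfree ?_ hpd
    intro γ hγ v
    obtain ⟨Y, hY, hYs, hexp, -⟩ := exists_log hG (hlin γ hγ)
    have hY0 : Y ∈ A := hA.maximal Y hY hYs fun X hX => by
      rw [hne, Submodule.mem_bot] at hX
      rw [hX, zero_mul, mul_zero]
    rw [hne, Submodule.mem_bot] at hY0
    rw [hY0, smul_zero, exp_zero] at hexp
    have h1 : ‖(γ.lin : Op N) v‖ ^ 2 = ‖v‖ ^ 2 := by
      rw [← real_inner_self_eq_norm_sq, ← real_inner_self_eq_norm_sq]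
      have h2 : inner ℝ ((γ.lin : Op N) v) ((γ.lin : Op N) v) =
          inner ℝ ((star (γ.lin : Op N) * (γ.lin : Op N)) v) v := by
        change _ = inner ℝ (star (γ.lin : Op N) ((γ.lin : Op N) v)) v
        rw [ContinuousLinearMap.star_eq_adjoint, ContinuousLinearMap.adjoint_inner_left]
      rw [h2, hexp]
      rfl
    exact (sq_eq_sq₀ (norm_nonneg _) (norm_nonneg _)).mp h1
  · obtain ⟨ι, i1, i2, ⟨c⟩⟩ := exists_cell hG hA hne hH hw hS
    have hgood := good_of_proper c hlin hz hpd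
    obtain ⟨X, hX, h1, h2⟩ := hgood.exists_sign
    obtain ⟨K, hK, hinf⟩ := hgood.final hX h1 h2
    exact hinf (hpd K hK)

end Pool.Agent.Lib.MP_d9b062_al
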