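import Pool.Agent.Lib.MP_d9b062_al.Defs

/-!
# Semisimple groups without the self-adjointness assumption
-/

namespace Pool.Agent.Lib.MP_d9b062_al

open NormedSpace

attribute [local instance 100] LieRing.ofAssociativeRing

/-- `X` is hyperbolic: diagonalizable over `ℝ`. -/
def IsHyperbolic {N : ℕ} (X : Op N) : Prop :=
  ∃ b : Module.Basis (Fin N) ℝ (V N), ∀ i, ∃ a : ℝ, X (b i) = a • b i

/-- `G ⊆ GL_N(ℝ)` is (the group of real points of) a connected semisimple linear algebraic group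
acting irreducibly on `ℝ^N`. -/
structure IsSemisimpleIrr {N : ℕ} (G : Subgroup (Op N)ˣ) : Prop where
  /-- `G` is Zariski closed in `GL_N(ℝ)`. -/
  closed : ∀ g : (Op N)ˣ, (∀ p : MvPolynomial (Fin N × Fin N) ℝ,
    (∀ h ∈ G, polyVal p (h : Op N) = 0) → polyVal p (g : Op N) = 0) → g ∈ G
  /-- `G` is connected: the group generated by its one-parameter subgroups is Zariski dense. -/
  connected : ∀ p : MvPolynomial (Fin N × Fin N) ℝ,
    (∀ l : List (Op N), (∀ Z ∈ l, Z ∈ lieAlg G) → polyVal p (l.map exp).prod = 0) →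
    ∀ g ∈ G, polyVal p (g : Op N) = 0
  /-- `ℝ^N` is an irreducible representation of `G`. -/
  irreducible : 0 < N ∧ ∀ W : Submodule ℝ (V N),
    (∀ g ∈ G, ∀ v ∈ W, (g : Op N) v ∈ W) → W = ⊥ ∨ W = ⊤
  /-- The Lie algebra of `G` is semisimple. -/
  semisimple : ∃ 𝔤 : LieSubalgebra ℝ (Op N), (𝔤 : Set (Op N)) = lieAlg G ∧
    LieAlgebra.IsSemisimple ℝ 𝔤

end Pool.Agent.Lib.MP_d9b062_al
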