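import Pool.Agent.Lib.MP_d9b062_al.Grading

/-!
# The structural data of a self-adjoint group used in the proof
-/

namespace Pool.Agent.Lib.MP_d9b062_al

open NormedSpace

/-- `S` is Zariski dense in `G`. -/
def ZDense {N : ℕ} (S G : Set (Op N)ˣ) : Prop :=
  ∀ F ∈ PolyFun (Op N), (∀ s ∈ S, F (s : Op N) = 0) → ∀ g ∈ G, F (g : Op N) = 0

section Weights

variable {N : ℕ} (G : Subgroup (Op N)ˣ) (A : Submodule ℝ (Op N)) (ι : Type) [Fintype ι]
  [LinearOrder ι]

/-- The weight decomposition of a space `A` of commuting symmetric operators, indexed in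
increasing order of the values of the weights at a generic element `H0`.  The index `o` is that of
the zero weight (`P o` may be `0`). -/
structure WeightData where
  P : ι → Op N
  o : ι
  m : A →ₗ[ℝ] (ι → ℝ)
  H0 : A
  grading : IsGrading P
  star_P : ∀ i, star (P i) = P i
  P_ne : ∀ i, i ≠ o → P i ≠ 0
  eq_sum : ∀ H : A, (H : Op N) = ∑ i, m H i • P i
  m_o : ∀ H, m H o = 0
  strictMono : StrictMono (m H0)
  sep : ∀ i j k l, m H0 i - m H0 j = m H0 k - m H0 l → ∀ H, m H i - m H j = m H k - m H l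

variable {A ι}

/-- positive root pairs -/
def WeightData.Pos (W : WeightData A ι) (i j : ι) : Prop :=
  i < j ∧ ∃ Z ∈ lieAlg G, W.P j * Z * W.P i ≠ 0

/-- the order relation on the weights: `m i < m j` on the open Weyl chamber -/
def WeightData.r (W : WeightData A ι) (i j : ι) : Prop :=
  ∀ H : A, (∀ a b, W.Pos G a b → W.m H a < W.m H b) → W.m H i < W.m H j

/-- the closed Weyl chamber -/
def WeightData.Chamber (W : WeightData A ι) : Set A :=
  {H | ∀ a b, W.Pos G a b → W.m H a ≤ W.m H b}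

end Weights

/-- The structural data of `G` which is used in the dynamical part of the proof.  The blocks of
`y` in `N⁻` are `P i * y * P j` with `r i j` (so `i < j`). -/
structure Cell {N : ℕ} (G : Subgroup (Op N)ˣ) (ι : Type) [Fintype ι] [LinearOrder ι] where
  /-- projections on the weight spaces -/
  P : ι → Op N
  /-- index of the zero weight -/
  o : ι
  /-- the strict order relation on weights -/
  r : ι → ι → Prop
  /-- the weights of a generic dominant element -/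
  μ : ι → ℝ
  /-- the weight vectors of the elements of the closed Weyl chamber -/
  C : Set (ι → ℝ)
  /-- representative of the longest element -/
  w : (Op N)ˣ
  /-- its action on the weights -/
  π : ι → ι
  grading : IsGrading P
  star_P : ∀ i, star (P i) = P i
  P_ne : ∀ i, i ≠ o → P i ≠ 0
  exists_ne : ∃ i, i ≠ o
  r_lt : ∀ i j, r i j → i < j
  r_trans : ∀ i j k, r i j → r j k → r i k
  μ_o : μ o = 0
  μ_mono : StrictMono μ
  μ_mem : ∀ t : ℝ, 0 ≤ t → t • μ ∈ C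
  C_o : ∀ m ∈ C, m o = 0
  C_exp : ∀ m ∈ C, ∃ g ∈ G, (g : Op N) = ∑ i, Real.exp (m i) • P i
  C_le : ∀ m ∈ C, ∀ i j, r i j → m i ≤ m j
  C_root : ∃ c > 0, ∀ m ∈ C, ∀ R : ℝ, 0 ≤ R →
    (∀ i j, i ≠ j → (∃ x ∈ G, Unip P (fun i j => r j i) (x : Op N) ∧ P j * (x : Op N) * P i ≠ 0) →
      R ≤ m j - m i) → ∀ i j, r i j → c * R ≤ m j - m i
  closed : ∀ g : (Op N)ˣ, (∀ F ∈ PolyFun (Op N), (∀ h ∈ G, F (h : Op N) = 0) →
    F (g : Op N) = 0) → g ∈ G
  star_mem : ∀ g ∈ G, star g ∈ G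
  irr : ∀ W : Submodule ℝ (V N), (∀ g ∈ G, ∀ v ∈ W, (g : Op N) v ∈ W) → W = ⊥ ∨ W = ⊤
  zirr : ∀ F ∈ PolyFun (Op N), ∀ F' ∈ PolyFun (Op N),
    (∀ g ∈ G, F (g : Op N) * F' (g : Op N) = 0) →
      (∀ g ∈ G, F (g : Op N) = 0) ∨ ∀ g ∈ G, F' (g : Op N) = 0
  conf : ∀ l ∈ G, Diag P (l : Op N) →
    ∃ τ : ι → ℝ, τ o = 0 ∧ ∀ i v, ‖(l : Op N) (P i v)‖ = Real.exp (τ i) * ‖P i v‖
  fac : ∀ g ∈ G, Reg P (g : Op N) → ∃ y ∈ G, ∃ l ∈ G, ∃ x ∈ G, Unip P r (y : Op N) ∧
    Diag P (l : Op N) ∧ Unip P (fun i j => r j i) (x : Op N) ∧ (g : Op N) = y * l * x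
  kak : ∀ g ∈ G, ∃ k ∈ G, ∃ k' ∈ G, ∃ m ∈ C, star (k : Op N) * k = 1 ∧
    star (k' : Op N) * k' = 1 ∧ (g : Op N) = k * (∑ i, Real.exp (m i) • P i) * k'
  w_mem : w ∈ G
  w_P : ∀ i, (w : Op N) * P i = P (π i) * w
  π_o : π o = o
  π_anti : ∀ i j, r i j → r (π j) (π i)
  w_fix : ∀ v, (∀ l ∈ G, Diag P (l : Op N) → (l : Op N) v = v) → (w : Op N) v = v

end Pool.Agent.Lib.MP_d9b062_al
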