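import Pool.Agent.Lib.MP_d9b062_al.Conj
import Pool.Agent.Lib.MP_d9b062_al.Assembly1
import Pool.Agent.Lib.MP_d9b062_al_h20.Rep
import Pool.Agent.Lib.MP_d9b062_al_h19.Mos2
import Pool.Agent.Lib.MP_d9b062_al.Defs2
import Pool.Agent.Lib.MP_d9b062_al_h61.Chevalley
import Pool.Agent.Lib.MP_d9b062_al_h9.Mos
import Pool.Agent.Lib.MP_d9b062_al_h9.Sym

/-!
# Assembly: the general case, by Mostow's theorem
-/

namespace Pool.Agent.Lib.MP_d9b062_al

open NormedSpace Filter
open scoped Topology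

variable {N : ℕ}

lemma cj_smul_mul (c : ℝ) (S T : Op N) : (c • S) * T = c • (S * T) := Algebra.smul_mul_assoc c S T
lemma cj_mul_smul (c : ℝ) (S T : Op N) : S * (c • T) = c • (S * T) := Algebra.mul_smul_comm c S T
lemma cj_star_add (S T : Op N) : star (S + T) = star S + star T := star_add S T
lemma cj_star_smul (c : ℝ) (S : Op N) : star (c • S) = c • star S := by
  rw [star_smul, star_trivial]

/-- symmetric operators are hyperbolic -/
lemma isHyperbolic_of_symm {T : Op N} (h : star T = T) : IsHyperbolic T := by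
  have hT : (T : V N →ₗ[ℝ] V N).IsSymmetric := by
    rw [ContinuousLinearMap.star_eq_adjoint] at h
    intro v w
    change inner ℝ (T v) w = inner ℝ v (T w)
    conv_lhs => rw [← h]
    rw [ContinuousLinearMap.adjoint_inner_left]
  have hn : Module.finrank ℝ (V N) = N := by simp
  refine ⟨(hT.eigenvectorBasis hn).toBasis, fun i => ⟨hT.eigenvalues hn i, ?_⟩⟩
  rw [OrthonormalBasis.coe_toBasis]
  exact hT.apply_eigenvectorBasis hn i

lemma IsHyperbolic.cj {T : Op N} (h : IsHyperbolic T) (g : (Op N)ˣ) : IsHyperbolic (cjL g T) := by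
  obtain ⟨b, hb⟩ := h
  let e : V N ≃ₗ[ℝ] V N := LinearEquiv.ofLinear ((g : Op N) : V N →ₗ[ℝ] V N)
    (((g⁻¹ : (Op N)ˣ) : Op N) : V N →ₗ[ℝ] V N)
    (by
      ext1 v
      have : ((g : Op N) * ((g⁻¹ : (Op N)ˣ) : Op N)) v = v := by rw [Units.mul_inv]; rfl
      exact this)
    (by
      ext1 v
      have : (((g⁻¹ : (Op N)ˣ) : Op N) * (g : Op N)) v = v := by rw [Units.inv_mul]; rfl
      exact this)
  refine ⟨b.map e, fun i => ?_⟩
  obtain ⟨a, ha⟩ := hb i
  refine ⟨a, ?_⟩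
  have h1 : ((g⁻¹ : (Op N)ˣ) : Op N) ((g : Op N) (b i)) = b i := by
    have : (((g⁻¹ : (Op N)ˣ) : Op N) * (g : Op N)) (b i) = b i := by rw [Units.inv_mul]; rfl
    exact this
  rw [Module.Basis.map_apply]
  change (g : Op N) (T (((g⁻¹ : (Op N)ˣ) : Op N) ((g : Op N) (b i)))) = a • (g : Op N) (b i)
  rw [h1, ha, map_smul]

lemma cjL_mul_units (g h : (Op N)ˣ) (T : Op N) : cjL (g * h) T = cjL g (cjL h T) := by
  simp only [cjL_apply, mul_inv_rev, Units.val_mul]
  noncomm_ring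

lemma mem_cjG_mul {g h : (Op N)ˣ} {G : Subgroup (Op N)ˣ} {x : (Op N)ˣ} :
    x ∈ cjG (g * h) G ↔ g⁻¹ * x * g ∈ cjG h G := by
  rw [mem_cjG, mem_cjG]
  have : (g * h)⁻¹ * x * (g * h) = h⁻¹ * (g⁻¹ * x * g) * h := by group
  rw [this]

/-- conjugation of affine maps: freeness, density and properness are preserved -/
theorem isMilnor_of_cjG {G : Subgroup (Op N)ˣ} (g : (Op N)ˣ) (h : IsMilnor (cjG g G)) :
    IsMilnor G := by
  rintro ⟨Γ, ⟨κ, hκ, ⟨e⟩⟩, hlin, hz, hpd⟩
  apply h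
  set F : Aff (V N) := ⟨g, 0⟩ with hF
  have hact : ∀ (a b : Aff (V N)) (v : V N), (a * b).act v = a.act (b.act v) := by
    intro a b v
    simp only [Aff.act, Aff.mul_lin, Aff.mul_tr, Units.val_mul, map_add]
    change (a.lin : Op N) ((b.lin : Op N) v) + (a.tr + (a.lin : Op N) b.tr) = _
    abel
  have hlinF : ∀ γ : Aff (V N), ((MulAut.conj F).toMonoidHom γ).lin = g * γ.lin * g⁻¹ := by
    intro γ
    change (F * γ * F⁻¹).lin = _
    rw [Aff.mul_lin, Aff.mul_lin, Aff.inv_lin]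
  refine ⟨Γ.map (MulAut.conj F).toMonoidHom, ⟨κ, hκ, ⟨?_⟩⟩, ?_, ?_, ?_⟩
  · exact (Γ.equivMapOfInjective _ (MulAut.conj F).injective).symm.trans e
  · intro x hx
    obtain ⟨γ, hγ, hγx⟩ := Subgroup.mem_map.mp hx
    have hx' : x.lin = g * γ.lin * g⁻¹ := by rw [← hγx]; exact hlinF γ
    rw [hx']
    exact conj_mem_cjG (hlin γ hγ)
  · intro p hp x hx
    obtain ⟨q, hq⟩ := exists_polyVal_conj g p
    have h0 : ∀ γ ∈ Γ, polyVal q (γ.lin : Op N) = 0 := by
      intro γ hγ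
      have h2 := hp ((MulAut.conj F).toMonoidHom γ) (Subgroup.mem_map_of_mem _ hγ)
      rw [hlinF γ] at h2
      rw [← hq, cjL_apply]
      rw [Units.val_mul, Units.val_mul] at h2
      exact h2
    have h1 := hz q h0 _ (mem_cjG.mp hx)
    rw [← hq, Units.val_mul, Units.val_mul] at h1
    have h2 : cjL g (((g⁻¹ : (Op N)ˣ) : Op N) * (x : Op N) * (g : Op N)) = (x : Op N) := by
      have := cjL_inv' g (x : Op N)
      rw [cjL_apply g⁻¹, inv_inv] at this
      exact this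
    rwa [h2] at h1
  · intro K hK
    have hK' : IsCompact ((fun v : V N => ((g⁻¹ : (Op N)ˣ) : Op N) v) '' K) :=
      hK.image (ContinuousLinearMap.continuous _)
    have hFi : ∀ x : V N, (F⁻¹).act x = ((g⁻¹ : (Op N)ˣ) : Op N) x := by
      intro x
      change ((g⁻¹ : (Op N)ˣ) : Op N) x + -(((g⁻¹ : (Op N)ˣ) : Op N) 0) = _
      rw [map_zero, neg_zero, add_zero]
    refine ((hpd _ hK').image (fun γ => F * γ * F⁻¹)).subset ?_
    intro x hx
    obtain ⟨⟨γ, hγ, hγx⟩, v, ⟨u, hu, huv⟩, hv⟩ := hx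
    have hx' : x = F * γ * F⁻¹ := hγx.symm
    refine ⟨γ, ⟨hγ, ?_⟩, hx'.symm⟩
    refine ⟨((g⁻¹ : (Op N)ˣ) : Op N) v, ?_, ⟨v, hv, rfl⟩⟩
    refine ⟨((g⁻¹ : (Op N)ˣ) : Op N) u, ⟨u, hu, rfl⟩, ?_⟩
    have huv' : (F * γ * F⁻¹).act u = v := by rw [← hx']; exact huv
    rw [← huv', ← hFi u, ← hFi, ← hact, ← hact]
    congr 1
    group

/-- The main theorem for linear groups. -/
theorem isMilnor_main {G : Subgroup (Op N)ˣ} (hG : IsSemisimpleIrr G)
    {A : Submodule ℝ (Op N)} (hA : IsCartanSubspace G A) {H : A} (hH : IsRegular G A H)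
    {w : (Op N)ˣ} (hw : IsLongest G A H w) (hS : ¬ CondS G A w) : IsMilnor G := by
  -- make `A` symmetric
  obtain ⟨g₁, hg₁⟩ := exists_symmetrizing A hA.hyperbolic hA.commute
  have hcl₁ := closed_cjG (g := g₁) hG.closed
  obtain ⟨m, R, w₁, hw₁, hRs, hRp, hRG⟩ := exists_chevalley (cjG g₁ G) hcl₁
  -- `R ∘ conj` fixes the line of `w₁` on `G`
  let Rg : Op N →* Op m :=
    { toFun := fun T => R (cjL g₁ T)
      map_one' := by
        rw [cjL_apply, mul_one, Units.mul_inv, map_one]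
      map_mul' := fun S T => by rw [cjL_mul, map_mul] }
  have hRgp : IsPolyMap (Rg : Op N → Op m) := hRp.comp (IsPolyMap.linear (cjL g₁))
  have hfix := fixes_of_line hG Rg hRgp w₁ (fun x hx => by
    have := (hRG (g₁ * x * g₁⁻¹)).mp (conj_mem_cjG hx)
    simpa [Rg, cjL_apply, Units.val_mul] using this)
  have hfix₁ : ∀ x ∈ cjG g₁ G, R (x : Op N) w₁ = w₁ := by
    intro x hx
    have h1 := hfix _ (mem_cjG.mp hx)
    have h2 : cjL g₁ (((g₁⁻¹ * x * g₁ : (Op N)ˣ)) : Op N) = (x : Op N) := by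
      rw [Units.val_mul, Units.val_mul]
      have := cjL_inv' g₁ (x : Op N)
      rw [cjL_apply g₁⁻¹, inv_inv] at this
      exact this
    change R (cjL g₁ _) w₁ = w₁ at h1
    rwa [h2] at h1
  have hdet₁ : ∀ x ∈ cjG g₁ G, LinearMap.det ((x : Op N) : V N →ₗ[ℝ] V N) = 1 := by
    intro x hx
    have h1 := det_eq_one hG _ (mem_cjG.mp hx)
    have h2 : (((g₁⁻¹ * x * g₁ : (Op N)ˣ) : Op N) : V N →ₗ[ℝ] V N) =
        (((g₁⁻¹ : (Op N)ˣ) : Op N) : V N →ₗ[ℝ] V N) ∘ₗ ((x : Op N) : V N →ₗ[ℝ] V N) ∘ₗ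
          ((g₁ : Op N) : V N →ₗ[ℝ] V N) := rfl
    rw [h2, LinearMap.det_comp, LinearMap.det_comp] at h1
    have h3 : LinearMap.det (((g₁⁻¹ : (Op N)ˣ) : Op N) : V N →ₗ[ℝ] V N) *
        LinearMap.det ((g₁ : Op N) : V N →ₗ[ℝ] V N) = 1 := by
      rw [← LinearMap.det_comp]
      have : (((g₁⁻¹ : (Op N)ˣ) : Op N) : V N →ₗ[ℝ] V N) ∘ₗ ((g₁ : Op N) : V N →ₗ[ℝ] V N) =
          LinearMap.id := by
        ext1 v
        have : (((g₁⁻¹ : (Op N)ˣ) : Op N) * (g₁ : Op N)) v = v := by rw [Units.inv_mul]; rfl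
        exact this
      rw [this, LinearMap.det_id]
    calc LinearMap.det ((x : Op N) : V N →ₗ[ℝ] V N)
        = (LinearMap.det (((g₁⁻¹ : (Op N)ˣ) : Op N) : V N →ₗ[ℝ] V N) *
            LinearMap.det ((g₁ : Op N) : V N →ₗ[ℝ] V N)) *
            LinearMap.det ((x : Op N) : V N →ₗ[ℝ] V N) := by rw [h3, one_mul]
      _ = 1 := by rw [← h1]; ring
  obtain ⟨g₀, hg₀A, hg₀⟩ := exists_selfadjoint_conj hG.irreducible.1
    (irreducible_cjG (g := g₁) hG.irreducible.2) hdet₁ R hRs hRp w₁ hfix₁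
    (fun x hx => (hRG x).mpr ⟨1, by rw [hx, one_smul]⟩) (cjA g₁ A)
    (by
      rintro _ ⟨X, hX, rfl⟩
      exact lieAlg_cjG.mpr (hA.mem_lieAlg X hX))
    (by
      rintro _ ⟨X, hX, rfl⟩
      exact hg₁ X hX)
  set g := g₀ * g₁ with hgdef
  have hsymm : ∀ X ∈ A, star (cjL g X) = cjL g X := by
    intro X hX
    have h1 : cjL g X = cjL g₁ X := by
      rw [hgdef, cjL_mul_units, cjL_apply g₀, hg₀A _ (cjL_mem_cjA hX), mul_assoc, Units.mul_inv,
        mul_one]
    rw [h1]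
    exact hg₁ X hX
  have hG' : IsConnectedSemisimple (cjG g G) :=
    { closed := closed_cjG hG.closed
      connected := connected_cjG hG.connected
      star_mem := by
        intro x hx
        rw [mem_cjG_mul] at hx ⊢
        have := hg₀ _ hx
        have e : g₀ * (g₀⁻¹ * x * g₀) * g₀⁻¹ = x := by group
        rwa [e] at this
      irreducible := ⟨hG.irreducible.1, irreducible_cjG hG.irreducible.2⟩
      semisimple := by
        intro Z hZ hc
        have h1 := center_trivial hG _ (lieAlg_cjG'.mp hZ) (fun X hX => by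
          apply cjL_injective g
          rw [cjL_mul, cjL_mul, cjL_inv']
          exact hc _ (lieAlg_cjG.mpr hX))
        rw [← cjL_inv' g Z, h1, map_zero] }
  have hA' : IsCartan (cjG g G) (cjA g A) :=
    { mem_lieAlg := by
        rintro _ ⟨X, hX, rfl⟩
        exact lieAlg_cjG.mpr (hA.mem_lieAlg X hX)
      symmetric := by
        rintro _ ⟨X, hX, rfl⟩
        exact hsymm X hX
      commute := by
        rintro _ ⟨X, hX, rfl⟩ _ ⟨Y, hY, rfl⟩
        rw [← cjL_mul, hA.commute X hX Y hY, cjL_mul]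
      maximal := by
        intro Y hY hYs hYc
        rw [mem_cjA]
        -- the enlarged space, pulled back
        let Y₀ : Op N := cjL g⁻¹ Y
        have hY₀ : cjL g Y₀ = Y := cjL_inv' g Y
        have hB : A ⊔ Submodule.span ℝ {Y₀} ≤ A := by
          apply hA.maximal _ le_sup_left
          · intro X hX
            obtain ⟨X₁, hX₁, X₂, hX₂, rfl⟩ := Submodule.mem_sup.mp hX
            obtain ⟨a, rfl⟩ := Submodule.mem_span_singleton.mp hX₂
            constructor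
            · rw [← lieAlg_cjG (g := g), map_add, map_smul, hY₀]
              exact lieAlg_add hG' (lieAlg_cjG.mpr (hA.mem_lieAlg _ hX₁)) (lieAlg_smul a hY)
            · have h1 : star (cjL g (X₁ + a • Y₀)) = cjL g (X₁ + a • Y₀) := by
                rw [map_add, map_smul, hY₀, cj_star_add, cj_star_smul, hsymm X₁ hX₁, hYs]
              have h2 := (isHyperbolic_of_symm h1).cj g⁻¹
              rwa [cjL_inv] at h2
          · intro X hX X' hX'
            obtain ⟨X₁, hX₁, X₂, hX₂, rfl⟩ := Submodule.mem_sup.mp hX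
            obtain ⟨a, rfl⟩ := Submodule.mem_span_singleton.mp hX₂
            obtain ⟨X₁', hX₁', X₂', hX₂', rfl⟩ := Submodule.mem_sup.mp hX'
            obtain ⟨a', rfl⟩ := Submodule.mem_span_singleton.mp hX₂'
            have hc1 : X₁ * X₁' = X₁' * X₁ := hA.commute _ hX₁ _ hX₁'
            have hcY : ∀ X ∈ A, X * Y₀ = Y₀ * X := by
              intro X hX
              apply cjL_injective g
              rw [cjL_mul, cjL_mul, hY₀]
              exact hYc _ (cjL_mem_cjA hX)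
            simp only [mul_add, add_mul]
            simp only [cj_mul_smul, cj_smul_mul]
            rw [hc1, hcY X₁ hX₁, ← hcY X₁' hX₁', smul_comm a a']
            abel
        exact hB (Submodule.mem_sup_right (Submodule.mem_span_singleton_self _)) }
  have hH' : IsRegular (cjG g G) (cjA g A) (cjE g A H) := by
    intro α hα
    exact hH _ (isRoot_cj hα)
  have hwc : ∀ X : Op N, ((((g * w * g⁻¹)⁻¹ : (Op N)ˣ)) : Op N) * cjL g X *
      ((g * w * g⁻¹ : (Op N)ˣ) : Op N) = cjL g (((w⁻¹ : (Op N)ˣ) : Op N) * X * (w : Op N)) := by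
    intro X
    have e1 : (((g * w * g⁻¹)⁻¹ : (Op N)ˣ) : Op N) = cjL g ((w⁻¹ : (Op N)ˣ) : Op N) := by
      rw [cjL_apply, ← Units.val_mul, ← Units.val_mul]
      have : (g * w * g⁻¹)⁻¹ = g * w⁻¹ * g⁻¹ := by group
      rw [this]
    have e2 : ((g * w * g⁻¹ : (Op N)ˣ) : Op N) = cjL g (w : Op N) := by
      rw [cjL_apply, ← Units.val_mul, ← Units.val_mul]
    rw [e1, e2, ← cjL_mul, ← cjL_mul]
  have hw' : IsLongest (cjG g G) (cjA g A) (cjE g A H) (g * w * g⁻¹) := by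
    obtain ⟨hwG, hwA, hwα⟩ := hw
    refine ⟨conj_mem_cjG hwG, ?_, ?_⟩
    · rintro _ ⟨X, hX, rfl⟩
      rw [hwc]
      exact cjL_mem_cjA (hwA X hX)
    · intro α hα hpos
      have h1 := hwα _ (isRoot_cj hα) hpos
      have h2 : (⟨(((g * w * g⁻¹)⁻¹ : (Op N)ˣ) : Op N) * ((cjE g A H : cjA g A) : Op N) *
          ((g * w * g⁻¹ : (Op N)ˣ) : Op N), by
            rw [cjE_apply, hwc]; exact cjL_mem_cjA (hwA H H.2)⟩ : cjA g A) =
          cjE g A ⟨((w⁻¹ : (Op N)ˣ) : Op N) * (H : Op N) * (w : Op N), hwA H H.2⟩ := by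
        apply Subtype.ext
        exact hwc H
      rw [h2]
      exact h1
  have hS' : ¬ CondS (cjG g G) (cjA g A) (g * w * g⁻¹) := by
    rintro ⟨v, hv, hne⟩
    apply hS
    have hgg : ∀ v, ((g⁻¹ : (Op N)ˣ) : Op N) ((g : Op N) v) = v := by
      intro v
      have : (((g⁻¹ : (Op N)ˣ) : Op N) * (g : Op N)) v = v := by rw [Units.inv_mul]; rfl
      exact this
    have hgg' : ∀ v, (g : Op N) (((g⁻¹ : (Op N)ˣ) : Op N) v) = v := by
      intro v
      have : ((g : Op N) * ((g⁻¹ : (Op N)ˣ) : Op N)) v = v := by rw [Units.mul_inv]; rfl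
      exact this
    refine ⟨((g⁻¹ : (Op N)ˣ) : Op N) v, ?_, ?_⟩
    · intro l hl
      have h1 := hv (g * l * g⁻¹) ⟨conj_mem_cjG hl.1, by
        rintro _ ⟨X, hX, rfl⟩
        have e2 : ((g * l * g⁻¹ : (Op N)ˣ) : Op N) = cjL g (l : Op N) := by
          rw [cjL_apply, ← Units.val_mul, ← Units.val_mul]
        rw [e2, ← cjL_mul, hl.2 X hX, cjL_mul]⟩
      have h2 : (g : Op N) ((l : Op N) (((g⁻¹ : (Op N)ˣ) : Op N) v)) = v := h1
      rw [← hgg ((l : Op N) (((g⁻¹ : (Op N)ˣ) : Op N) v)), h2]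
    · intro h1
      apply hne
      change (g : Op N) ((w : Op N) (((g⁻¹ : (Op N)ˣ) : Op N) v)) = v
      rw [h1, hgg']
  exact isMilnor_of_cjG g (isMilnor_of_selfAdjoint hG' hA' hH' hw' hS')

end Pool.Agent.Lib.MP_d9b062_al
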