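import Pool.Agent.Lib.MP_d9b062_al.Poly

/-!
# Sequences with asymptotic expansions in real exponentials

(Task ASY of the `MP_d9b062_al` project.)
-/

namespace Pool.Agent.Lib.MP_d9b062_al

set_option linter.unusedSectionVars false

open Filter Asymptotics
open scoped Topology

section Asy

variable {E : Type*} [NormedAddCommGroup E] [InnerProductSpace ℝ E] [CompleteSpace E]
  [FiniteDimensional ℝ E]
variable {F : Type*} [NormedAddCommGroup F] [NormedSpace ℝ F]

/-- finite sums `∑ exp (ρ n) • A_ρ (m ^ n)` with continuous `A_ρ`. -/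
def ExpSum (m : E →L[ℝ] E) (f : ℕ → F) : Prop :=
  ∃ (s : Finset ℝ) (A : ℝ → (E →L[ℝ] E) → F), (∀ ρ, Continuous (A ρ)) ∧
    ∀ n : ℕ, f n = ∑ ρ ∈ s, Real.exp (ρ * n) • A ρ (m ^ n)

/-- sequences which are an `ExpSum` up to an arbitrarily small exponential error. -/
def Asy (m : E →L[ℝ] E) (f : ℕ → F) : Prop :=
  ∀ b : ℝ, ∃ g : ℕ → F, ExpSum m g ∧
    (fun n => f n - g n) =O[atTop] fun n : ℕ => Real.exp (b * n)

variable {m : E →L[ℝ] E}

/-! ### exponential sums -/

omit [CompleteSpace E] [FiniteDimensional ℝ E] in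
/-- an index set with repeated exponents is allowed -/
lemma ExpSum.of_index {ι : Type*} (t : Finset ι) (r : ι → ℝ)
    (A : ι → (E →L[ℝ] E) → F)
    (hA : ∀ i, Continuous (A i)) {f : ℕ → F}
    (h : ∀ n : ℕ, f n = ∑ i ∈ t, Real.exp (r i * n) • A i (m ^ n)) : ExpSum m f := by
  classical
  refine ⟨t.image r, fun ρ x => ∑ i ∈ t with r i = ρ, A i x, fun ρ => ?_, fun n => ?_⟩
  · exact continuous_finsetSum _ fun i _ => hA i
  · rw [h n, ← Finset.sum_fiberwise_of_maps_to
      (fun i hi => Finset.mem_image_of_mem r hi)]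
    refine Finset.sum_congr rfl fun ρ _ => ?_
    rw [Finset.smul_sum]
    refine Finset.sum_congr rfl fun i hi => ?_
    rw [(Finset.mem_filter.1 hi).2]

lemma ExpSum.asy {f : ℕ → F} (hf : ExpSum m f) : Asy m f := fun b =>
  ⟨f, hf, by simpa using isBigO_zero _ _⟩

lemma ExpSum.const (c : F) : ExpSum m (fun _ => c) :=
  ⟨{0}, fun _ _ => c, fun _ => continuous_const, fun n => by simp⟩

lemma ExpSum.add {f g : ℕ → F} (hf : ExpSum m f) (hg : ExpSum m g) :
    ExpSum m (fun n => f n + g n) := by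
  obtain ⟨s, A, hA, hf⟩ := hf
  obtain ⟨t, B, hB, hg⟩ := hg
  refine ExpSum.of_index (s.disjSum t) (Sum.elim id id) (Sum.elim A B) ?_ fun n => ?_
  · rintro (i | i)
    · exact hA i
    · exact hB i
  · rw [Finset.sum_disjSum, hf n, hg n]
    rfl

/-- apply a continuous bilinear map -/
lemma ExpSum.bilin {F₁ F₂ : Type*} [NormedAddCommGroup F₁] [NormedSpace ℝ F₁]
    [NormedAddCommGroup F₂] [NormedSpace ℝ F₂] (B : F₁ →L[ℝ] F₂ →L[ℝ] F)
    {f : ℕ → F₁} {g : ℕ → F₂} (hf : ExpSum m f) (hg : ExpSum m g) :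
    ExpSum m (fun n => B (f n) (g n)) := by
  obtain ⟨s, A, hA, hf⟩ := hf
  obtain ⟨t, A', hA', hg⟩ := hg
  refine ExpSum.of_index (s ×ˢ t) (fun i => i.1 + i.2) (fun i x => B (A i.1 x) (A' i.2 x)) ?_
    fun n => ?_
  · intro i
    exact (B.continuous.comp (hA i.1)).clm_apply (hA' i.2)
  · simp only [hf n, hg n, map_sum, map_smul, _root_.sum_apply,
      _root_.smul_apply, Finset.sum_product, Finset.smul_sum, smul_smul]
    rw [Finset.sum_comm]
    refine Finset.sum_congr rfl fun a _ => Finset.sum_congr rfl fun b _ => ?_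
    rw [← Real.exp_add]
    congr 2
    ring

lemma ExpSum.clm {F' : Type*} [NormedAddCommGroup F'] [NormedSpace ℝ F'] (T : F →L[ℝ] F')
    {f : ℕ → F} (hf : ExpSum m f) : ExpSum m (fun n => T (f n)) := by
  obtain ⟨s, A, hA, hf⟩ := hf
  refine ⟨s, fun ρ x => T (A ρ x), fun ρ => T.continuous.comp (hA ρ), fun n => ?_⟩
  simp [hf n, map_sum]

/-- polynomial functions of a finite-dimensional vector valued `ExpSum` -/
lemma ExpSum.polyFun [FiniteDimensional ℝ F] {Q : F → ℝ} (hQ : Q ∈ PolyFun F) {f : ℕ → F}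
    (hf : ExpSum m f) : ExpSum m (fun n => Q (f n)) := by
  refine PolyFun.induction (p := fun Q => ExpSum m (fun n => Q (f n))) (fun φ => ?_)
    (fun c => ExpSum.const c) (fun Q₁ Q₂ h₁ h₂ => h₁.add h₂) (fun Q₁ Q₂ h₁ h₂ => ?_) hQ
  · exact hf.clm (LinearMap.toContinuousLinearMap φ)
  · exact ExpSum.bilin (ContinuousLinearMap.mul ℝ ℝ) h₁ h₂

/-! ### expansions -/

lemma exp_isBigO {a b : ℝ} (hab : a ≤ b) :
    (fun n : ℕ => Real.exp (a * n)) =O[atTop] fun n : ℕ => Real.exp (b * n) := by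
  refine IsBigO.of_bound 1 (Eventually.of_forall fun n => ?_)
  rw [Real.norm_of_nonneg (Real.exp_pos _).le, Real.norm_of_nonneg (Real.exp_pos _).le, one_mul]
  exact Real.exp_le_exp.2 (mul_le_mul_of_nonneg_right hab n.cast_nonneg)

lemma Asy.const (c : F) : Asy m (fun _ => c) := (ExpSum.const c).asy

lemma Asy.add {f g : ℕ → F} (hf : Asy m f) (hg : Asy m g) : Asy m (fun n => f n + g n) := by
  intro b
  obtain ⟨f', hf', hf⟩ := hf b
  obtain ⟨g', hg', hg⟩ := hg b
  refine ⟨_, hf'.add hg', (hf.add hg).congr_left fun n => ?_⟩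
  dsimp only
  abel

lemma Asy.clm {F' : Type*} [NormedAddCommGroup F'] [NormedSpace ℝ F'] (T : F →L[ℝ] F')
    {f : ℕ → F} (hf : Asy m f) : Asy m (fun n => T (f n)) := by
  intro b
  obtain ⟨f', hf', hf⟩ := hf b
  refine ⟨_, hf'.clm T, ?_⟩
  refine ((T.isBigO_comp _ _).trans hf).congr_left fun n => ?_
  simp

lemma Asy.sub {f g : ℕ → F} (hf : Asy m f) (hg : Asy m g) : Asy m (fun n => f n - g n) := by
  have := hf.add (hg.clm (-ContinuousLinearMap.id ℝ F))
  simpa [sub_eq_add_neg] using this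

lemma Asy.sum {κ : Type*} (s : Finset κ) {f : κ → ℕ → F} (hf : ∀ i ∈ s, Asy m (f i)) :
    Asy m (fun n => ∑ i ∈ s, f i n) := by
  classical
  induction s using Finset.induction_on with
  | empty => simpa using Asy.const (m := m) (0 : F)
  | insert a s ha ih =>
    simp only [Finset.sum_insert ha]
    exact (hf a (Finset.mem_insert_self _ _)).add
      (ih fun i hi => hf i (Finset.mem_insert_of_mem hi))

lemma Asy.congr' {f g : ℕ → F} (hf : Asy m f) (h : ∀ᶠ n in atTop, f n = g n) : Asy m g := by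
  intro b
  obtain ⟨f', hf', hf⟩ := hf b
  refine ⟨f', hf', hf.congr' ?_ EventuallyEq.rfl⟩
  filter_upwards [h] with n hn
  rw [hn]

/-- it suffices to approximate by sequences with expansions -/
lemma Asy.of_approx {f : ℕ → F} (h : ∀ b : ℝ, ∃ g : ℕ → F, Asy m g ∧
    (fun n => f n - g n) =O[atTop] fun n : ℕ => Real.exp (b * n)) : Asy m f := by
  intro b
  obtain ⟨g, hg, hfg⟩ := h b
  obtain ⟨g', hg', hgg⟩ := hg b
  exact ⟨g', hg', (hfg.add hgg).congr_left fun n => by abel⟩

/-! ### isometries -/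

lemma norm_pow_apply (hm : star m * m = 1) (n : ℕ) (v : E) : ‖(m ^ n) v‖ = ‖v‖ := by
  have h1 : ∀ v, ‖m v‖ = ‖v‖ := by
    intro v
    have h2 : inner ℝ (m v) (m v) = inner ℝ v v := by
      have h3 : (star m) (m v) = v := by
        have := congrArg (fun T : E →L[ℝ] E => T v) hm
        simpa using this
      calc inner ℝ (m v) (m v) = inner ℝ ((ContinuousLinearMap.adjoint m) (m v)) v := by
            rw [ContinuousLinearMap.adjoint_inner_left]
        _ = inner ℝ v v := by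
            rw [← ContinuousLinearMap.star_eq_adjoint, h3]
    rw [real_inner_self_eq_norm_sq, real_inner_self_eq_norm_sq] at h2
    exact (pow_left_inj₀ (norm_nonneg _) (norm_nonneg _) two_ne_zero).1 h2
  induction n generalizing v with
  | zero => simp
  | succ n ih => rw [pow_succ, mul_apply_eq_comp, ih, h1]

lemma norm_pow_le_one (hm : star m * m = 1) (n : ℕ) : ‖m ^ n‖ ≤ 1 :=
  ContinuousLinearMap.opNorm_le_bound _ zero_le_one fun v => by
    rw [norm_pow_apply hm, one_mul]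

lemma norm_le_pow_mul (hm : star m * m = 1) (n : ℕ) (T : E →L[ℝ] E) : ‖T‖ ≤ ‖m ^ n * T‖ :=
  ContinuousLinearMap.opNorm_le_bound _ (norm_nonneg _) fun v => by
    rw [← norm_pow_apply hm n (T v)]
    exact (m ^ n * T).le_opNorm v

/-- recurrence of isometries -/
theorem exists_pow_tendsto_one (hm : star m * m = 1) :
    ∃ φ : ℕ → ℕ, StrictMono φ ∧ Tendsto (fun k => m ^ φ k) atTop (𝓝 1) := by
  have key : ∀ ε > 0, ∀ N : ℕ, ∃ n ≥ N, ‖m ^ n - 1‖ < ε := by
    intro ε hε N
    have : ProperSpace (E →L[ℝ] E) := FiniteDimensional.proper ℝ _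
    obtain ⟨x, -, ψ, hψ, hx⟩ := (isCompact_closedBall (0 : E →L[ℝ] E) 1).tendsto_subseq
      (x := fun n => m ^ n) (fun n => by
        rw [mem_closedBall_zero_iff]
        exact norm_pow_le_one hm n)
    have hc := hx.cauchySeq
    rw [Metric.cauchySeq_iff] at hc
    obtain ⟨M, hM⟩ := hc ε hε
    have h1 := hM (M + N) (by omega) M le_rfl
    have h2 : ψ M + N ≤ ψ (M + N) := by
      clear * - hψ
      induction N with
      | zero => simp
      | succ N ih =>
        have := hψ (show M + N < M + (N + 1) by omega)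
        omega
    refine ⟨ψ (M + N) - ψ M, by omega, ?_⟩
    refine (norm_le_pow_mul hm (ψ M) _).trans_lt ?_
    rw [mul_sub, mul_one, ← pow_add, Nat.add_sub_cancel' (by omega)]
    simpa [dist_eq_norm] using h1
  have : MapClusterPt (1 : E →L[ℝ] E) atTop (fun n : ℕ => m ^ n) := by
    rw [mapClusterPt_iff_frequently]
    intro s hs
    obtain ⟨ε, hε, hs⟩ := Metric.mem_nhds_iff.1 hs
    rw [frequently_atTop]
    intro N
    obtain ⟨n, hn, hn'⟩ := key ε hε N
    exact ⟨n, hn, hs (by rwa [Metric.mem_ball, dist_eq_norm])⟩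
  obtain ⟨φ, hφ, h⟩ := this.tendsto_subseq
  exact ⟨φ, hφ, h⟩

/-- continuous functions are bounded along the powers of an isometry -/
lemma exists_bound (hm : star m * m = 1) {A : (E →L[ℝ] E) → F} (hA : Continuous A) :
    ∃ C : ℝ, 0 ≤ C ∧ ∀ n : ℕ, ‖A (m ^ n)‖ ≤ C := by
  have : ProperSpace (E →L[ℝ] E) := FiniteDimensional.proper ℝ _
  obtain ⟨C, hC⟩ := (isCompact_closedBall (0 : E →L[ℝ] E) 1).exists_bound_of_continuousOn
    hA.continuousOn
  refine ⟨C, (norm_nonneg _).trans (hC 0 (by simp)), fun n => hC _ ?_⟩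
  rw [mem_closedBall_zero_iff]
  exact norm_pow_le_one hm n

lemma ExpSum.growth (hm : star m * m = 1) {f : ℕ → F} (hf : ExpSum m f) :
    ∃ c : ℝ, f =O[atTop] fun n : ℕ => Real.exp (c * n) := by
  obtain ⟨s, A, hA, hf⟩ := hf
  obtain ⟨c, hc⟩ := s.bddAbove
  refine ⟨c, ?_⟩
  have : f = fun n : ℕ => ∑ ρ ∈ s, Real.exp (ρ * n) • A ρ (m ^ n) := funext hf
  rw [this]
  refine IsBigO.fun_sum fun ρ hρ => ?_
  obtain ⟨C, hC0, hC⟩ := exists_bound hm (hA ρ)
  have h1 : (fun n : ℕ => A ρ (m ^ n)) =O[atTop] fun _ : ℕ => (1 : ℝ) :=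
    IsBigO.of_bound C (Eventually.of_forall fun n => by simpa using hC n)
  have h2 := (exp_isBigO (hc hρ)).smul h1
  simpa using h2

lemma Asy.growth (hm : star m * m = 1) {f : ℕ → F} (hf : Asy m f) :
    ∃ c : ℝ, f =O[atTop] fun n : ℕ => Real.exp (c * n) := by
  obtain ⟨g, hg, hfg⟩ := hf 0
  obtain ⟨c, hc⟩ := hg.growth hm
  refine ⟨max 0 c, ?_⟩
  have := (hfg.trans (exp_isBigO (le_max_left 0 c))).add (hc.trans (exp_isBigO (le_max_right 0 c)))
  simpa using this

/-- bilinear maps; here `m` is an isometry, so that an `ExpSum` has at most exponential growth -/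
lemma Asy.bilin (hm : star m * m = 1) {F₁ F₂ : Type*} [NormedAddCommGroup F₁] [NormedSpace ℝ F₁]
    [NormedAddCommGroup F₂] [NormedSpace ℝ F₂] (B : F₁ →L[ℝ] F₂ →L[ℝ] F)
    {f : ℕ → F₁} {g : ℕ → F₂} (hf : Asy m f) (hg : Asy m g) :
    Asy m (fun n => B (f n) (g n)) := by
  intro b
  obtain ⟨c, hc⟩ := hg.growth hm
  obtain ⟨f', hf', hff⟩ := hf (b - c)
  obtain ⟨c', hc'⟩ := hf'.growth hm
  obtain ⟨g', hg', hgg⟩ := hg (b - c')
  refine ⟨_, hf'.bilin B hg', ?_⟩
  have key : ∀ (u : ℕ → F₁) (v : ℕ → F₂) (a a' : ℝ), (u =O[atTop] fun n : ℕ => Real.exp (a * n)) →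
      (v =O[atTop] fun n : ℕ => Real.exp (a' * n)) → a + a' = b →
      (fun n => B (u n) (v n)) =O[atTop] fun n : ℕ => Real.exp (b * n) := by
    intro u v a a' hu hv h
    have h1 : (fun n => B (u n) (v n)) =O[atTop] fun n => ‖u n‖ * ‖v n‖ := by
      refine IsBigO.of_bound ‖B‖ (Eventually.of_forall fun n => ?_)
      rw [Real.norm_of_nonneg (by positivity), ← mul_assoc]
      exact B.le_opNorm₂ _ _
    refine (h1.trans (hu.norm_left.mul hv.norm_left)).congr_right fun n => ?_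
    rw [← Real.exp_add, ← add_mul, h]
  have h1 := key (fun n => f n - f' n) g (b - c) c hff hc (by ring)
  have h2 := key f' (fun n => g n - g' n) c' (b - c') hc' hgg (by ring)
  refine (h1.add h2).congr_left fun n => ?_
  simp only [map_sub, _root_.sub_apply]
  abel

lemma Asy.mul (hm : star m * m = 1) {R : Type*} [NormedRing R] [NormedAlgebra ℝ R]
    {f g : ℕ → R} (hf : Asy m f) (hg : Asy m g) : Asy m (fun n => f n * g n) :=
  Asy.bilin hm (ContinuousLinearMap.mul ℝ R) hf hg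

lemma Asy.pow (hm : star m * m = 1) {R : Type*} [NormedRing R] [NormedAlgebra ℝ R]
    {f : ℕ → R} (hf : Asy m f) (k : ℕ) : Asy m (fun n => f n ^ k) := by
  induction k with
  | zero => simpa using Asy.const (m := m) (1 : R)
  | succ k ih => simpa only [pow_succ] using ih.mul hm hf

lemma isBigO_pow_exp {R : Type*} [NormedRing R] {x : ℕ → R} {c : ℝ} (hc : c < 0)
    (hx : x =O[atTop] fun n : ℕ => Real.exp (c * n)) (b : ℝ) :
    ∃ K : ℕ, ∀ k ≥ K, (fun n => x n ^ k) =O[atTop] fun n : ℕ => Real.exp (b * n) := by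
  obtain ⟨K, hK⟩ := exists_nat_ge (b / c)
  refine ⟨K + 1, fun k hk => ?_⟩
  have h1 : (fun n => x n ^ k) =O[atTop] fun n : ℕ => Real.exp (c * n) ^ k := by
    obtain ⟨j, rfl⟩ : ∃ j, k = j + 1 := ⟨k - 1, by omega⟩
    clear hk
    induction j with
    | zero => simpa using hx
    | succ j ih =>
      simpa only [pow_succ _ (j + 1)] using ih.mul hx
  have h2 : ∀ n : ℕ, Real.exp (c * n) ^ k = Real.exp ((k * c) * n) := by
    intro n
    rw [← Real.exp_nat_mul]
    congr 1
    ring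
  simp only [h2] at h1
  refine h1.trans (exp_isBigO ?_)
  have h3 : b / c ≤ k := hK.trans (by exact_mod_cast (by omega : K ≤ k))
  rwa [div_le_iff_of_neg hc] at h3

/-- inverse in a Banach algebra -/
lemma Asy.inverse (hm : star m * m = 1) {R : Type*} [NormedRing R] [NormedAlgebra ℝ R]
    [CompleteSpace R] {f : ℕ → R} (hf : Asy m f) (u : Rˣ) {c : ℝ} (hc : c < 0)
    (hlim : (fun n => f n - u) =O[atTop] fun n : ℕ => Real.exp (c * n)) :
    Asy m (fun n => Ring.inverse (f n)) := by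
  have hexp : Tendsto (fun n : ℕ => Real.exp (c * n)) atTop (𝓝 0) := by
    refine Real.tendsto_exp_atBot.comp ?_
    exact tendsto_natCast_atTop_atTop.const_mul_atTop_of_neg hc
  have hft : Tendsto f atTop (𝓝 (u : R)) := by
    have := hlim.trans_tendsto hexp
    simpa using this.add_const (u : R)
  have hunit : ∀ᶠ n in atTop, IsUnit (f n) :=
    hft.eventually (Units.isOpen.mem_nhds u.isUnit)
  have hinv : Tendsto (fun n => Ring.inverse (f n)) atTop (𝓝 (Ring.inverse (u : R))) :=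
    (NormedRing.inverse_continuousAt u).tendsto.comp hft
  have hbdd : (fun n => Ring.inverse (f n)) =O[atTop] fun _ : ℕ => (1 : ℝ) :=
    hinv.isBigO_one ℝ
  set x : ℕ → R := fun n => 1 - ((u⁻¹ : Rˣ) : R) * f n with hx
  have hxO : x =O[atTop] fun n : ℕ => Real.exp (c * n) := by
    have h1 : x = fun n => (-((u⁻¹ : Rˣ) : R)) * (f n - u) := by
      funext n
      rw [hx]
      simp only [mul_sub, neg_mul, Units.inv_mul]
      abel
    rw [h1]
    have h2 : (fun _ : ℕ => (-((u⁻¹ : Rˣ) : R))) =O[atTop] fun _ : ℕ => (1 : ℝ) :=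
      isBigO_const_one ℝ _ _
    simpa using h2.mul hlim
  have hxA : Asy m x := (Asy.const (1 : R)).sub ((Asy.const ((u⁻¹ : Rˣ) : R)).mul hm hf)
  refine Asy.of_approx fun b => ?_
  obtain ⟨K, hK⟩ := isBigO_pow_exp hc hxO b
  refine ⟨fun n => (∑ k ∈ Finset.range K, x n ^ k) * ((u⁻¹ : Rˣ) : R),
    (Asy.sum _ fun k _ => hxA.pow hm k).mul hm (Asy.const _), ?_⟩
  have h1 := (hK K le_rfl).mul hbdd
  simp only [mul_one] at h1
  refine h1.congr' ?_ EventuallyEq.rfl
  filter_upwards [hunit] with n hn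
  have h2 : ((∑ k ∈ Finset.range K, x n ^ k) * ((u⁻¹ : Rˣ) : R)) * f n = 1 - x n ^ K := by
    have h3 : ((u⁻¹ : Rˣ) : R) * f n = 1 - x n := by simp [hx]
    rw [mul_assoc, h3]
    have := geom_sum_mul_neg (x n) K
    exact this
  have h4 : f n * Ring.inverse (f n) = 1 := Ring.mul_inverse_cancel _ hn
  calc x n ^ K * Ring.inverse (f n)
      = Ring.inverse (f n) - (1 - x n ^ K) * Ring.inverse (f n) := by noncomm_ring
    _ = Ring.inverse (f n) - (∑ k ∈ Finset.range K, x n ^ k) * ((u⁻¹ : Rˣ) : R) := by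
        rw [← h2, mul_assoc, h4, mul_one]

/-- logarithm -/
lemma Asy.log (hm : star m * m = 1) {f : ℕ → ℝ} (hf : Asy m f) {u : ℝ} (hu : u ≠ 0) {c : ℝ}
    (hc : c < 0) (hlim : (fun n => f n - u) =O[atTop] fun n : ℕ => Real.exp (c * n)) :
    Asy m (fun n => Real.log |f n|) := by
  have hexp : Tendsto (fun n : ℕ => Real.exp (c * n)) atTop (𝓝 0) := by
    refine Real.tendsto_exp_atBot.comp ?_
    exact tendsto_natCast_atTop_atTop.const_mul_atTop_of_neg hc
  set x : ℕ → ℝ := fun n => 1 - u⁻¹ * f n with hx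
  have hxO : x =O[atTop] fun n : ℕ => Real.exp (c * n) := by
    have h1 : x = fun n => (-u⁻¹) * (f n - u) := by
      funext n
      rw [hx]
      field_simp
      ring
    rw [h1]
    exact hlim.const_mul_left _
  have hx0 : Tendsto x atTop (𝓝 0) := hxO.trans_tendsto hexp
  have hxA : Asy m x := (Asy.const (1 : ℝ)).sub ((Asy.const u⁻¹).mul hm hf)
  have hsmall : ∀ᶠ n in atTop, |x n| < 1 / 2 := by
    have := hx0.abs
    rw [abs_zero] at this
    exact this.eventually (gt_mem_nhds (by norm_num))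
  refine Asy.of_approx fun b => ?_
  obtain ⟨K, hK⟩ := isBigO_pow_exp hc hxO b
  refine ⟨fun n => Real.log |u| - ∑ k ∈ Finset.range K, ((k : ℝ) + 1)⁻¹ * x n ^ (k + 1),
    (Asy.const _).sub (Asy.sum _ fun k _ => (Asy.const _).mul hm (hxA.pow hm (k + 1))), ?_⟩
  refine IsBigO.trans ?_ (hK (K + 1) (by omega))
  refine IsBigO.of_bound 2 ?_
  filter_upwards [hsmall] with n hn
  have h1 : |f n| = |u| * |1 - x n| := by
    rw [← abs_mul]
    congr 1
    rw [hx]
    field_simp
    ring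
  have hpos : 0 < 1 - x n := by
    have := (abs_lt.1 hn).2
    linarith
  have h2 : Real.log |f n| = Real.log |u| + Real.log (1 - x n) := by
    rw [h1, Real.log_mul (abs_ne_zero.2 hu) (abs_ne_zero.2 hpos.ne'), abs_of_pos hpos]
  have h3 := Real.abs_log_sub_add_sum_range_le (x := x n) (by linarith) K
  have h4 : ∑ i ∈ Finset.range K, x n ^ (i + 1) / (i + 1)
      = ∑ k ∈ Finset.range K, ((k : ℝ) + 1)⁻¹ * x n ^ (k + 1) :=
    Finset.sum_congr rfl fun i _ => by rw [div_eq_mul_inv, mul_comm]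
  rw [h4] at h3
  have h5 : Real.log |f n| - (Real.log |u| - ∑ k ∈ Finset.range K, ((k : ℝ) + 1)⁻¹ * x n ^ (k + 1))
      = ∑ k ∈ Finset.range K, ((k : ℝ) + 1)⁻¹ * x n ^ (k + 1) + Real.log (1 - x n) := by
    rw [h2]; ring
  rw [h5, Real.norm_eq_abs, Real.norm_eq_abs, abs_pow]
  refine h3.trans ?_
  rw [div_le_iff₀ (by linarith)]
  nlinarith [pow_nonneg (abs_nonneg (x n)) (K + 1)]

/-! ### uniqueness -/

lemma tendsto_exp_zero {c : ℝ} (hc : c < 0) :
    Tendsto (fun n : ℕ => Real.exp (c * n)) atTop (𝓝 0) :=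
  Real.tendsto_exp_atBot.comp (tendsto_natCast_atTop_atTop.const_mul_atTop_of_neg hc)

lemma tendsto_nat_mul_exp {c : ℝ} (hc : c < 0) :
    Tendsto (fun n : ℕ => (n : ℝ) * Real.exp (c * n)) atTop (𝓝 0) := by
  have h := (Real.tendsto_pow_mul_exp_neg_atTop_nhds_zero 1).comp
    ((tendsto_natCast_atTop_atTop (R := ℝ)).const_mul_atTop (neg_pos.2 hc))
  have h2 := h.const_mul (-c)⁻¹
  rw [mul_zero] at h2
  refine h2.congr fun n => ?_
  have h3 : -c ≠ 0 := (neg_pos.2 hc).ne'
  simp only [Function.comp, pow_one, neg_neg, neg_mul]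
  have h4 : c ≠ 0 := hc.ne
  have h5 : (-c)⁻¹ * -(c * (n : ℝ) * Real.exp (c * n)) =
      ((-c)⁻¹ * (-c)) * ((n : ℝ) * Real.exp (c * n)) := by ring
  rw [h5, inv_mul_cancel₀ h3, one_mul]

/-- the coefficients of a vanishing expansion vanish -/
lemma coeff_eq_zero (hm : star m * m = 1) {A B : (E →L[ℝ] E) → ℝ} (hA : Continuous A)
    (hB : Continuous B)
    (h : Tendsto (fun n : ℕ => (n : ℝ) * A (m ^ n) + B (m ^ n)) atTop (𝓝 0)) (k : ℕ) :
    A (m ^ k) = 0 ∧ B (m ^ k) = 0 := by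
  obtain ⟨φ, hφ, hφ1⟩ := exists_pow_tendsto_one hm
  have recur : ∀ {X : (E →L[ℝ] E) → ℝ}, Continuous X →
      Tendsto (fun n : ℕ => X (m ^ n)) atTop (𝓝 0) → ∀ k, X (m ^ k) = 0 := by
    intro X hX h k
    have h1 : Tendsto (fun j => X (m ^ (k + φ j))) atTop (𝓝 0) :=
      h.comp (tendsto_atTop_mono (fun j => Nat.le_add_left _ _) hφ.tendsto_atTop)
    have h2 : Tendsto (fun j => X (m ^ (k + φ j))) atTop (𝓝 (X (m ^ k * 1))) := by
      simp only [pow_add]
      exact (hX.tendsto _).comp (hφ1.const_mul (m ^ k))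
    rw [mul_one] at h2
    exact tendsto_nhds_unique h2 h1
  obtain ⟨C, hC0, hC⟩ := exists_bound hm hB
  have hA0 : ∀ k, A (m ^ k) = 0 := by
    refine recur hA ?_
    have h1 : Tendsto (fun n : ℕ => ((n : ℝ))⁻¹) atTop (𝓝 0) :=
      tendsto_inv_atTop_zero.comp tendsto_natCast_atTop_atTop
    have h2 := h.mul h1
    have h3 : Tendsto (fun n : ℕ => B (m ^ n) * ((n : ℝ))⁻¹) atTop (𝓝 0) := by
      refine squeeze_zero_norm (a := fun n : ℕ => C * ((n : ℝ))⁻¹) (fun n => ?_) ?_
      · rw [norm_mul, norm_inv, Real.norm_natCast]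
        exact mul_le_mul_of_nonneg_right (hC n) (by positivity)
      · simpa using h1.const_mul C
    have h4 := h2.sub h3
    simp only [mul_zero, sub_zero] at h4
    refine h4.congr' ?_
    filter_upwards [eventually_gt_atTop 0] with n hn
    have : (n : ℝ) ≠ 0 := by positivity
    field_simp
    ring
  refine ⟨hA0 k, recur hB ?_ k⟩
  simpa [hA0] using h

/-- the leading terms of a small expansion vanish -/
lemma expansion_unique (hm : star m * m = 1) (b : ℝ) (s : Finset ℝ) :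
    ∀ (A B : ℝ → (E →L[ℝ] E) → ℝ), (∀ ρ, Continuous (A ρ)) → (∀ ρ, Continuous (B ρ)) →
    ((fun n : ℕ => (n : ℝ) * ∑ ρ ∈ s, Real.exp (ρ * n) • A ρ (m ^ n) +
      ∑ ρ ∈ s, Real.exp (ρ * n) • B ρ (m ^ n)) =O[atTop] fun n : ℕ => Real.exp (b * n)) →
    ∀ ρ ∈ s, b < ρ → ∀ k : ℕ, A ρ (m ^ k) = 0 ∧ B ρ (m ^ k) = 0 := by
  induction s using Finset.induction_on_max with
  | empty => simp
  | insert a s hs ih =>
    intro A B hA hB h
    by_cases hab : a ≤ b
    · intro ρ hρ hbρ
      rcases Finset.mem_insert.1 hρ with rfl | hρ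
      · exact absurd hbρ (not_lt.2 hab)
      · exact absurd hbρ (not_lt.2 ((hs ρ hρ).le.trans hab))
    · rw [not_le] at hab
      have ha : a ∉ s := fun h => lt_irrefl _ (hs a h)
      have key : ∀ k : ℕ, A a (m ^ k) = 0 ∧ B a (m ^ k) = 0 := by
        refine coeff_eq_zero hm (hA a) (hB a) ?_
        have hexp := tendsto_exp_zero (show b - a < 0 by linarith)
        have h1 : Tendsto (fun n : ℕ => Real.exp (-a * n) *
            ((n : ℝ) * ∑ ρ ∈ insert a s, Real.exp (ρ * n) • A ρ (m ^ n) +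
            ∑ ρ ∈ insert a s, Real.exp (ρ * n) • B ρ (m ^ n))) atTop (𝓝 0) := by
          refine IsBigO.trans_tendsto (((isBigO_refl _ _).mul h).congr_right fun n => ?_) hexp
          rw [← Real.exp_add]
          congr 1
          ring
        have h2 : ∀ (X : ℝ → (E →L[ℝ] E) → ℝ), (∀ ρ, Continuous (X ρ)) → ∀ ρ ∈ s,
            Tendsto (fun n : ℕ => (n : ℝ) * (Real.exp ((ρ - a) * n) * X ρ (m ^ n))) atTop (𝓝 0) ∧
            Tendsto (fun n : ℕ => Real.exp ((ρ - a) * n) * X ρ (m ^ n)) atTop (𝓝 0) := by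
          intro X hX ρ hρ
          obtain ⟨C, hC0, hC⟩ := exists_bound hm (hX ρ)
          have hρa : ρ - a < 0 := by linarith [hs ρ hρ]
          constructor
          · refine squeeze_zero_norm
              (a := fun n : ℕ => C * ((n : ℝ) * Real.exp ((ρ - a) * n))) (fun n => ?_) ?_
            · rw [norm_mul, norm_mul, Real.norm_natCast, Real.norm_of_nonneg (Real.exp_pos _).le]
              have := mul_le_mul_of_nonneg_left (hC n)
                (show 0 ≤ (n : ℝ) * Real.exp ((ρ - a) * n) by positivity)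
              linarith
            · simpa using (tendsto_nat_mul_exp hρa).const_mul C
          · refine squeeze_zero_norm
              (a := fun n : ℕ => C * Real.exp ((ρ - a) * n)) (fun n => ?_) ?_
            · rw [norm_mul, Real.norm_of_nonneg (Real.exp_pos _).le]
              have := mul_le_mul_of_nonneg_left (hC n)
                (show 0 ≤ Real.exp ((ρ - a) * n) by positivity)
              linarith
            · simpa using (tendsto_exp_zero hρa).const_mul C
        have h3 := tendsto_finsetSum s fun ρ hρ => (h2 A hA ρ hρ).1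
        have h4 := tendsto_finsetSum s fun ρ hρ => (h2 B hB ρ hρ).2
        have h5 := (h1.sub h3).sub h4
        simp only [Finset.sum_const_zero, sub_zero] at h5
        refine h5.congr fun n => ?_
        rw [Finset.sum_insert ha, Finset.sum_insert ha]
        simp only [smul_eq_mul]
        have e1 : ∀ ρ : ℝ, Real.exp ((ρ - a) * n) = Real.exp (-a * n) * Real.exp (ρ * n) := by
          intro ρ
          rw [← Real.exp_add]
          congr 1
          ring
        have e2 : Real.exp (-a * n) * Real.exp (a * n) = 1 := by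
          rw [← Real.exp_add]
          simp
        simp only [e1, mul_assoc, ← Finset.mul_sum]
        linear_combination (n * A a (m ^ n) + B a (m ^ n)) * e2
      intro ρ hρ hbρ
      rcases Finset.mem_insert.1 hρ with rfl | hρ
      · exact key
      · refine ih A B hA hB (h.congr_left fun n => ?_) ρ hρ hbρ
        rw [Finset.sum_insert ha, Finset.sum_insert ha, (key n).1, (key n).2]
        simp

/-- extend the index set of an `ExpSum` -/
lemma extend_sum (s t : Finset ℝ) (hst : s ⊆ t) (A : ℝ → (E →L[ℝ] E) → ℝ)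
    (hA : ∀ ρ, Continuous (A ρ)) :
    ∃ A' : ℝ → (E →L[ℝ] E) → ℝ, (∀ ρ, Continuous (A' ρ)) ∧ (∀ ρ ∈ s, A' ρ = A ρ) ∧
      (∀ ρ ∉ s, A' ρ = 0) ∧
      ∀ n : ℕ, ∑ ρ ∈ s, Real.exp (ρ * n) • A ρ (m ^ n) =
        ∑ ρ ∈ t, Real.exp (ρ * n) • A' ρ (m ^ n) := by
  classical
  refine ⟨fun ρ x => if ρ ∈ s then A ρ x else 0, fun ρ => ?_, fun ρ hρ => ?_,
    fun ρ hρ => ?_, fun n => ?_⟩
  · by_cases h : ρ ∈ s
    · simpa [h] using hA ρ
    · simpa [h] using continuous_const
  · funext x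
    exact if_pos hρ
  · funext x
    exact if_neg hρ
  · rw [← Finset.sum_subset hst]
    · refine Finset.sum_congr rfl fun ρ hρ => ?_
      simp only [if_pos hρ]
    · intro ρ _ hρ
      simp only [if_neg hρ, smul_zero]

/-- uniqueness of expansions: no cancellation between `n * f n` and `g n` -/
theorem Asy.unique (hm : star m * m = 1) {f g : ℕ → ℝ} (hf : Asy m f) (hg : Asy m g)
    (h : ∀ᶠ n : ℕ in atTop, n * f n + g n = 0) (b : ℝ) :
    f =O[atTop] fun n : ℕ => Real.exp (b * n) := by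
  classical
  obtain ⟨f', ⟨s, A, hA, hf'⟩, hff⟩ := hf (b - 1)
  obtain ⟨g', ⟨t, B, hB, hg'⟩, hgg⟩ := hg (b - 1)
  obtain ⟨A', hA', hA1, hA2, hA3⟩ := extend_sum (m := m) s (s ∪ t) Finset.subset_union_left A hA
  obtain ⟨B', hB', hB1, hB2, hB3⟩ := extend_sum (m := m) t (s ∪ t) Finset.subset_union_right B hB
  have hn : (fun n : ℕ => (n : ℝ) * Real.exp ((b - 1) * n)) =O[atTop]
      fun n : ℕ => Real.exp (b * n) := by
    have h1 : (fun n : ℕ => (n : ℝ) * Real.exp ((-1 : ℝ) * n)) =O[atTop] fun _ : ℕ => (1 : ℝ) :=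
      (tendsto_nat_mul_exp (by norm_num)).isBigO_one ℝ
    have h2 := h1.mul (isBigO_refl (fun n : ℕ => Real.exp (b * n)) atTop)
    refine (h2.congr_left fun n => ?_).congr_right fun n => by rw [one_mul]
    rw [mul_assoc, ← Real.exp_add]
    congr 2
    ring
  have h1 : (fun n : ℕ => (n : ℝ) * ∑ ρ ∈ s ∪ t, Real.exp (ρ * n) • A' ρ (m ^ n) +
      ∑ ρ ∈ s ∪ t, Real.exp (ρ * n) • B' ρ (m ^ n)) =O[atTop] fun n : ℕ => Real.exp (b * n) := by
    have h2 : (fun n : ℕ => (n : ℝ) * (f n - f' n)) =O[atTop] fun n : ℕ => Real.exp (b * n) :=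
      ((isBigO_refl _ _).mul hff).trans hn
    have h3 := (h2.add (hgg.trans (exp_isBigO (by linarith : b - 1 ≤ b)))).neg_left
    refine h3.congr' ?_ EventuallyEq.rfl
    filter_upwards [h] with n hn
    rw [← hA3, ← hB3, ← hf', ← hg']
    linear_combination -hn
  have h2 := expansion_unique hm b (s ∪ t) A' B' hA' hB' h1
  have h3 : f' =O[atTop] fun n : ℕ => Real.exp (b * n) := by
    have h4 : f' = fun n : ℕ => ∑ ρ ∈ s ∪ t, Real.exp (ρ * n) • A' ρ (m ^ n) :=
      funext fun n => by rw [hf', hA3]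
    rw [h4]
    refine IsBigO.fun_sum fun ρ hρ => ?_
    by_cases hbρ : b < ρ
    · refine IsBigO.of_bound 0 (Eventually.of_forall fun n => ?_)
      rw [(h2 ρ hρ hbρ n).1]
      simp
    · rw [not_lt] at hbρ
      obtain ⟨C, hC0, hC⟩ := exists_bound hm (hA' ρ)
      have h5 : (fun n : ℕ => A' ρ (m ^ n)) =O[atTop] fun _ : ℕ => (1 : ℝ) :=
        IsBigO.of_bound C (Eventually.of_forall fun n => by simpa using hC n)
      simpa using (exp_isBigO hbρ).smul h5
  have h4 := (hff.trans (exp_isBigO (by linarith : b - 1 ≤ b))).add h3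
  simpa using h4

/-- an `ExpSum` which decays faster than every exponential vanishes identically -/
theorem ExpSum.eq_zero (hm : star m * m = 1) {f : ℕ → ℝ} (hf : ExpSum m f)
    (h : ∀ b : ℝ, f =O[atTop] fun n : ℕ => Real.exp (b * n)) (n : ℕ) : f n = 0 := by
  obtain ⟨s, A, hA, hf⟩ := hf
  obtain ⟨b, hb⟩ := s.bddBelow
  have h1 := expansion_unique hm (b - 1) s (fun _ _ => 0) A (fun _ => continuous_const) hA
    ((h (b - 1)).congr_left fun n => by simp [hf n])
  rw [hf n]
  refine Finset.sum_eq_zero fun ρ hρ => ?_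
  rw [(h1 ρ hρ (by linarith [hb hρ]) n).2, smul_zero]

end Asy

end Pool.Agent.Lib.MP_d9b062_al

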