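import Pool.Agent.Lib.MP_d9b062_al.Grading

/-!
# Block LU decomposition in a star ring
-/

set_option linter.unusedSectionVars false
set_option linter.unusedVariables false
set_option linter.unusedSimpArgs false

namespace Pool.Agent.Lib.MP_d9b062_al

open Finset

section

variable {R : Type*} [Ring R] {ι : Type*} [Fintype ι] {P : ι → R}

/-- a block triangular element of both types is block diagonal -/
lemma IsGrading.diag_of (hP : IsGrading P) {T : R} (h : ∀ i j, i ≠ j → P i * T * P j = 0) :
    Diag P T := by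
  intro i
  have h1 : P i * T = P i * T * P i := by
    conv_lhs => rw [hP.mul_sum (P i * T)]
    rw [Finset.sum_eq_single i]
    · intro j _ hj; exact h i j hj.symm
    · intro hi; exact absurd (Finset.mem_univ i) hi
  have h2 : T * P i = P i * T * P i := by
    conv_lhs => rw [hP.sum_mul (T * P i)]
    rw [Finset.sum_eq_single i]
    · rw [← mul_assoc]
    · intro j _ hj; rw [← mul_assoc]; exact h j i hj
    · intro hi; exact absurd (Finset.mem_univ i) hi
  rw [h1, h2]

lemma Diag.block (hP : IsGrading P) {T : R} (hT : Diag P T) {i j : ι} (hij : i ≠ j) :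
    P i * T * P j = 0 := by
  rw [hT i, mul_assoc, hP.orth i j hij, mul_zero]

lemma Diag.sum {κ : Type*} (s : Finset κ) {f : κ → R} (h : ∀ k ∈ s, Diag P (f k)) :
    Diag P (∑ k ∈ s, f k) := fun i => by
  rw [Finset.mul_sum, Finset.sum_mul]
  exact Finset.sum_congr rfl fun k hk => h k hk i

lemma Diag.smul {A : Type*} [CommSemiring A] [Algebra A R] (a : A) {T : R} (h : Diag P T) :
    Diag P (a • T) := fun i => by
  rw [mul_smul_comm, smul_mul_assoc, h i]

end

section Star

variable {R : Type*} [Ring R] [StarRing R] {ι : Type*} [Fintype ι] [LinearOrder ι] {P : ι → R}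

/-- the upper unipotent factor -/
noncomputable def xU (P : ι → R) (T : R) : R := star (yL P (star T))

/-- the block diagonal factor -/
noncomputable def dD (P : ι → R) (T : R) : R :=
  Ring.inverse (yL P T) * T * Ring.inverse (xU P T)

lemma Qge_star (hs : ∀ i, star (P i) = P i) (i : ι) : star (Qge P i) = Qge P i := by
  rw [Qge, star_sum]; exact Finset.sum_congr rfl fun j _ => hs j

lemma Qlt_star (hs : ∀ i, star (P i) = P i) (i : ι) : star (Qlt P i) = Qlt P i := by
  rw [Qlt, star_sum]; exact Finset.sum_congr rfl fun j _ => hs j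

lemma Mi_star (hs : ∀ i, star (P i) = P i) (i : ι) (T : R) :
    star (Mi P i T) = Mi P i (star T) := by
  rw [Mi, Mi, star_add, star_mul, star_mul, Qge_star hs, Qlt_star hs, mul_assoc]

lemma Reg.star (hs : ∀ i, star (P i) = P i) {T : R} (h : Reg P T) : Reg P (star T) := by
  intro i
  rw [← Mi_star hs]
  exact (h i).star

lemma Unip.star (hs : ∀ i, star (P i) = P i) {s : ι → ι → Prop} {T : R} (h : Unip P s T) :
    Unip P (fun i j => s j i) (star T) := by
  constructor
  · intro i
    have := congrArg Star.star (h.1 i)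
    rw [star_mul, star_mul, hs, ← mul_assoc] at this
    exact this
  · intro i j hij hn
    have := congrArg Star.star (h.2 j i hij.symm hn)
    rw [star_mul, star_mul, hs, hs, ← mul_assoc, star_zero] at this
    exact this

lemma Diag.star (hs : ∀ i, star (P i) = P i) {T : R} (h : Diag P T) : Diag P (star T) := by
  intro i
  have := congrArg Star.star (h i)
  rw [star_mul, star_mul, hs] at this
  exact this.symm

lemma Supp.star (hs : ∀ i, star (P i) = P i) {s : ι → ι → Prop} {T : R} (h : Supp P s T) :
    Supp P (fun i j => s j i) (star T) := by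
  intro i j hn
  have := congrArg Star.star (h j i hn)
  rw [star_mul, star_mul, hs, hs, ← mul_assoc, star_zero] at this
  exact this

lemma xU_unip (hP : IsGrading P) (hs : ∀ i, star (P i) = P i) {T : R} (h : Reg P T) :
    Unip P (fun i j => j < i) (xU P T) :=
  (yL_unip hP (h.star hs)).star hs

lemma yL_isUnit (hP : IsGrading P) {T : R} (h : Reg P T) : IsUnit (yL P T) :=
  (yL_unip hP h).isUnit hP lt_trans' (fun i => lt_irrefl i)

lemma xU_isUnit (hP : IsGrading P) (hs : ∀ i, star (P i) = P i) {T : R} (h : Reg P T) :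
    IsUnit (xU P T) :=
  (xU_unip hP hs h).isUnit hP gt_trans' (fun i => lt_irrefl i)

lemma supp_le_of_unip (hP : IsGrading P) {x : R} (hx : Unip P (fun i j => j < i) x) :
    Supp P (fun i j => j ≤ i) x := by
  intro i j hn
  have : i < j := not_le.mp hn
  exact hx.2 i j this.ne (not_lt.mpr this.le)

lemma supp_ge_of_unip (hP : IsGrading P) {x : R} (hx : Unip P (fun i j => i < j) x) :
    Supp P (fun i j => i ≤ j) x := by
  intro i j hn
  have : j < i := not_le.mp hn
  exact hx.2 i j this.ne' (not_lt.mpr this.le)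

lemma le_trans' : ∀ i j k : ι, i ≤ j → j ≤ k → i ≤ k := fun _ _ _ => le_trans
lemma ge_trans' : ∀ i j k : ι, j ≤ i → k ≤ j → k ≤ i := fun _ _ _ h h' => le_trans h' h

/-- `y⁻¹ T` is upper block triangular -/
lemma supp_yinv_T (hP : IsGrading P) {T : R} (h : Reg P T) :
    Supp P (fun i j => j ≤ i) (Ring.inverse (yL P T) * T) := by
  intro i j hn
  have hij : i < j := not_le.mp hn
  have h1 := Qlt_yinv_T hP h j
  calc P i * (Ring.inverse (yL P T) * T) * P j
      = (P i * Qlt P j) * (Ring.inverse (yL P T) * T) * (Qge P j * P j) := by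
        rw [hP.P_Qlt, if_neg (not_le.mpr hij), hP.Qge_P, if_pos le_rfl]
    _ = P i * (Qlt P j * (Ring.inverse (yL P T) * T) * Qge P j) * P j := by noncomm_ring
    _ = 0 := by rw [h1, mul_zero, zero_mul]

lemma inverse_star {T : R} (h : IsUnit T) : Ring.inverse (star T) = star (Ring.inverse T) := by
  obtain ⟨u, rfl⟩ := h
  rw [Ring.inverse_unit]
  have : star (u : R) = ((star u : Rˣ) : R) := rfl
  rw [this, Ring.inverse_unit]
  rfl

/-- `T x⁻¹` is lower block triangular -/
lemma supp_T_xinv (hP : IsGrading P) (hs : ∀ i, star (P i) = P i) {T : R} (h : Reg P T) :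
    Supp P (fun i j => i ≤ j) (T * Ring.inverse (xU P T)) := by
  have h1 := (supp_yinv_T hP (h.star hs)).star hs
  have hu := yL_isUnit hP (h.star hs)
  rw [star_mul, star_star, ← inverse_star hu] at h1
  exact h1

lemma dD_diag (hP : IsGrading P) (hs : ∀ i, star (P i) = P i) {T : R} (h : Reg P T) :
    Diag P (dD P T) := by
  have hx := xU_unip hP hs h
  have hy := yL_unip hP h
  have hxi := hx.unipInv_unip hP gt_trans' (fun i => lt_irrefl i)
  have hyi := hy.unipInv_unip hP lt_trans' (fun i => lt_irrefl i)
  rw [← hx.inverse_eq hP gt_trans' (fun i => lt_irrefl i)] at hxi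
  rw [← hy.inverse_eq hP lt_trans' (fun i => lt_irrefl i)] at hyi
  have h1 : Supp P (fun i j => j ≤ i) (dD P T) :=
    (supp_yinv_T hP h).mul hP ge_trans' (supp_le_of_unip hP hxi)
  have h2 : Supp P (fun i j => i ≤ j) (dD P T) := by
    rw [dD, mul_assoc]
    exact (supp_ge_of_unip hP hyi).mul hP le_trans' (supp_T_xinv hP hs h)
  apply hP.diag_of
  intro i j hij
  rcases lt_or_gt_of_ne hij with h3 | h3
  · exact h1 i j (not_le.mpr h3)
  · exact h2 i j (not_le.mpr h3)

lemma LU_eq (hP : IsGrading P) (hs : ∀ i, star (P i) = P i) {T : R} (h : Reg P T) :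
    T = yL P T * dD P T * xU P T := by
  have h1 := yL_isUnit hP h
  have h2 := xU_isUnit hP hs h
  calc T = (yL P T * Ring.inverse (yL P T)) * T * (Ring.inverse (xU P T) * xU P T) := by
        rw [Ring.mul_inverse_cancel _ h1, Ring.inverse_mul_cancel _ h2, one_mul, mul_one]
    _ = _ := by rw [dD]; noncomm_ring

/-- uniqueness of all three factors -/
lemma LU_unique (hP : IsGrading P) (hs : ∀ i, star (P i) = P i) {y x : R} {d : Rˣ}
    (hy : Unip P (fun i j => i < j) y) (hd : Diag P (d : R))
    (hx : Unip P (fun i j => j < i) x) :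
    Reg P (y * d * x) ∧ yL P (y * d * x) = y ∧ dD P (y * d * x) = d ∧ xU P (y * d * x) = x := by
  obtain ⟨h1, h2⟩ := yL_eq hP hy hd hx
  have hds : Diag P ((star d : Rˣ) : R) := hd.star hs
  have h3 : xU P (y * d * x) = x := by
    have := (yL_eq hP (d := star d) (hx.star hs) hds (hy.star hs)).2
    rw [xU, star_mul, star_mul, ← mul_assoc]
    have e : star (d : R) = ((star d : Rˣ) : R) := rfl
    rw [e, this, star_star]
  refine ⟨h1, h2, ?_, h3⟩
  have hyu := hy.isUnit hP lt_trans' (fun i => lt_irrefl i)
  have hxu := hx.isUnit hP gt_trans' (fun i => lt_irrefl i)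
  rw [dD, h2, h3]
  calc Ring.inverse y * (y * d * x) * Ring.inverse x
      = (Ring.inverse y * y) * d * (x * Ring.inverse x) := by noncomm_ring
    _ = d := by rw [Ring.inverse_mul_cancel _ hyu, Ring.mul_inverse_cancel _ hxu, one_mul, mul_one]

end Star

end Pool.Agent.Lib.MP_d9b062_al
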