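import Pool.Agent.Lib.MP_d9b062_al.Interface
import Pool.Agent.Lib.MP_d9b062_al.LU

/-!
# Subgroups, Cartan vectors and loxodromic elements attached to a `Cell`
-/

namespace Pool.Agent.Lib.MP_d9b062_al

namespace Cell

variable {N : ℕ} {G : Subgroup (Op N)ˣ} {ι : Type} [Fintype ι] [LinearOrder ι] (c : Cell G ι)

/-- the block diagonal subgroup `L` (centralizer of `A`) -/
def L : Subgroup (Op N)ˣ where
  carrier := {g | g ∈ G ∧ Diag c.P (g : Op N)}
  mul_mem' := fun {a b} ha hb => ⟨G.mul_mem ha.1 hb.1, ha.2.mul hb.2⟩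
  one_mem' := ⟨G.one_mem, Diag.one⟩
  inv_mem' := fun {a} ha => ⟨G.inv_mem ha.1, ha.2.inv⟩

/-- the lower unipotent subgroup `N⁻` -/
def Nm : Subgroup (Op N)ˣ where
  carrier := {g | g ∈ G ∧ Unip c.P c.r (g : Op N)}
  mul_mem' := fun {a b} ha hb => ⟨G.mul_mem ha.1 hb.1,
    ha.2.mul c.grading c.r_trans (fun i h => lt_irrefl _ (c.r_lt i i h)) hb.2⟩
  one_mem' := ⟨G.one_mem, Unip.one c.grading⟩
  inv_mem' := fun {a} ha => ⟨G.inv_mem ha.1,
    Unip.units_inv c.grading c.r_trans (fun i h => lt_irrefl _ (c.r_lt i i h)) ha.2⟩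

/-- the upper unipotent subgroup `N⁺` -/
def Np : Subgroup (Op N)ˣ where
  carrier := {g | g ∈ G ∧ Unip c.P (fun i j => c.r j i) (g : Op N)}
  mul_mem' := fun {a b} ha hb => ⟨G.mul_mem ha.1 hb.1,
    ha.2.mul c.grading (fun i j k h h' => c.r_trans k j i h' h)
      (fun i h => lt_irrefl _ (c.r_lt i i h)) hb.2⟩
  one_mem' := ⟨G.one_mem, Unip.one c.grading⟩
  inv_mem' := fun {a} ha => ⟨G.inv_mem ha.1,
    Unip.units_inv c.grading (fun i j k h h' => c.r_trans k j i h' h)
      (fun i h => lt_irrefl _ (c.r_lt i i h)) ha.2⟩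

open Classical in
/-- the logarithms of the conformal factors of a block diagonal operator -/
noncomputable def tau (l : Op N) (i : ι) : ℝ := if c.P i = 0 then 0 else Real.log ‖l * c.P i‖

open Classical in
/-- contraction factor of `y ↦ l y l⁻¹` on `N⁻` -/
noncomputable def kap (l : Op N) : ℝ :=
  ∑ i, ∑ j, if c.r i j then Real.exp (c.tau l i - c.tau l j) else 0

/-- dominant elements -/
def Dom (l : Op N) : Prop := ∀ i j, c.r i j → c.tau l i < c.tau l j

/-- `V`-regular elements -/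
def VReg (l : Op N) : Prop := ∀ i, i ≠ c.o → c.tau l i ≠ 0

/-- the vectors fixed by `L` -/
def EL : Submodule ℝ (V N) where
  carrier := {v | ∀ l ∈ c.L, (l : Op N) v = v}
  add_mem' := fun {v w} hv hw l hl => by rw [map_add, hv l hl, hw l hl]
  zero_mem' := fun l _ => map_zero _
  smul_mem' := fun a v hv l hl => by rw [map_smul, hv l hl]

/-- the orthogonal projection on the vectors fixed by `L` -/
noncomputable def PL : Op N := c.EL.starProjection

/-- the element `g` is loxodromic with frame `f` and diagonal part `l` -/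
structure LinLox (g f l : (Op N)ˣ) : Prop where
  f_mem : f ∈ G
  l_mem : l ∈ c.L
  dom : c.Dom (l : Op N)
  eq : g = f * l * f⁻¹

/-- the affine map `γ` is `V`-regular loxodromic with normal form `(l, t)` in the frame `F` -/
structure ALox (γ F : Aff (V N)) (l : (Op N)ˣ) (t : V N) : Prop where
  F_mem : F.lin ∈ G
  l_mem : l ∈ c.L
  dom : c.Dom (l : Op N)
  vreg : c.VReg (l : Op N)
  P_t : c.P c.o t = t
  l_t : (l : Op N) t = t
  eq : γ = F * ⟨l, t⟩ * F⁻¹

/-- the translation invariant of an affine map with respect to a frame of its linear part -/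
noncomputable def T (f : (Op N)ˣ) (γ : Aff (V N)) : V N :=
  c.PL (((f⁻¹ : (Op N)ˣ) : Op N) γ.tr)

/-- Zariski dense groups of affine maps in which no `V`-regular loxodromic element has a fixed
point. -/
structure Good (Γ : Subgroup (Aff (V N))) : Prop where
  lin_mem : ∀ γ ∈ Γ, γ.lin ∈ G
  dense : ZDense {g | ∃ γ ∈ Γ, γ.lin = g} (G : Set (Op N)ˣ)
  nofix : ∀ γ ∈ Γ, ∀ F l t, c.ALox γ F l t → t ≠ 0

end Cell

end Pool.Agent.Lib.MP_d9b062_al
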