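import Pool.Agent.Lib.MP_d9b062_al.AlgDefs

/-!
# The centralizer of `𝔤` in its algebraic hull
-/

namespace Pool.Agent.Lib.MP_d9b062_al.Stmt

open NormedSpace Matrix

attribute [local instance 100] LieRing.ofAssociativeRing

variable {N : ℕ} {𝔤 : LieSubalgebra ℝ (Matrix (Fin N) (Fin N) ℝ)}

/-- complexification of matrices -/
noncomputable def cpx (N : ℕ) : Matrix (Fin N) (Fin N) ℝ →+* Matrix (Fin N) (Fin N) ℂ :=
  Complex.ofRealHom.mapMatrix

lemma cpx_apply (T : Matrix (Fin N) (Fin N) ℝ) : cpx N T = T.map Complex.ofReal := rfl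

lemma cpx_smul (a : ℝ) (T : Matrix (Fin N) (Fin N) ℝ) : cpx N (a • T) = (a : ℂ) • cpx N T := by
  ext i j
  simp [cpx_apply]

lemma cpx_continuous : Continuous (cpx N) :=
  Continuous.matrix_map continuous_id Complex.continuous_ofReal

lemma cpx_exp (T : Matrix (Fin N) (Fin N) ℝ) : cpx N (exp T) = exp (cpx N T) := by
  let _ : NormedRing (Matrix (Fin N) (Fin N) ℝ) := Matrix.linftyOpNormedRing
  let _ : NormedAlgebra ℝ (Matrix (Fin N) (Fin N) ℝ) := Matrix.linftyOpNormedAlgebra
  let _ : NormedAlgebra ℚ (Matrix (Fin N) (Fin N) ℝ) := .restrictScalars ℚ ℝ _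
  let _ : NormedRing (Matrix (Fin N) (Fin N) ℂ) := Matrix.linftyOpNormedRing
  let _ : NormedAlgebra ℂ (Matrix (Fin N) (Fin N) ℂ) := Matrix.linftyOpNormedAlgebra
  let _ : NormedAlgebra ℚ (Matrix (Fin N) (Fin N) ℂ) := .restrictScalars ℚ ℂ _
  exact map_exp (cpx N) cpx_continuous T

lemma exp_mul_of_eigen {Y P : Matrix (Fin N) (Fin N) ℂ} {μ : ℂ} (h : Y * P = μ • P) :
    exp Y * P = Complex.exp μ • P := by
  let _ : NormedRing (Matrix (Fin N) (Fin N) ℂ) := Matrix.linftyOpNormedRing
  let _ : NormedAlgebra ℂ (Matrix (Fin N) (Fin N) ℂ) := Matrix.linftyOpNormedAlgebra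
  let _ : NormedAlgebra ℚ (Matrix (Fin N) (Fin N) ℂ) := .restrictScalars ℚ ℂ _
  have hp : ∀ n : ℕ, Y ^ n * P = μ ^ n • P := by
    intro n
    induction n with
    | zero => simp
    | succ n ih => rw [pow_succ, mul_assoc, h, mul_smul_comm, ih, smul_smul, pow_succ, mul_comm]
  have h1 : HasSum (fun n : ℕ => ((n.factorial : ℚ)⁻¹ • Y ^ n) * P) (exp Y * P) :=
    (NormedSpace.exp_series_hasSum_exp' (𝕂 := ℚ) Y).mul_right P
  have h2 : HasSum (fun n : ℕ => ((n.factorial : ℂ)⁻¹ • μ ^ n) • P) (Complex.exp μ • P) := by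
    rw [Complex.exp_eq_exp_ℂ]
    exact (NormedSpace.exp_series_hasSum_exp' (𝕂 := ℂ) μ).smul_const P
  have h3 : (fun n : ℕ => ((n.factorial : ℚ)⁻¹ • Y ^ n) * P) =
      fun n : ℕ => ((n.factorial : ℂ)⁻¹ • μ ^ n) • P := by
    funext n
    rw [smul_mul_assoc, hp, smul_eq_mul, mul_smul, ← Rat.cast_smul_eq_qsmul ℂ]
    push_cast
    rfl
  rw [h3] at h1
  exact h1.unique h2

lemma infinite_exp {μ : ℂ} (hμ : μ ≠ 0) :
    (Set.range fun t : ℝ => Complex.exp ((t : ℂ) * μ)).Infinite := by
  have hinj : Set.InjOn (fun t : ℝ => Complex.exp ((t : ℂ) * μ)) (Set.Ioo 0 (1 / ‖μ‖)) := by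
    intro s hs t ht hst
    obtain ⟨n, hn⟩ := Complex.exp_eq_exp_iff_exists_int.mp hst
    have h1 : ((s - t : ℝ) : ℂ) * μ = n * (2 * Real.pi * Complex.I) := by
      push_cast
      linear_combination hn
    have h2 := congrArg norm h1
    rw [norm_mul, norm_mul, Complex.norm_real, Complex.norm_intCast] at h2
    have h3 : ‖(2 * Real.pi * Complex.I : ℂ)‖ = 2 * Real.pi := by
      simp [abs_of_pos Real.pi_pos]
    rw [h3] at h2
    have hμ' : 0 < ‖μ‖ := norm_pos_iff.mpr hμ
    have h4 : ‖s - t‖ * ‖μ‖ < 1 := by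
      have : ‖s - t‖ < 1 / ‖μ‖ := by
        rw [Real.norm_eq_abs, abs_lt]
        constructor <;> linarith [hs.1, hs.2, ht.1, ht.2]
      rwa [lt_div_iff₀ hμ'] at this
    have h5 : n = 0 := by
      by_contra hne
      have h6 : (1 : ℝ) ≤ |(n : ℝ)| := by exact_mod_cast Int.one_le_abs hne
      have h7 := Real.pi_gt_three
      nlinarith
    rw [h5] at h1
    simp only [Int.cast_zero, zero_mul, mul_eq_zero, hμ, or_false] at h1
    have h8 : s - t = 0 := by exact_mod_cast h1
    linarith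
  have hinf : (Set.Ioo (0 : ℝ) (1 / ‖μ‖)).Infinite :=
    Set.Ioo_infinite (one_div_pos.mpr (norm_pos_iff.mpr hμ))
  exact (hinf.image hinj).mono (Set.image_subset_range _ _)

lemma block_contra {P : Matrix (Fin N) (Fin N) ℂ} (hP : P * P = P) (hP0 : P ≠ 0) {μ : ℂ}
    (hμ : μ ≠ 0) (h : ∀ t : ℝ, (Complex.exp ((t : ℂ) * μ) • P + (1 - P)).det = 1) : False := by
  let q : Polynomial ℂ := Matrix.det ((Polynomial.X : Polynomial ℂ) • P.map Polynomial.C +
    (1 - P).map Polynomial.C)
  have hq : ∀ c : ℂ, q.eval c = (c • P + (1 - P)).det := by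
    intro c
    have h1 := RingHom.map_det (Polynomial.evalRingHom c)
      ((Polynomial.X : Polynomial ℂ) • P.map Polynomial.C + (1 - P).map Polynomial.C)
    rw [Polynomial.coe_evalRingHom] at h1
    change Polynomial.eval c (Matrix.det _) = _
    rw [h1]
    congr 1
    ext i j
    simp only [RingHom.mapMatrix_apply, Matrix.map_apply, Matrix.add_apply, Matrix.smul_apply,
      smul_eq_mul, Polynomial.coe_evalRingHom, Polynomial.eval_add, Polynomial.eval_mul,
      Polynomial.eval_X, Polynomial.eval_C]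
  have hq1 : q = Polynomial.C 1 := by
    refine Polynomial.eq_of_infinite_eval_eq q _ ((infinite_exp hμ).mono ?_)
    rintro _ ⟨t, rfl⟩
    change q.eval _ = Polynomial.eval _ _
    rw [hq, Polynomial.eval_C]
    exact h t
  have h0 := hq 0
  rw [hq1, Polynomial.eval_C, zero_smul, zero_add] at h0
  apply hP0
  have hu : IsUnit (1 - P) := by
    rw [Matrix.isUnit_iff_isUnit_det, ← h0]
    exact isUnit_one
  have h1 : (1 - P) * P = (1 - P) * 0 := by
    rw [sub_mul, one_mul, hP, sub_self, mul_zero]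
  exact hu.mul_left_cancel h1

theorem central_eq_zero (hN : 0 < N)
    (hdet : ∀ P : Matrix (Fin N) (Fin N) ℂ, P * P = P →
      (∀ X ∈ 𝔤, X.map Complex.ofReal * P = P * X.map Complex.ofReal) →
      ∀ T : Matrix (Fin N) (Fin N) ℝ, InZcl 𝔤 T → (T.map Complex.ofReal * P + (1 - P)).det = 1)
    (hschur : ∀ T : Matrix (Fin N) (Fin N) ℝ, (∀ X ∈ 𝔤, T * X = X * T) → T = 0 ∨ IsUnit T)
    {z : Matrix (Fin N) (Fin N) ℝ} (hz : ∀ t : ℝ, InZcl 𝔤 (exp (t • z)))
    (hc : ∀ X ∈ 𝔤, z * X = X * z) : z = 0 := by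
  by_contra hz0
  have : Nonempty (Fin N) := ⟨⟨0, hN⟩⟩
  obtain ⟨μ, hμ⟩ := IsAlgClosed.exists_root (cpx N z).charpoly (by
    rw [Matrix.charpoly_degree_eq_dim]
    simp [hN.ne'])
  rw [Polynomial.IsRoot.def, Matrix.eval_charpoly] at hμ
  obtain ⟨a, b, rfl⟩ : ∃ a b : ℝ, μ = ⟨a, b⟩ := ⟨μ.re, μ.im, rfl⟩
  have hab : (⟨a, b⟩ : ℂ) = (a : ℂ) + (b : ℂ) * Complex.I := by
    apply Complex.ext <;> simp
  rw [hab] at hμ
  -- the real quadratic polynomial in `z`
  have hT : (z - a • 1) * (z - a • 1) + (b * b) • 1 = 0 := by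
    refine (hschur _ fun X hX => ?_).resolve_right fun hu => ?_
    · have h1 := hc X hX
      simp only [sub_mul, mul_sub, add_mul, mul_add, smul_mul_assoc, mul_smul_comm, one_mul,
        mul_one]
      rw [mul_assoc z z X, h1, ← mul_assoc, h1, mul_assoc]
    · have h1 : cpx N ((z - a • 1) * (z - a • 1) + (b * b) • 1) =
          (Matrix.scalar (Fin N) ((a : ℂ) + (b : ℂ) * Complex.I) - cpx N z) *
            (Matrix.scalar (Fin N) ((a : ℂ) - (b : ℂ) * Complex.I) - cpx N z) := by
        rw [map_add, map_mul, map_sub, cpx_smul, cpx_smul, map_one]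
        have e1 : ∀ c : ℂ, Matrix.scalar (Fin N) c = c • (1 : Matrix (Fin N) (Fin N) ℂ) := by
          intro c
          ext i j
          simp [Matrix.one_apply, Matrix.diagonal_apply]
        rw [e1, e1]
        simp only [sub_mul, mul_sub, smul_mul_assoc, mul_smul_comm, one_mul, mul_one]
        have e2 : ((b * b : ℝ) : ℂ) = -((b : ℂ) * Complex.I) * ((b : ℂ) * Complex.I) := by
          push_cast
          linear_combination ((b : ℂ) * b) * Complex.I_mul_I
        rw [e2]
        module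
      have h2 : IsUnit (cpx N ((z - a • 1) * (z - a • 1) + (b * b) • 1)) := hu.map (cpx N)
      rw [Matrix.isUnit_iff_isUnit_det, h1, Matrix.det_mul, hμ, zero_mul] at h2
      exact not_isUnit_zero h2
  by_cases hb : b = 0
  · -- `z` is a scalar
    subst hb
    have h1 : z - a • 1 = 0 := by
      refine (hschur _ fun X hX => ?_).resolve_right fun hu => ?_
      · rw [sub_mul, mul_sub, hc X hX, smul_mul_assoc, mul_smul_comm, one_mul, mul_one]
      · have h2 := hu.mul hu
        rw [mul_zero, zero_smul, add_zero] at hT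
        rw [hT] at h2
        exact not_isUnit_zero h2
    have hza : z = a • 1 := sub_eq_zero.mp h1
    have ha : a ≠ 0 := by
      rintro rfl
      apply hz0
      rw [hza, zero_smul]
    refine block_contra (P := (1 : Matrix (Fin N) (Fin N) ℂ)) (one_mul 1) one_ne_zero
      (μ := (a : ℂ)) (by exact_mod_cast ha) fun t => ?_
    have h3 := hdet 1 (one_mul 1) (fun X _ => by rw [mul_one, one_mul]) _ (hz t)
    rw [← cpx_apply] at h3
    rw [cpx_exp, exp_mul_of_eigen (μ := (t : ℂ) * a)] at h3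
    · exact h3
    · rw [mul_one, cpx_smul, hza, cpx_smul, map_one, smul_smul]
  · -- a complex structure commuting with `𝔤`
    set J : Matrix (Fin N) (Fin N) ℝ := b⁻¹ • (z - a • 1) with hJ
    have hzJ : z = a • 1 + b • J := by
      rw [hJ, smul_smul, mul_inv_cancel₀ hb, one_smul]
      abel
    have hJJ : J * J = -1 := by
      have h1 : (z - a • 1) * (z - a • 1) = -((b * b) • (1 : Matrix (Fin N) (Fin N) ℝ)) :=
        eq_neg_of_add_eq_zero_left hT
      rw [hJ, smul_mul_assoc, mul_smul_comm, h1, smul_smul, smul_neg, smul_smul]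
      have : b⁻¹ * b⁻¹ * (b * b) = 1 := by field_simp
      rw [this, one_smul]
    have hJc : cpx N J * cpx N J = -1 := by
      rw [← map_mul, hJJ, map_neg, map_one]
    set P : Matrix (Fin N) (Fin N) ℂ := (1 / 2 : ℂ) • (1 - Complex.I • cpx N J) with hPdef
    have hP : P * P = P := by
      rw [hPdef]
      simp only [smul_mul_assoc, mul_smul_comm, sub_mul, mul_sub, one_mul, mul_one, hJc, smul_neg,
        smul_smul, smul_sub]
      have e : (1 / 2 * Complex.I * (1 / 2 * Complex.I) : ℂ) = -(1 / 4) := by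
        linear_combination (1 / 4 : ℂ) * Complex.I_mul_I
      rw [e]
      module
    have hJP : cpx N J * P = Complex.I • P := by
      rw [hPdef]
      simp only [mul_smul_comm, mul_sub, mul_one, hJc, smul_neg, smul_smul, smul_sub]
      have e : Complex.I * (1 / 2 * Complex.I) = -(1 / 2) := by
        linear_combination (1 / 2 : ℂ) * Complex.I_mul_I
      rw [e]
      module
    have hP0 : P ≠ 0 := by
      intro h0
      have h1 : (1 : Matrix (Fin N) (Fin N) ℂ) - Complex.I • cpx N J = 0 := by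
        have := congrArg (fun M => (2 : ℂ) • M) h0
        rw [hPdef] at this
        simpa [smul_smul] using this
      have h2 := congrFun (congrFun h1 ⟨0, hN⟩) ⟨0, hN⟩
      have h3 : (1 : ℂ) - Complex.I * (J ⟨0, hN⟩ ⟨0, hN⟩ : ℂ) = 0 := by
        simpa [cpx_apply] using h2
      have h4 := congrArg Complex.re h3
      simp at h4
    have hμ0 : (a : ℂ) + (b : ℂ) * Complex.I ≠ 0 := by
      intro h0
      have := congrArg Complex.im h0
      simp at this
      exact hb this
    have hzP : cpx N z * P = ((a : ℂ) + (b : ℂ) * Complex.I) • P := by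
      rw [hzJ, map_add, cpx_smul, cpx_smul, map_one, add_mul, smul_mul_assoc, smul_mul_assoc,
        one_mul, hJP, add_smul, mul_smul]
    have hJX : ∀ X ∈ 𝔤, J * X = X * J := by
      intro X hX
      rw [hJ, smul_mul_assoc, mul_smul_comm, sub_mul, mul_sub, hc X hX, smul_mul_assoc,
        mul_smul_comm, one_mul, mul_one]
    refine block_contra hP hP0 hμ0 fun t => ?_
    have h3 := hdet P hP (fun X hX => by
      rw [← cpx_apply, hPdef, mul_smul_comm, smul_mul_assoc, mul_sub, sub_mul, mul_smul_comm,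
        smul_mul_assoc, mul_one, one_mul, ← map_mul, ← map_mul, hJX X hX]) _ (hz t)
    rw [← cpx_apply, cpx_exp, exp_mul_of_eigen
      (μ := (t : ℂ) * ((a : ℂ) + (b : ℂ) * Complex.I))] at h3
    · exact h3
    · rw [cpx_smul, smul_mul_assoc, hzP, smul_smul]

end Pool.Agent.Lib.MP_d9b062_al.Stmt
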