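import Pool.Agent.Lib.MP_d9b062_al.Defs2
import Pool.Agent.Lib.MP_d9b062_al_h64.Alg

/-!
# Conjugation invariance
-/

namespace Pool.Agent.Lib.MP_d9b062_al

open NormedSpace

variable {N : ℕ}

/-- conjugation by `g` as a linear map -/
noncomputable def cjL (g : (Op N)ˣ) : Op N →ₗ[ℝ] Op N where
  toFun T := (g : Op N) * T * ((g⁻¹ : (Op N)ˣ) : Op N)
  map_add' S T := by rw [mul_add, add_mul]
  map_smul' a T := by
    rw [RingHom.id_apply]
    ext v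
    simp

lemma cjL_apply (g : (Op N)ˣ) (T : Op N) :
    cjL g T = (g : Op N) * T * ((g⁻¹ : (Op N)ˣ) : Op N) := rfl

lemma cjL_mul (g : (Op N)ˣ) (S T : Op N) : cjL g (S * T) = cjL g S * cjL g T := by
  simp only [cjL_apply]
  calc (g : Op N) * (S * T) * ((g⁻¹ : (Op N)ˣ) : Op N)
      = (g : Op N) * S * 1 * T * ((g⁻¹ : (Op N)ˣ) : Op N) := by noncomm_ring
    _ = (g : Op N) * S * (((g⁻¹ : (Op N)ˣ) : Op N) * g) * T * ((g⁻¹ : (Op N)ˣ) : Op N) := by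
        rw [Units.inv_mul]
    _ = _ := by noncomm_ring

lemma cjL_inv (g : (Op N)ˣ) (T : Op N) : cjL g⁻¹ (cjL g T) = T := by
  simp only [cjL_apply, inv_inv]
  calc ((g⁻¹ : (Op N)ˣ) : Op N) * ((g : Op N) * T * ((g⁻¹ : (Op N)ˣ) : Op N)) * (g : Op N)
      = (((g⁻¹ : (Op N)ˣ) : Op N) * (g : Op N)) * T * (((g⁻¹ : (Op N)ˣ) : Op N) * (g : Op N)) := by
        noncomm_ring
    _ = T := by rw [Units.inv_mul, one_mul, mul_one]

lemma cjL_inv' (g : (Op N)ˣ) (T : Op N) : cjL g (cjL g⁻¹ T) = T := by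
  have := cjL_inv g⁻¹ T
  rwa [inv_inv] at this

lemma cjL_injective (g : (Op N)ˣ) : Function.Injective (cjL g) :=
  Function.LeftInverse.injective (cjL_inv g)

lemma cjL_exp (g : (Op N)ˣ) (T : Op N) : exp (cjL g T) = cjL g (exp T) := by
  let _ : NormedAlgebra ℚ (Op N) := .restrictScalars ℚ ℝ _
  exact exp_units_conj g T

lemma cjL_exp_prod (g : (Op N)ˣ) (l : List (Op N)) :
    ((l.map (cjL g)).map exp).prod = cjL g (l.map exp).prod := by
  induction l with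
  | nil =>
    simp only [List.map_nil, List.prod_nil, cjL_apply, mul_one]
    rw [Units.mul_inv]
  | cons a l ih =>
    simp only [List.map_cons, List.prod_cons] at ih ⊢
    rw [ih, cjL_exp, ← cjL_mul]

/-- the conjugated group -/
def cjG (g : (Op N)ˣ) (G : Subgroup (Op N)ˣ) : Subgroup (Op N)ˣ :=
  G.map (MulAut.conj g).toMonoidHom

lemma mem_cjG {g : (Op N)ˣ} {G : Subgroup (Op N)ˣ} {h : (Op N)ˣ} :
    h ∈ cjG g G ↔ g⁻¹ * h * g ∈ G := by
  constructor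
  · rintro ⟨x, hx, rfl⟩
    have : g⁻¹ * ((MulAut.conj g).toMonoidHom x) * g = x := by
      change g⁻¹ * (g * x * g⁻¹) * g = x
      group
    rw [this]; exact hx
  · intro hh
    refine ⟨g⁻¹ * h * g, hh, ?_⟩
    change g * (g⁻¹ * h * g) * g⁻¹ = h
    group

lemma conj_mem_cjG {g : (Op N)ˣ} {G : Subgroup (Op N)ˣ} {h : (Op N)ˣ} (hh : h ∈ G) :
    g * h * g⁻¹ ∈ cjG g G := by
  rw [mem_cjG]
  have : g⁻¹ * (g * h * g⁻¹) * g = h := by group
  rw [this]; exact hh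

lemma lieAlg_cjG {g : (Op N)ˣ} {G : Subgroup (Op N)ˣ} {Z : Op N} :
    cjL g Z ∈ lieAlg (cjG g G) ↔ Z ∈ lieAlg G := by
  constructor
  · intro h t
    obtain ⟨x, hx, hxe⟩ := h t
    refine ⟨g⁻¹ * x * g, mem_cjG.mp hx, ?_⟩
    have h1 : cjL g (exp (t • Z)) = (x : Op N) := by
      rw [← cjL_exp, map_smul, hxe]
    calc ((g⁻¹ * x * g : (Op N)ˣ) : Op N) = cjL g⁻¹ (x : Op N) := by
          rw [cjL_apply, inv_inv, Units.val_mul, Units.val_mul]
      _ = exp (t • Z) := by rw [← h1, cjL_inv]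
  · intro h t
    obtain ⟨x, hx, hxe⟩ := h t
    refine ⟨g * x * g⁻¹, conj_mem_cjG hx, ?_⟩
    rw [← map_smul, cjL_exp, ← hxe, cjL_apply, Units.val_mul, Units.val_mul]

lemma lieAlg_cjG' {g : (Op N)ˣ} {G : Subgroup (Op N)ˣ} {Z : Op N} :
    Z ∈ lieAlg (cjG g G) ↔ cjL g⁻¹ Z ∈ lieAlg G := by
  have := lieAlg_cjG (g := g) (G := G) (Z := cjL g⁻¹ Z)
  rwa [cjL_inv'] at this

/-- polynomials and conjugation -/
lemma exists_polyVal_conj (g : (Op N)ˣ) (p : MvPolynomial (Fin N × Fin N) ℝ) :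
    ∃ q : MvPolynomial (Fin N × Fin N) ℝ, ∀ T, polyVal p (cjL g T) = polyVal q T := by
  have h : (fun T => (fun S => polyVal p S) (cjL g T)) ∈ PolyFun (Op N) :=
    PolyFun.comp (polyVal_mem p) (IsPolyMap.linear (cjL g))
  exact exists_polyVal h

/-- `G` is closed iff its conjugate is -/
lemma closed_cjG {g : (Op N)ˣ} {G : Subgroup (Op N)ˣ}
    (hG : ∀ g : (Op N)ˣ, (∀ p : MvPolynomial (Fin N × Fin N) ℝ,
      (∀ h ∈ G, polyVal p (h : Op N) = 0) → polyVal p (g : Op N) = 0) → g ∈ G) :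
    ∀ h : (Op N)ˣ, (∀ p : MvPolynomial (Fin N × Fin N) ℝ,
      (∀ x ∈ cjG g G, polyVal p (x : Op N) = 0) → polyVal p (h : Op N) = 0) → h ∈ cjG g G := by
  intro h hh
  rw [mem_cjG]
  apply hG
  intro p hp
  obtain ⟨q, hq⟩ := exists_polyVal_conj g⁻¹ p
  have h1 : polyVal q (h : Op N) = 0 := by
    apply hh
    intro x hx
    rw [← hq]
    have := hp _ (mem_cjG.mp hx)
    rw [Units.val_mul, Units.val_mul] at this
    rw [cjL_apply, inv_inv]
    exact this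
  rw [← hq, cjL_apply, inv_inv] at h1
  rw [Units.val_mul, Units.val_mul]
  exact h1

lemma connected_cjG {g : (Op N)ˣ} {G : Subgroup (Op N)ˣ}
    (hG : ∀ p : MvPolynomial (Fin N × Fin N) ℝ,
      (∀ l : List (Op N), (∀ Z ∈ l, Z ∈ lieAlg G) → polyVal p (l.map exp).prod = 0) →
      ∀ g ∈ G, polyVal p (g : Op N) = 0) :
    ∀ p : MvPolynomial (Fin N × Fin N) ℝ,
      (∀ l : List (Op N), (∀ Z ∈ l, Z ∈ lieAlg (cjG g G)) → polyVal p (l.map exp).prod = 0) →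
      ∀ h ∈ cjG g G, polyVal p (h : Op N) = 0 := by
  intro p hp h hh
  obtain ⟨q, hq⟩ := exists_polyVal_conj g p
  have h1 := hG q (fun l hl => by
    rw [← hq, ← cjL_exp_prod]
    apply hp
    intro Z hZ
    obtain ⟨Y, hY, rfl⟩ := List.mem_map.mp hZ
    exact lieAlg_cjG.mpr (hl Y hY)) _ (mem_cjG.mp hh)
  rw [← hq, Units.val_mul, Units.val_mul] at h1
  have h2 : cjL g (((g⁻¹ : (Op N)ˣ) : Op N) * (h : Op N) * (g : Op N)) = (h : Op N) := by
    have := cjL_inv' g (h : Op N)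
    rw [cjL_apply g⁻¹, inv_inv] at this
    exact this
  rwa [h2] at h1

lemma irreducible_cjG {g : (Op N)ˣ} {G : Subgroup (Op N)ˣ}
    (hG : ∀ W : Submodule ℝ (V N), (∀ g ∈ G, ∀ v ∈ W, (g : Op N) v ∈ W) → W = ⊥ ∨ W = ⊤) :
    ∀ W : Submodule ℝ (V N), (∀ h ∈ cjG g G, ∀ v ∈ W, (h : Op N) v ∈ W) → W = ⊥ ∨ W = ⊤ := by
  intro W hW
  have hgg : ∀ v, ((g⁻¹ : (Op N)ˣ) : Op N) ((g : Op N) v) = v := by
    intro v
    have : (((g⁻¹ : (Op N)ˣ) : Op N) * (g : Op N)) v = v := by rw [Units.inv_mul]; rfl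
    exact this
  have hgg' : ∀ v, (g : Op N) (((g⁻¹ : (Op N)ˣ) : Op N) v) = v := by
    intro v
    have : ((g : Op N) * ((g⁻¹ : (Op N)ˣ) : Op N)) v = v := by rw [Units.mul_inv]; rfl
    exact this
  have h1 := hG (W.comap ((g : Op N) : V N →ₗ[ℝ] V N)) (fun x hx v hv => by
    rw [Submodule.mem_comap] at hv ⊢
    have := hW _ (conj_mem_cjG (g := g) hx) _ hv
    rw [Units.val_mul, Units.val_mul] at this
    change (g : Op N) ((x : Op N) (((g⁻¹ : (Op N)ˣ) : Op N) ((g : Op N) v))) ∈ W at this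
    rw [hgg] at this
    exact this)
  rcases h1 with h1 | h1
  · left
    rw [Submodule.eq_bot_iff] at h1 ⊢
    intro v hv
    have := h1 (((g⁻¹ : (Op N)ˣ) : Op N) v) (by
      rw [Submodule.mem_comap]
      change (g : Op N) (((g⁻¹ : (Op N)ˣ) : Op N) v) ∈ W
      rw [hgg']; exact hv)
    rw [← hgg' v, this, map_zero]
  · right
    rw [Submodule.eq_top_iff'] at h1 ⊢
    intro v
    have := h1 (((g⁻¹ : (Op N)ˣ) : Op N) v)
    rw [Submodule.mem_comap] at this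
    change (g : Op N) (((g⁻¹ : (Op N)ˣ) : Op N) v) ∈ W at this
    rwa [hgg'] at this

/-- the conjugate of a space of operators -/
noncomputable def cjA (g : (Op N)ˣ) (A : Submodule ℝ (Op N)) : Submodule ℝ (Op N) := A.map (cjL g)

lemma mem_cjA {g : (Op N)ˣ} {A : Submodule ℝ (Op N)} {X : Op N} :
    X ∈ cjA g A ↔ cjL g⁻¹ X ∈ A := by
  constructor
  · rintro ⟨Y, hY, rfl⟩
    rw [cjL_inv]; exact hY
  · intro h
    exact ⟨_, h, cjL_inv' g X⟩

lemma cjL_mem_cjA {g : (Op N)ˣ} {A : Submodule ℝ (Op N)} {X : Op N} (h : X ∈ A) :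
    cjL g X ∈ cjA g A := ⟨X, h, rfl⟩

/-- the identification of `A` with its conjugate -/
noncomputable def cjE (g : (Op N)ˣ) (A : Submodule ℝ (Op N)) : A →ₗ[ℝ] cjA g A :=
  (cjL g).restrict (fun _ h => cjL_mem_cjA h)

lemma cjE_apply (g : (Op N)ˣ) (A : Submodule ℝ (Op N)) (X : A) :
    ((cjE g A X : cjA g A) : Op N) = cjL g X := rfl

lemma cjE_surj (g : (Op N)ˣ) (A : Submodule ℝ (Op N)) (X : cjA g A) :
    ∃ Y : A, cjE g A Y = X := by
  obtain ⟨Y, hY, h⟩ := X.2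
  exact ⟨⟨Y, hY⟩, Subtype.ext h⟩

lemma isRoot_cj {g : (Op N)ˣ} {G : Subgroup (Op N)ˣ} {A : Submodule ℝ (Op N)}
    {α : cjA g A →ₗ[ℝ] ℝ} : IsRoot (cjG g G) (cjA g A) α → IsRoot G A (α ∘ₗ cjE g A) := by
  rintro ⟨hne, Z, hZ, hZ0, h⟩
  refine ⟨?_, cjL g⁻¹ Z, lieAlg_cjG'.mp hZ, ?_, ?_⟩
  · intro h0
    apply hne
    ext X
    obtain ⟨Y, rfl⟩ := cjE_surj g A X
    exact LinearMap.congr_fun h0 Y
  · intro h0
    apply hZ0
    rw [← cjL_inv' g Z, h0, map_zero]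
  · intro X
    apply cjL_injective g
    rw [map_sub, cjL_mul, cjL_mul, cjL_inv', map_smul, cjL_inv']
    exact h (cjE g A X)

lemma isRoot_cj' {g : (Op N)ˣ} {G : Subgroup (Op N)ˣ} {A : Submodule ℝ (Op N)}
    {α : A →ₗ[ℝ] ℝ} (hα : IsRoot G A α) {β : cjA g A →ₗ[ℝ] ℝ} (hβ : β ∘ₗ cjE g A = α) :
    IsRoot (cjG g G) (cjA g A) β := by
  obtain ⟨hne, Z, hZ, hZ0, h⟩ := hα
  refine ⟨?_, cjL g Z, lieAlg_cjG.mpr hZ, ?_, ?_⟩
  · rintro rfl
    apply hne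
    rw [← hβ, LinearMap.zero_comp]
  · intro h0
    apply hZ0
    rw [← cjL_inv g Z, h0, map_zero]
  · intro X
    obtain ⟨Y, rfl⟩ := cjE_surj g A X
    have := congrArg (cjL g) (h Y)
    rw [map_sub, cjL_mul, cjL_mul, map_smul] at this
    rw [cjE_apply, this]
    have h2 : β (cjE g A Y) = α Y := by rw [← hβ]; rfl
    rw [h2]

end Pool.Agent.Lib.MP_d9b062_al
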