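import Mathlib

/-!
# Milnor representations: definitions

`V N` is `ℝ^N`, `Op N` the algebra of its linear operators (`N × N` matrices); `star` is the
transpose (adjoint).  A connected semisimple group with an irreducible representation is given by its
image `G ⊆ GL_N(ℝ)`, in an inner product for which it is self-adjoint.
-/

namespace Pool.Agent.Lib.MP_d9b062_al

open NormedSpace

/-- `ℝ^N` with its Euclidean structure. -/
abbrev V (N : ℕ) : Type := EuclideanSpace ℝ (Fin N)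

/-- The algebra of linear operators of `ℝ^N`, i.e. of `N × N` matrices; `star` is the transpose. -/
abbrev Op (N : ℕ) : Type := V N →L[ℝ] V N

/-- The value at the operator `T` of a polynomial in the `N × N` matrix entries. -/
noncomputable def polyVal {N : ℕ} (p : MvPolynomial (Fin N × Fin N) ℝ) (T : Op N) : ℝ :=
  MvPolynomial.eval (fun ij => T (EuclideanSpace.single ij.2 1) ij.1) p

/-- The Lie algebra of a linear group: all `Z` with `exp (t Z)` in the group for every real `t`. -/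
def lieAlg {N : ℕ} (G : Subgroup (Op N)ˣ) : Set (Op N) :=
  {Z | ∀ t : ℝ, ∃ g ∈ G, (g : Op N) = exp (t • Z)}

/-- `G` is (the group of real points of) a connected semisimple linear algebraic group, acting
irreducibly on `ℝ^N`, and self-adjoint for the Euclidean inner product. -/
structure IsConnectedSemisimple {N : ℕ} (G : Subgroup (Op N)ˣ) : Prop where
  /-- `G` is Zariski closed in `GL_N(ℝ)`. -/
  closed : ∀ g : (Op N)ˣ, (∀ p : MvPolynomial (Fin N × Fin N) ℝ,
    (∀ h ∈ G, polyVal p (h : Op N) = 0) → polyVal p (g : Op N) = 0) → g ∈ G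
  /-- `G` is connected: the group generated by its one-parameter subgroups is Zariski dense. -/
  connected : ∀ p : MvPolynomial (Fin N × Fin N) ℝ,
    (∀ l : List (Op N), (∀ Z ∈ l, Z ∈ lieAlg G) → polyVal p (l.map exp).prod = 0) →
    ∀ g ∈ G, polyVal p (g : Op N) = 0
  /-- `G` is stable under transposition. -/
  star_mem : ∀ g ∈ G, star g ∈ G
  /-- `ℝ^N` is an irreducible representation of `G`. -/
  irreducible : 0 < N ∧ ∀ W : Submodule ℝ (V N),
    (∀ g ∈ G, ∀ v ∈ W, (g : Op N) v ∈ W) → W = ⊥ ∨ W = ⊤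
  /-- The (reductive) Lie algebra of `G` has trivial centre, that is, it is semisimple. -/
  semisimple : ∀ Z ∈ lieAlg G, (∀ X ∈ lieAlg G, Z * X = X * Z) → Z = 0

/-- `A` is a Cartan subspace of the Lie algebra of `G`: a maximal commuting space of symmetric
elements of the Lie algebra. -/
structure IsCartan {N : ℕ} (G : Subgroup (Op N)ˣ) (A : Submodule ℝ (Op N)) : Prop where
  mem_lieAlg : ∀ X ∈ A, X ∈ lieAlg G
  symmetric : ∀ X ∈ A, star X = X
  commute : ∀ X ∈ A, ∀ Y ∈ A, X * Y = Y * X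
  maximal : ∀ Y ∈ lieAlg G, star Y = Y → (∀ X ∈ A, X * Y = Y * X) → Y ∈ A

/-- `α` is a restricted root of `(G, A)`. -/
def IsRoot {N : ℕ} (G : Subgroup (Op N)ˣ) (A : Submodule ℝ (Op N)) (α : A →ₗ[ℝ] ℝ) : Prop :=
  α ≠ 0 ∧ ∃ Z ∈ lieAlg G, Z ≠ 0 ∧ ∀ X : A, (X : Op N) * Z - Z * (X : Op N) = α X • Z

/-- `H` is a regular element of `A`; it determines the positive system of the roots `α` with
`0 < α H`. -/
def IsRegular {N : ℕ} (G : Subgroup (Op N)ˣ) (A : Submodule ℝ (Op N)) (H : A) : Prop :=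
  ∀ α : A →ₗ[ℝ] ℝ, IsRoot G A α → α H ≠ 0

/-- The centralizer `L` of `A` in `G`. -/
def centralizer {N : ℕ} (G : Subgroup (Op N)ˣ) (A : Submodule ℝ (Op N)) : Set (Op N)ˣ :=
  {g | g ∈ G ∧ ∀ X ∈ A, (g : Op N) * X = X * (g : Op N)}

/-- `w ∈ G` represents the longest element `w₀` of the restricted Weyl group with respect to the
positive system given by `H`: it normalizes `A` and maps positive roots to negative roots. -/
def IsLongest {N : ℕ} (G : Subgroup (Op N)ˣ) (A : Submodule ℝ (Op N)) (H : A) (w : (Op N)ˣ) :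
    Prop :=
  w ∈ G ∧ ∃ hw : ∀ X ∈ A, ((w⁻¹ : (Op N)ˣ) : Op N) * X * (w : Op N) ∈ A,
    ∀ α : A →ₗ[ℝ] ℝ, IsRoot G A α → 0 < α H →
      α ⟨((w⁻¹ : (Op N)ˣ) : Op N) * (H : Op N) * (w : Op N), hw _ H.2⟩ < 0

/-- Condition (S): some vector fixed by `L` is not fixed by the representative `w` of `w₀`. -/
def CondS {N : ℕ} (G : Subgroup (Op N)ˣ) (A : Submodule ℝ (Op N)) (w : (Op N)ˣ) : Prop :=
  ∃ v : V N, (∀ l ∈ centralizer G A, (l : Op N) v = v) ∧ (w : Op N) v ≠ v

/-- The affine maps `v ↦ g v + u` of a normed space, as pairs `(g, u)`. -/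
@[ext]
structure Aff (E : Type*) [NormedAddCommGroup E] [NormedSpace ℝ E] where
  /-- the linear part -/
  lin : (E →L[ℝ] E)ˣ
  /-- the translation part -/
  tr : E

namespace Aff

variable {E : Type*} [NormedAddCommGroup E] [NormedSpace ℝ E]

noncomputable instance : One (Aff E) := ⟨⟨1, 0⟩⟩
noncomputable instance : Mul (Aff E) :=
  ⟨fun x y => ⟨x.lin * y.lin, x.tr + (x.lin : E →L[ℝ] E) y.tr⟩⟩
noncomputable instance : Inv (Aff E) :=
  ⟨fun x => ⟨x.lin⁻¹, -(((x.lin⁻¹ : (E →L[ℝ] E)ˣ) : E →L[ℝ] E) x.tr)⟩⟩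

@[simp] lemma one_lin : (1 : Aff E).lin = 1 := rfl
@[simp] lemma one_tr : (1 : Aff E).tr = 0 := rfl
@[simp] lemma mul_lin (x y : Aff E) : (x * y).lin = x.lin * y.lin := rfl
@[simp] lemma mul_tr (x y : Aff E) : (x * y).tr = x.tr + (x.lin : E →L[ℝ] E) y.tr := rfl
@[simp] lemma inv_lin (x : Aff E) : (x⁻¹).lin = x.lin⁻¹ := rfl
@[simp] lemma inv_tr (x : Aff E) :
    (x⁻¹).tr = -(((x.lin⁻¹ : (E →L[ℝ] E)ˣ) : E →L[ℝ] E) x.tr) := rfl

noncomputable instance : Group (Aff E) where
  mul_assoc x y z := by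
    ext1
    · simp [mul_assoc]
    · simp [add_assoc]
  one_mul x := by ext1 <;> simp
  mul_one x := by ext1 <;> simp
  inv_mul_cancel x := by
    ext1
    · simp
    · simp

/-- The affine action on the space. -/
noncomputable def act (x : Aff E) (v : E) : E := (x.lin : E →L[ℝ] E) v + x.tr

end Aff

/-- `G` (with its representation on `ℝ^N`) is *Milnor*: no group `Γ` of affine maps with linear
parts in `G` is non-abelian free, has Zariski dense linear part in `G`, and acts properly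
discontinuously on `ℝ^N`. -/
def IsMilnor {N : ℕ} (G : Subgroup (Op N)ˣ) : Prop :=
  ¬ ∃ Γ : Subgroup (Aff (V N)),
    (∃ (κ : Type) (_ : Nontrivial κ), Nonempty (Γ ≃* FreeGroup κ)) ∧
    (∀ γ ∈ Γ, γ.lin ∈ G) ∧
    (∀ p : MvPolynomial (Fin N × Fin N) ℝ,
      (∀ γ ∈ Γ, polyVal p (γ.lin : Op N) = 0) → ∀ g ∈ G, polyVal p (g : Op N) = 0) ∧
    (∀ K : Set (V N), IsCompact K → {γ : Aff (V N) | γ ∈ Γ ∧ (γ.act '' K ∩ K).Nonempty}.Finite)

end Pool.Agent.Lib.MP_d9b062_al
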