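import Pool.Agent.Lib.MP_d9b062_al.Poly

/-!
# The Goldsheid-Margulis theorem
-/

namespace Pool.Agent.Lib.MP_d9b062_al

open Filter Asymptotics
open scoped Topology

section InvForm

variable {r : ℕ}

private lemma continuous_star_op : Continuous
    (fun h : EuclideanSpace ℝ (Fin r) →L[ℝ] EuclideanSpace ℝ (Fin r) => star h) :=
  (ContinuousLinearMap.adjoint (𝕜 := ℝ) (E := EuclideanSpace ℝ (Fin r))
    (F := EuclideanSpace ℝ (Fin r))).continuous

private instance instCS :
    ContinuousStar (EuclideanSpace ℝ (Fin r) →L[ℝ] EuclideanSpace ℝ (Fin r)) :=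
  ⟨continuous_star_op⟩

private lemma conj_smul
    (A B X : EuclideanSpace ℝ (Fin r) →L[ℝ] EuclideanSpace ℝ (Fin r)) (c : ℝ) :
    A * (c • X) * B = c • (A * X * B) := by
  apply ContinuousLinearMap.ext
  intro v
  change A (c • X (B v)) = c • A (X (B v))
  rw [map_smul]

/-- Hilbert-Schmidt square norm. -/
private noncomputable def hs (X : EuclideanSpace ℝ (Fin r) →L[ℝ] EuclideanSpace ℝ (Fin r)) : ℝ :=
  ∑ i, ‖X (EuclideanSpace.single i (1 : ℝ))‖ ^ 2

private lemma hs_continuous : Continuous (hs (r := r)) := by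
  unfold hs
  fun_prop

private lemma hs_pos {X : EuclideanSpace ℝ (Fin r) →L[ℝ] EuclideanSpace ℝ (Fin r)} (h : X ≠ 0) :
    0 < hs X := by
  by_contra hcon
  apply h
  have h0 : hs X = 0 := le_antisymm (not_lt.mp hcon) (Finset.sum_nonneg fun i _ => by positivity)
  have h1 : ∀ i, X (EuclideanSpace.single i (1 : ℝ)) = 0 := by
    intro i
    have := (Finset.sum_eq_zero_iff_of_nonneg (fun i _ => by positivity)).1 h0 i
      (Finset.mem_univ i)
    simpa using this
  apply ContinuousLinearMap.coe_injective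
  refine (EuclideanSpace.basisFun (Fin r) ℝ).toBasis.ext fun i => ?_
  simpa using h1 i

private lemma hs_mid (X Y : EuclideanSpace ℝ (Fin r) →L[ℝ] EuclideanSpace ℝ (Fin r)) :
    hs ((1/2 : ℝ) • X + (1/2 : ℝ) • Y) = (hs X + hs Y) / 2 - hs (X - Y) / 4 := by
  unfold hs
  rw [← Finset.sum_add_distrib, Finset.sum_div, Finset.sum_div, ← Finset.sum_sub_distrib]
  refine Finset.sum_congr rfl fun i _ => ?_
  set x := X (EuclideanSpace.single i (1 : ℝ))
  set y := Y (EuclideanSpace.single i (1 : ℝ))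
  have h1 : ((1/2 : ℝ) • X + (1/2 : ℝ) • Y) (EuclideanSpace.single i (1 : ℝ)) =
    (1/2 : ℝ) • (x + y) := by simp [x, y]
  have h2 : (X - Y) (EuclideanSpace.single i (1 : ℝ)) = x - y := by simp [x, y]
  rw [h1, h2, norm_smul, mul_pow]
  have := parallelogram_law_with_norm ℝ x y
  norm_num
  nlinarith [this]

/-- A compact semigroup of invertible operators preserves a positive definite form. -/
theorem exists_invariant_form (M : Set (EuclideanSpace ℝ (Fin r) →L[ℝ] EuclideanSpace ℝ (Fin r)))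
    (hM : IsCompact M) (h1 : 1 ∈ M) (hmul : ∀ x ∈ M, ∀ y ∈ M, x * y ∈ M)
    (hinv : ∀ x ∈ M, IsUnit x) :
    ∃ X : EuclideanSpace ℝ (Fin r) →L[ℝ] EuclideanSpace ℝ (Fin r),
      (∀ v, v ≠ 0 → 0 < inner ℝ (X v) v) ∧ ∀ h ∈ M, star h * X * h = X := by
  classical
  set K := closure (convexHull ℝ ((fun h => star h * h) '' M)) with hKdef
  have hKc : IsCompact K := by
    have : Bornology.IsBounded (convexHull ℝ ((fun h => star h * h) '' M)) := by
      rw [isBounded_convexHull]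
      exact (hM.image (by fun_prop)).isBounded
    exact this.isCompact_closure
  have hKconv : Convex ℝ K := (convex_convexHull ℝ _).closure
  have hKne : K.Nonempty := by
    refine ⟨star 1 * 1, subset_closure (subset_convexHull ℝ _ ⟨1, h1, rfl⟩)⟩
  -- invariance of `K`
  have hKinv : ∀ h ∈ M, ∀ X ∈ K, star h * X * h ∈ K := by
    intro h hh X hX
    have hcont : Continuous
        (fun X : EuclideanSpace ℝ (Fin r) →L[ℝ] EuclideanSpace ℝ (Fin r) => star h * X * h) := by
      fun_prop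
    have hmaps : Set.MapsTo (fun X => star h * X * h)
        (convexHull ℝ ((fun h => star h * h) '' M)) (convexHull ℝ ((fun h => star h * h) '' M)) := by
      intro Y hY
      have hlin : IsLinearMap ℝ
        (fun X : EuclideanSpace ℝ (Fin r) →L[ℝ] EuclideanSpace ℝ (Fin r) => star h * X * h) :=
        ⟨by intro x y; simp only [mul_add, add_mul],
          by intro c x; rw [conj_smul]⟩
      have : (fun X => star h * X * h) '' (convexHull ℝ ((fun h => star h * h) '' M)) ⊆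
          convexHull ℝ ((fun h => star h * h) '' M) := by
        rw [hlin.image_convexHull]
        apply convexHull_mono
        rintro _ ⟨_, ⟨g, hg, rfl⟩, rfl⟩
        refine ⟨g * h, hmul g hg h hh, ?_⟩
        simp [mul_assoc]
      exact this ⟨Y, hY, rfl⟩
    exact hmaps.closure hcont hX
  -- the invariant norm
  set N : (EuclideanSpace ℝ (Fin r) →L[ℝ] EuclideanSpace ℝ (Fin r)) → ℝ :=
    fun X => sSup ((fun h => hs (star h * X * h)) '' M) with hNdef
  have hFc : Continuous (fun p : (EuclideanSpace ℝ (Fin r) →L[ℝ] EuclideanSpace ℝ (Fin r)) ×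
      (EuclideanSpace ℝ (Fin r) →L[ℝ] EuclideanSpace ℝ (Fin r)) =>
      hs (star p.2 * p.1 * p.2)) := by
    refine hs_continuous.comp ?_
    fun_prop
  have hNc : Continuous N :=
    hM.continuous_sSup (f := fun X h => hs (star h * X * h)) hFc
  have hNle : ∀ X, ∀ h ∈ M, hs (star h * X * h) ≤ N X := by
    intro X h hh
    refine le_csSup ?_ ⟨h, hh, rfl⟩
    exact hM.bddAbove_image (hFc.comp (Continuous.prodMk_right X)).continuousOn
  have hNat : ∀ X, ∃ h ∈ M, N X = hs (star h * X * h) := by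
    intro X
    obtain ⟨h, hh, h2⟩ := hM.exists_sSup_image_eq ⟨1, h1⟩
      (hFc.comp (Continuous.prodMk_right X)).continuousOn
    exact ⟨h, hh, h2⟩
  obtain ⟨X0, hX0K, hX0⟩ := hKc.exists_isMinOn hKne hNc.continuousOn
  refine ⟨X0, ?_, ?_⟩
  · -- positivity
    intro v hv
    obtain ⟨h0, hh0, hmin⟩ := hM.exists_isMinOn ⟨1, h1⟩
      (f := fun h : EuclideanSpace ℝ (Fin r) →L[ℝ] EuclideanSpace ℝ (Fin r) => ‖h v‖ ^ 2)
      (by fun_prop)
    have hpos : 0 < ‖h0 v‖ ^ 2 := by
      have : h0 v ≠ 0 := by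
        intro h
        apply hv
        obtain ⟨u, hu⟩ := hinv h0 hh0
        have : (↑u⁻¹ * (u : EuclideanSpace ℝ (Fin r) →L[ℝ] EuclideanSpace ℝ (Fin r))) v = 0 := by
          rw [mul_apply_eq_comp, hu, h, map_zero]
        simpa using this
      positivity
    have hsub : K ⊆ {X | ‖h0 v‖ ^ 2 ≤ inner ℝ (X v) v} := by
      refine closure_minimal (convexHull_min ?_ ?_) ?_
      · rintro _ ⟨g, hg, rfl⟩
        have : inner ℝ ((star g * g) v) v = ‖g v‖ ^ 2 := by
          rw [mul_apply_eq_comp, ContinuousLinearMap.star_eq_adjoint,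
            ContinuousLinearMap.adjoint_inner_left, real_inner_self_eq_norm_sq]
        simp only [Set.mem_ofPred_eq]
        rw [this]
        exact hmin hg
      · have : IsLinearMap ℝ
            (fun X : EuclideanSpace ℝ (Fin r) →L[ℝ] EuclideanSpace ℝ (Fin r) =>
              inner ℝ (X v) v) :=
          ⟨by intro x y; simp [inner_add_left], by intro c x; simp [inner_smul_left]⟩
        exact convex_halfSpace_ge this _
      · exact isClosed_le continuous_const (by fun_prop)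
    exact lt_of_lt_of_le hpos (hsub hX0K)
  · intro h hh
    by_contra hne
    set Y := star h * X0 * h with hY
    have hYK : Y ∈ K := hKinv h hh X0 hX0K
    have hNY : N Y ≤ N X0 := by
      obtain ⟨g, hg, hgN⟩ := hNat Y
      rw [hgN]
      have : star g * Y * g = star (h * g) * X0 * (h * g) := by
        rw [hY, star_mul]; simp only [mul_assoc]
      rw [this]
      exact hNle X0 _ (hmul h hh g hg)
    have hZK : (1/2 : ℝ) • X0 + (1/2 : ℝ) • Y ∈ K :=
      hKconv hX0K hYK (by norm_num) (by norm_num) (by norm_num)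
    obtain ⟨g, hg, hgN⟩ := hNat ((1/2 : ℝ) • X0 + (1/2 : ℝ) • Y)
    have e1 : star g * ((1/2 : ℝ) • X0 + (1/2 : ℝ) • Y) * g =
        (1/2 : ℝ) • (star g * X0 * g) + (1/2 : ℝ) • (star g * Y * g) := by
      rw [mul_add, add_mul, conj_smul, conj_smul]
    rw [e1, hs_mid] at hgN
    have hne2 : star g * X0 * g - star g * Y * g ≠ 0 := by
      rw [← sub_mul, ← mul_sub]
      intro h0
      have hgu := hinv g hg
      have h3 := (hgu.mul_left_eq_zero).1 h0
      have h4 := (hgu.star.mul_right_eq_zero).1 h3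
      exact hne (sub_eq_zero.1 h4).symm
    have h5 := hs_pos hne2
    have h6 := hNle X0 g hg
    have h7 := hNle Y g hg
    have h8 : N X0 ≤ N ((1/2 : ℝ) • X0 + (1/2 : ℝ) • Y) := hX0 hZK
    linarith

end InvForm

section GM

variable {W : Type*} [NormedAddCommGroup W] [NormedSpace ℝ W] [FiniteDimensional ℝ W]
  {𝒢 : Type*} [Group 𝒢]

/-- rank of an operator -/
private noncomputable def rk (A : W →L[ℝ] W) : ℕ :=
  Module.finrank ℝ (LinearMap.range (A : W →ₗ[ℝ] W))

/-- The closed cone over `ρ(S)`. -/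
private def cone (ρ : 𝒢 →* (W →L[ℝ] W)) (S : Subgroup 𝒢) : Set (W →L[ℝ] W) :=
  closure {A | ∃ c : ℝ, ∃ s ∈ S, A = c • ρ s}

omit [FiniteDimensional ℝ W] in
private lemma cone_mul {ρ : 𝒢 →* (W →L[ℝ] W)} {S : Subgroup 𝒢} {A B : W →L[ℝ] W}
    (hA : A ∈ cone ρ S) (hB : B ∈ cone ρ S) : A * B ∈ cone ρ S := by
  refine map_mem_closure₂ continuous_mul hA hB ?_
  rintro _ ⟨c, s, hs, rfl⟩ _ ⟨d, t, ht, rfl⟩
  refine ⟨c * d, s * t, S.mul_mem hs ht, ?_⟩
  rw [map_mul]
  apply ContinuousLinearMap.ext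
  intro v
  change c • ρ s (d • ρ t v) = (c * d) • ρ s (ρ t v)
  rw [map_smul, mul_smul]

omit [FiniteDimensional ℝ W] in
private lemma cone_smul {ρ : 𝒢 →* (W →L[ℝ] W)} {S : Subgroup 𝒢} {A : W →L[ℝ] W}
    (hA : A ∈ cone ρ S) (c : ℝ) : c • A ∈ cone ρ S := by
  refine map_mem_closure (continuous_const_smul c) hA ?_
  rintro _ ⟨d, s, hs, rfl⟩
  exact ⟨c * d, s, hs, by rw [smul_smul]⟩

omit [FiniteDimensional ℝ W] in
private lemma cone_mem {ρ : 𝒢 →* (W →L[ℝ] W)} {S : Subgroup 𝒢} {s : 𝒢} (hs : s ∈ S) :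
    ρ s ∈ cone ρ S := subset_closure ⟨1, s, hs, by rw [one_smul]⟩

/-- Factorization of an operator of rank `r` through `ℝ^r`. -/
private lemma exists_factor (p : W →L[ℝ] W) :
    ∃ (a : W →L[ℝ] EuclideanSpace ℝ (Fin (rk p))) (b : EuclideanSpace ℝ (Fin (rk p)) →L[ℝ] W),
      Function.Surjective a ∧ Function.Injective b ∧ p = b ∘L a := by
  let e : LinearMap.range (p : W →ₗ[ℝ] W) ≃L[ℝ] EuclideanSpace ℝ (Fin (rk p)) :=
    ContinuousLinearEquiv.ofFinrankEq (by rw [finrank_euclideanSpace_fin]; rfl)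
  let a0 : W →L[ℝ] LinearMap.range (p : W →ₗ[ℝ] W) :=
    LinearMap.toContinuousLinearMap (LinearMap.rangeRestrict (p : W →ₗ[ℝ] W))
  refine ⟨e.toContinuousLinearMap ∘L a0,
    (Submodule.subtypeL (LinearMap.range (p : W →ₗ[ℝ] W))) ∘L e.symm.toContinuousLinearMap,
    ?_, ?_, ?_⟩
  · have h0 : Function.Surjective a0 := LinearMap.surjective_rangeRestrict (p : W →ₗ[ℝ] W)
    exact e.surjective.comp h0
  · exact Subtype.val_injective.comp e.symm.injective
  · apply ContinuousLinearMap.ext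
    intro v
    simp [a0]

/-- Descending step of the Goldsheid-Margulis theorem: the elements of minimal rank. -/
private theorem gm_step (ρ : 𝒢 →* (W →L[ℝ] W)) (S : Subgroup 𝒢)
    (hZ : ∀ F ∈ PolyFun (W →L[ℝ] W), (∀ s ∈ S, F (ρ s) = 0) → ∀ g, F (ρ g) = 0)
    (hirr : ∀ U : Submodule ℝ W, (∀ g, ∀ v ∈ U, ρ g v ∈ U) → U = ⊥ ∨ U = ⊤)
    (π : W →L[ℝ] W) (hπ : π ∈ closure {A | ∃ c : ℝ, ∃ g : 𝒢, A = c • ρ g}) (hπ0 : π ≠ 0)
    (hπr : rk π ≤ 1)
    (r : ℕ) (hr : 2 ≤ r) (a : W →L[ℝ] EuclideanSpace ℝ (Fin r))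
    (b : EuclideanSpace ℝ (Fin r) →L[ℝ] W) (ha : Function.Surjective a)
    (hb : Function.Injective b) (hp : b ∘L a ∈ cone ρ S)
    (hmin : ∀ q ∈ cone ρ S, q ≠ 0 → r ≤ rk q) : False := by
  classical
  set Θ : (W →L[ℝ] W) → (EuclideanSpace ℝ (Fin r) →L[ℝ] EuclideanSpace ℝ (Fin r)) :=
    fun A => a ∘L A ∘L b with hΘ
  have hΘc : Continuous Θ := by
    rw [hΘ]; fun_prop
  set H := closure (Θ '' cone ρ S) with hH
  have hHmul : ∀ x ∈ H, ∀ y ∈ H, x * y ∈ H := by
    intro x hx y hy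
    refine map_mem_closure₂ continuous_mul hx hy ?_
    rintro _ ⟨A, hA, rfl⟩ _ ⟨B, hB, rfl⟩
    exact ⟨A * (b ∘L a) * B, cone_mul (cone_mul hA hp) hB, rfl⟩
  have hHsmul : ∀ x ∈ H, ∀ c : ℝ, c • x ∈ H := by
    intro x hx c
    refine map_mem_closure (continuous_const_smul c) hx ?_
    rintro _ ⟨A, hA, rfl⟩
    refine ⟨c • A, cone_smul hA c, ?_⟩
    apply ContinuousLinearMap.ext
    intro v
    change a (c • A (b v)) = c • a (A (b v))
    rw [map_smul]
  have hHι : ∀ x ∈ H, b ∘L x ∘L a ∈ cone ρ S := by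
    intro x hx
    have hc : Continuous (fun x : EuclideanSpace ℝ (Fin r) →L[ℝ] EuclideanSpace ℝ (Fin r) =>
        b ∘L x ∘L a) := by fun_prop
    have hcl : IsClosed (cone ρ S) := isClosed_closure
    have hsub : H ⊆ (fun x => b ∘L x ∘L a) ⁻¹' cone ρ S := by
      refine closure_minimal ?_ (hcl.preimage hc)
      rintro _ ⟨A, hA, rfl⟩
      exact cone_mul (cone_mul hp hA) hp
    exact hsub hx
  have hHunit : ∀ x ∈ H, x ≠ 0 → IsUnit x := by
    intro x hx hx0
    have h1 : b ∘L x ∘L a ≠ 0 := by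
      intro h0
      apply hx0
      apply ContinuousLinearMap.ext
      intro v
      obtain ⟨w, rfl⟩ := ha v
      apply hb
      have := congrArg (fun T : W →L[ℝ] W => T w) h0
      simpa using this
    have h2 := hmin _ (hHι x hx) h1
    have h3 : rk (b ∘L x ∘L a) ≤ Module.finrank ℝ (LinearMap.range
        (x : EuclideanSpace ℝ (Fin r) →ₗ[ℝ] EuclideanSpace ℝ (Fin r))) := by
      unfold rk
      have : LinearMap.range ((b ∘L x ∘L a : W →L[ℝ] W) : W →ₗ[ℝ] W) ≤
          (LinearMap.range (x : EuclideanSpace ℝ (Fin r) →ₗ[ℝ] EuclideanSpace ℝ (Fin r))).map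
            (b : EuclideanSpace ℝ (Fin r) →ₗ[ℝ] W) := by
        rintro _ ⟨w, rfl⟩
        exact ⟨x (a w), ⟨a w, rfl⟩, rfl⟩
      exact (Submodule.finrank_mono this).trans (Submodule.finrank_map_le _ _)
    have h4 : LinearMap.range (x : EuclideanSpace ℝ (Fin r) →ₗ[ℝ] EuclideanSpace ℝ (Fin r)) =
        ⊤ := by
      apply Submodule.eq_top_of_finrank_eq
      apply le_antisymm (Submodule.finrank_le _)
      rw [finrank_euclideanSpace_fin]
      exact h2.trans h3
    have h5 : Function.Surjective x := LinearMap.range_eq_top.1 h4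
    have h6 : Function.Injective x :=
      (LinearMap.injective_iff_surjective
        (f := (x : EuclideanSpace ℝ (Fin r) →ₗ[ℝ] EuclideanSpace ℝ (Fin r)))).2 h5
    exact ContinuousLinearMap.isUnit_iff_bijective.2 ⟨h6, h5⟩
  have hdet : ∀ x ∈ H, x ≠ 0 → x.det ≠ 0 := by
    intro x hx hx0 h0
    have h1 := hHunit x hx hx0
    have h2 : IsUnit (LinearMap.det
      (x : EuclideanSpace ℝ (Fin r) →ₗ[ℝ] EuclideanSpace ℝ (Fin r))) := by
      apply LinearMap.isUnit_det
      obtain ⟨u, rfl⟩ := h1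
      refine ⟨⟨((u : EuclideanSpace ℝ (Fin r) →L[ℝ] EuclideanSpace ℝ (Fin r)) : _ →ₗ[ℝ] _),
        ((u⁻¹ : (EuclideanSpace ℝ (Fin r) →L[ℝ] EuclideanSpace ℝ (Fin r))ˣ) : _ →ₗ[ℝ] _),
        ?_, ?_⟩, rfl⟩
      · ext v : 1
        have := congrArg (fun T : EuclideanSpace ℝ (Fin r) →L[ℝ] EuclideanSpace ℝ (Fin r) => T v)
          u.mul_inv
        exact this
      · ext v : 1
        have := congrArg (fun T : EuclideanSpace ℝ (Fin r) →L[ℝ] EuclideanSpace ℝ (Fin r) => T v)
          u.inv_mul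
        exact this
    exact h2.ne_zero h0
  have hdetc : Continuous
      (fun x : EuclideanSpace ℝ (Fin r) →L[ℝ] EuclideanSpace ℝ (Fin r) => x.det) :=
    ContinuousLinearMap.continuous_det
  have hdetsmul : ∀ (c : ℝ) (x : EuclideanSpace ℝ (Fin r) →L[ℝ] EuclideanSpace ℝ (Fin r)),
      (c • x).det = c ^ r * x.det := by
    intro c x
    have := LinearMap.det_smul c (x : EuclideanSpace ℝ (Fin r) →ₗ[ℝ] EuclideanSpace ℝ (Fin r))
    rw [finrank_euclideanSpace_fin] at this
    exact this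
  have hdetmul : ∀ (x y : EuclideanSpace ℝ (Fin r) →L[ℝ] EuclideanSpace ℝ (Fin r)),
      (x * y).det = x.det * y.det := fun x y =>
    LinearMap.det_comp (x : EuclideanSpace ℝ (Fin r) →ₗ[ℝ] EuclideanSpace ℝ (Fin r))
      (y : EuclideanSpace ℝ (Fin r) →ₗ[ℝ] EuclideanSpace ℝ (Fin r))
  -- lower bound for the determinant
  obtain ⟨δ, hδ, hδb⟩ : ∃ δ > 0, ∀ x ∈ H, δ * ‖x‖ ^ r ≤ |x.det| := by
    rcases (H ∩ Metric.sphere 0 1).eq_empty_or_nonempty with hem | hne
    · refine ⟨1, one_pos, ?_⟩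
      intro x hx
      have hx0 : x = 0 := by
        by_contra hx0
        have : ‖x‖⁻¹ • x ∈ H ∩ Metric.sphere 0 1 := by
          refine ⟨hHsmul x hx _, ?_⟩
          rw [mem_sphere_zero_iff_norm, norm_smul, norm_inv, norm_norm,
            inv_mul_cancel₀ (norm_ne_zero_iff.2 hx0)]
        rw [hem] at this
        exact this
      rw [hx0, norm_zero, zero_pow (by omega), mul_zero]
      exact abs_nonneg _
    · have hcomp : IsCompact (H ∩ Metric.sphere 0 1) :=
        (isCompact_sphere 0 1).inter_left isClosed_closure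
      obtain ⟨x0, hx0, hx0min⟩ := hcomp.exists_isMinOn hne
        (f := fun x : EuclideanSpace ℝ (Fin r) →L[ℝ] EuclideanSpace ℝ (Fin r) => |x.det|)
        (hdetc.abs.continuousOn)
      refine ⟨|x0.det|, ?_, ?_⟩
      · rw [gt_iff_lt, abs_pos]
        apply hdet x0 hx0.1
        intro h
        have := hx0.2
        rw [mem_sphere_zero_iff_norm, h, norm_zero] at this
        exact zero_ne_one this
      · intro x hx
        by_cases hx0' : x = 0
        · rw [hx0', norm_zero, zero_pow (by omega), mul_zero]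
          exact abs_nonneg _
        · have hxn : 0 < ‖x‖ := norm_pos_iff.2 hx0'
          have h1 : ‖x‖⁻¹ • x ∈ H ∩ Metric.sphere 0 1 := by
            refine ⟨hHsmul x hx _, ?_⟩
            rw [mem_sphere_zero_iff_norm, norm_smul, norm_inv, norm_norm,
              inv_mul_cancel₀ hxn.ne']
          have h2 : |x0.det| ≤ |(‖x‖⁻¹ • x).det| := hx0min h1
          rw [hdetsmul, abs_mul, abs_of_pos (by positivity : (0:ℝ) < ‖x‖⁻¹ ^ r), inv_pow] at h2
          have h3 : (‖x‖ ^ r)⁻¹ * |x.det| * ‖x‖ ^ r = |x.det| := by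
            field_simp
          calc |x0.det| * ‖x‖ ^ r ≤ (‖x‖ ^ r)⁻¹ * |x.det| * ‖x‖ ^ r := by gcongr
            _ = |x.det| := h3
  -- the compact semigroup
  set M : Set (EuclideanSpace ℝ (Fin r) →L[ℝ] EuclideanSpace ℝ (Fin r)) :=
    insert 1 (H ∩ {x | |x.det| = 1}) with hM
  have hdet1 : (1 : EuclideanSpace ℝ (Fin r) →L[ℝ] EuclideanSpace ℝ (Fin r)).det = 1 :=
    LinearMap.det_id
  have hMc : IsCompact M := by
    refine IsCompact.insert ?_ 1
    have hcl : IsClosed (H ∩ {x | |x.det| = 1}) :=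
      isClosed_closure.inter (isClosed_eq hdetc.abs continuous_const)
    refine Metric.isCompact_of_isClosed_isBounded hcl ?_
    rw [isBounded_iff_forall_norm_le]
    refine ⟨max 1 (1 / δ), ?_⟩
    rintro x ⟨hx, hx1⟩
    have hx1' : |x.det| = 1 := hx1
    have h1 := hδb x hx
    rw [hx1'] at h1
    by_contra hcon
    push Not at hcon
    have h2 : 1 < ‖x‖ := (le_max_left _ _).trans_lt hcon
    have h3 : 1 / δ < ‖x‖ := (le_max_right _ _).trans_lt hcon
    have h4 : ‖x‖ ≤ ‖x‖ ^ r := le_self_pow₀ h2.le (by omega)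
    have h5 : 1 < δ * ‖x‖ := by
      rw [div_lt_iff₀ hδ] at h3
      linarith
    have h6 : δ * ‖x‖ ≤ δ * ‖x‖ ^ r := by gcongr
    linarith
  have hMmul : ∀ x ∈ M, ∀ y ∈ M, x * y ∈ M := by
    rintro x (rfl | ⟨hx, hx1⟩) y (rfl | ⟨hy, hy1⟩)
    · rw [one_mul]; exact Or.inl rfl
    · rw [one_mul]; exact Or.inr ⟨hy, hy1⟩
    · rw [mul_one]; exact Or.inr ⟨hx, hx1⟩
    · refine Or.inr ⟨hHmul x hx y hy, ?_⟩
      have hx1' : |x.det| = 1 := hx1
      have hy1' : |y.det| = 1 := hy1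
      change |(x * y).det| = 1
      rw [hdetmul, abs_mul, hx1', hy1', one_mul]
  have hMinv : ∀ x ∈ M, IsUnit x := by
    rintro x (rfl | ⟨hx, hx1⟩)
    · exact isUnit_one
    · apply hHunit x hx
      rintro rfl
      have hx1' : |(0 : EuclideanSpace ℝ (Fin r) →L[ℝ] EuclideanSpace ℝ (Fin r)).det| = 1 := hx1
      have h0 : (0 : EuclideanSpace ℝ (Fin r) →L[ℝ] EuclideanSpace ℝ (Fin r)).det = 0 := by
        have h00 : (0 : ℝ) • (0 : EuclideanSpace ℝ (Fin r) →L[ℝ] EuclideanSpace ℝ (Fin r)) = 0 := by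
          apply ContinuousLinearMap.ext
          intro v
          exact smul_zero (0 : ℝ)
        have := hdetsmul 0 0
        rw [h00, zero_pow (by omega), zero_mul] at this
        exact this
      rw [h0, abs_zero] at hx1'
      exact zero_ne_one hx1'
  obtain ⟨X, hXpos, hXinv⟩ := exists_invariant_form M hMc (Or.inl rfl) hMmul hMinv
  set q : EuclideanSpace ℝ (Fin r) → ℝ := fun v => inner ℝ (X v) v with hq
  -- every element of `H` is a similarity of `q`
  have hsim : ∀ h ∈ H, ∀ x y, q (h x) * q y = q (h y) * q x := by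
    intro h hh x y
    by_cases h0 : h = 0
    · simp [h0, hq]
    have hd := hdet h hh h0
    have hdp : 0 < |h.det| := abs_pos.2 hd
    set c : ℝ := (|h.det|⁻¹) ^ ((r : ℝ)⁻¹) with hc
    have hc0 : 0 < c := Real.rpow_pos_of_pos (inv_pos.2 hdp) _
    have hcr : c ^ r = |h.det|⁻¹ :=
      Real.rpow_inv_natCast_pow (inv_pos.2 hdp).le (by omega)
    have hcM : c • h ∈ M := by
      refine Or.inr ⟨hHsmul h hh c, ?_⟩
      change |(c • h).det| = 1
      rw [hdetsmul, abs_mul, abs_of_pos (pow_pos hc0 r), hcr, inv_mul_cancel₀ hdp.ne']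
    have h1 := hXinv _ hcM
    have h2 : ∀ v, c ^ 2 * q (h v) = q v := by
      intro v
      have : inner ℝ ((star (c • h) * X * (c • h)) v) v = c ^ 2 * q (h v) := by
        rw [mul_apply_eq_comp, mul_apply_eq_comp, ContinuousLinearMap.star_eq_adjoint,
          ContinuousLinearMap.adjoint_inner_left]
        simp only [hq, smul_apply, map_smul, inner_smul_left,
          inner_smul_right, conj_trivial]
        ring
      rw [← this, h1]
    have hc2 : c ^ 2 ≠ 0 := by positivity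
    have h3 := h2 x
    have h4 := h2 y
    rw [← h3, ← h4]
    ring
  -- hence, by Zariski density, so are all `Θ (ρ g)`
  have hpolyq : ∀ x, (fun A : W →L[ℝ] W => q (Θ A x)) ∈ PolyFun (W →L[ℝ] W) := by
    intro x
    let L : (W →L[ℝ] W) →ₗ[ℝ] EuclideanSpace ℝ (Fin r) :=
      { toFun := fun A => a (A (b x))
        map_add' := fun A B => by simp
        map_smul' := fun c A => by simp }
    let B : EuclideanSpace ℝ (Fin r) →ₗ[ℝ] EuclideanSpace ℝ (Fin r) →ₗ[ℝ] ℝ :=
      LinearMap.mk₂ ℝ (fun v w => inner ℝ (X v) w) (by intros; simp [inner_add_left])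
        (by intros; simp [inner_smul_left]) (by intros; simp [inner_add_right])
        (by intros; simp [inner_smul_right])
    have := IsPolyMap.bilin B (IsPolyMap.linear L) (IsPolyMap.linear L)
    exact this.polyFun
  have hsimg : ∀ (g : 𝒢) x y, q (Θ (ρ g) x) * q y = q (Θ (ρ g) y) * q x := by
    intro g x y
    have hP : (fun A : W →L[ℝ] W => q (Θ A x) * q y - q (Θ A y) * q x) ∈ PolyFun (W →L[ℝ] W) :=
      PolyFun.sub (PolyFun.mul (hpolyq x) (PolyFun.const _))
        (PolyFun.mul (hpolyq y) (PolyFun.const _))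
    have := hZ _ hP (fun s hs => by
      rw [sub_eq_zero]
      exact hsim _ (subset_closure ⟨ρ s, cone_mem hs, rfl⟩) x y) g
    exact sub_eq_zero.1 this
  have hsimcl : ∀ A ∈ closure {A | ∃ c : ℝ, ∃ g : 𝒢, A = c • ρ g}, ∀ x y,
      q (Θ A x) * q y = q (Θ A y) * q x := by
    intro A hA x y
    have hcl : IsClosed {A : W →L[ℝ] W | q (Θ A x) * q y = q (Θ A y) * q x} := by
      refine isClosed_eq ?_ ?_
      · exact (PolyFun.continuous (hpolyq x)).mul continuous_const
      · exact (PolyFun.continuous (hpolyq y)).mul continuous_const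
    refine closure_minimal ?_ hcl hA
    rintro _ ⟨c, g, rfl⟩
    have h1 : ∀ v, q (Θ (c • ρ g) v) = c ^ 2 * q (Θ (ρ g) v) := by
      intro v
      have : Θ (c • ρ g) v = c • Θ (ρ g) v := by simp [hΘ]
      rw [this]
      simp only [hq, map_smul, inner_smul_left, inner_smul_right, conj_trivial]
      ring
    change q (Θ (c • ρ g) x) * q y = q (Θ (c • ρ g) y) * q x
    rw [h1, h1, mul_assoc, hsimg g x y, mul_assoc]
  -- so `Θ` kills the rank one limits
  have hq0 : q 0 = 0 := by simp [hq]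
  have hqz : ∀ v, q v = 0 → v = 0 := by
    intro v hv
    by_contra h
    exact (hXpos v h).ne' hv
  have hkill : ∀ A ∈ closure {A | ∃ c : ℝ, ∃ g : 𝒢, A = c • ρ g}, rk A ≤ 1 → Θ A = 0 := by
    intro A hA hAr
    have hninj : ¬ Function.Injective (Θ A) := by
      intro hinj
      have h1 : Module.finrank ℝ (LinearMap.range
          (Θ A : EuclideanSpace ℝ (Fin r) →ₗ[ℝ] EuclideanSpace ℝ (Fin r))) = r := by
        have := LinearMap.finrank_range_of_inj
          (f := (Θ A : EuclideanSpace ℝ (Fin r) →ₗ[ℝ] EuclideanSpace ℝ (Fin r))) hinj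
        rw [this, finrank_euclideanSpace_fin]
      have h2 : LinearMap.range
          (Θ A : EuclideanSpace ℝ (Fin r) →ₗ[ℝ] EuclideanSpace ℝ (Fin r)) ≤
          (LinearMap.range (A : W →ₗ[ℝ] W)).map (a : W →ₗ[ℝ] EuclideanSpace ℝ (Fin r)) := by
        rintro _ ⟨w, rfl⟩
        exact ⟨A (b w), ⟨b w, rfl⟩, rfl⟩
      have h3 := (Submodule.finrank_mono h2).trans (Submodule.finrank_map_le _ _)
      rw [h1] at h3
      have h4 : r ≤ 1 := h3.trans hAr
      omega
    obtain ⟨x, hx, hx0⟩ : ∃ x, Θ A x = 0 ∧ x ≠ 0 := by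
      by_contra hcon
      push Not at hcon
      exact hninj ((injective_iff_map_eq_zero (Θ A)).2 hcon)
    apply ContinuousLinearMap.ext
    intro y
    have h1 := hsimcl A hA x y
    rw [hx, hq0, zero_mul] at h1
    have h2 : q x ≠ 0 := fun h => hx0 (hqz x h)
    have h3 : q (Θ A y) = 0 := by
      rcases mul_eq_zero.1 h1.symm with h | h
      · exact h
      · exact absurd h h2
    exact hqz _ h3
  have hkill2 : ∀ g g' : 𝒢, ∀ v, a (ρ g (π (ρ g' (b v)))) = 0 := by
    intro g g' v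
    have h1 : ρ g * π * ρ g' ∈ closure {A | ∃ c : ℝ, ∃ g : 𝒢, A = c • ρ g} := by
      have hc : Continuous (fun A : W →L[ℝ] W => ρ g * A * ρ g') := by fun_prop
      refine map_mem_closure (f := fun A : W →L[ℝ] W => ρ g * A * ρ g') hc hπ ?_
      rintro _ ⟨c, k, rfl⟩
      refine ⟨c, g * k * g', ?_⟩
      rw [map_mul, map_mul]
      apply ContinuousLinearMap.ext
      intro v
      change ρ g (c • ρ k (ρ g' v)) = c • ρ g (ρ k (ρ g' v))
      rw [map_smul]
    have h2 : rk (ρ g * π * ρ g') ≤ 1 := by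
      refine le_trans ?_ hπr
      have : LinearMap.range ((ρ g * π * ρ g' : W →L[ℝ] W) : W →ₗ[ℝ] W) ≤
          (LinearMap.range (π : W →ₗ[ℝ] W)).map (ρ g : W →ₗ[ℝ] W) := by
        rintro _ ⟨w, rfl⟩
        exact ⟨π (ρ g' w), ⟨ρ g' w, rfl⟩, rfl⟩
      exact (Submodule.finrank_mono this).trans (Submodule.finrank_map_le _ _)
    have h3 := hkill _ h1 h2
    have := congrArg (fun T : EuclideanSpace ℝ (Fin r) →L[ℝ] EuclideanSpace ℝ (Fin r) => T v) h3
    exact this
  -- irreducibility, twice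
  have hspan : ∀ (P : W → Prop), (∀ x y, P x → P y → P (x + y)) → (∀ (c : ℝ) x, P x → P (c • x)) →
      P 0 → (∀ g x, P x → P (ρ g x)) → (∃ x, x ≠ 0 ∧ P x) → ∀ x, P x := by
    intro P hadd hsmul h0 hg hex x
    let U : Submodule ℝ W :=
      { carrier := {x | P x}
        add_mem' := fun {x y} hx hy => hadd x y hx hy
        zero_mem' := h0
        smul_mem' := fun c x hx => hsmul c x hx }
    rcases hirr U (fun g v hv => hg g v hv) with hU | hU
    · obtain ⟨x, hx0, hx⟩ := hex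
      have : x ∈ U := hx
      rw [hU] at this
      exact absurd ((Submodule.mem_bot ℝ).1 this) hx0
    · have : x ∈ U := by rw [hU]; trivial
      exact this
  have hr0 : ∃ v : EuclideanSpace ℝ (Fin r), v ≠ 0 := by
    have : Nontrivial (EuclideanSpace ℝ (Fin r)) := by
      have : Nonempty (Fin r) := ⟨⟨0, by omega⟩⟩
      infer_instance
    exact exists_ne 0
  obtain ⟨v0, hv0⟩ := hr0
  have hbv0 : b v0 ≠ 0 := fun h => hv0 (hb (by rw [h, map_zero]))
  have hk1 : ∀ w : W, ∀ g g' : 𝒢, a (ρ g (π (ρ g' w))) = 0 := by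
    refine hspan (fun w => ∀ g g' : 𝒢, a (ρ g (π (ρ g' w))) = 0) ?_ ?_ ?_ ?_ ⟨b v0, hbv0, ?_⟩
    · intro x y hx hy g g'
      simp [hx g g', hy g g']
    · intro c x hx g g'
      simp [hx g g']
    · intro g g'; simp
    · intro k x hx g g'
      have := hx g (g' * k)
      rw [map_mul] at this
      exact this
    · intro g g'; exact hkill2 g g' v0
  obtain ⟨w0, hw0⟩ : ∃ w, π w ≠ 0 := by
    by_contra hcon
    push Not at hcon
    exact hπ0 (ContinuousLinearMap.ext hcon)
  have hk2 : ∀ w : W, ∀ g : 𝒢, a (ρ g w) = 0 := by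
    refine hspan (fun w => ∀ g : 𝒢, a (ρ g w) = 0) ?_ ?_ ?_ ?_ ⟨π w0, hw0, ?_⟩
    · intro x y hx hy g
      simp [hx g, hy g]
    · intro c x hx g
      simp [hx g]
    · intro g; simp
    · intro k x hx g
      have := hx (g * k)
      rw [map_mul] at this
      exact this
    · intro g
      have := hk1 w0 g 1
      rw [map_one] at this
      exact this
  obtain ⟨w1, hw1⟩ := ha v0
  have := hk2 w1 1
  rw [map_one] at this
  exact hv0 (hw1 ▸ this)

/-- Let `ρ` be an irreducible representation of a group `𝒢` on a finite-dimensional space `W`, and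
`S` a subgroup which is Zariski dense (for polynomials on `End W`).  If some sequence in `ρ(𝒢)`,
suitably normalized, converges to an operator of rank one, then so does some sequence in `ρ(S)`. -/
theorem exists_rank_one_limit {W : Type*} [NormedAddCommGroup W] [NormedSpace ℝ W]
    [FiniteDimensional ℝ W] {𝒢 : Type*} [Group 𝒢] (ρ : 𝒢 →* (W →L[ℝ] W)) (S : Subgroup 𝒢)
    (hZ : ∀ F ∈ PolyFun (W →L[ℝ] W), (∀ s ∈ S, F (ρ s) = 0) → ∀ g, F (ρ g) = 0)
    (hirr : ∀ U : Submodule ℝ W, (∀ g, ∀ v ∈ U, ρ g v ∈ U) → U = ⊥ ∨ U = ⊤)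
    (hprox : ∃ (g : ℕ → 𝒢) (c : ℕ → ℝ) (p : W →L[ℝ] W),
      Tendsto (fun n => c n • ρ (g n)) atTop (𝓝 p) ∧ p ≠ 0 ∧
      Module.finrank ℝ (LinearMap.range (p : W →ₗ[ℝ] W)) ≤ 1) :
    ∃ (s : ℕ → 𝒢) (c : ℕ → ℝ) (p : W →L[ℝ] W), (∀ n, s n ∈ S) ∧
      Tendsto (fun n => c n • ρ (s n)) atTop (𝓝 p) ∧ p ≠ 0 ∧
      Module.finrank ℝ (LinearMap.range (p : W →ₗ[ℝ] W)) ≤ 1 := by
  classical
  obtain ⟨g, c, π, hlim, hπ0, hπr⟩ := hprox
  have hπ : π ∈ closure {A | ∃ c : ℝ, ∃ g : 𝒢, A = c • ρ g} :=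
    mem_closure_of_tendsto hlim (Eventually.of_forall fun n => ⟨c n, g n, rfl⟩)
  have hne : Nontrivial (W →L[ℝ] W) := ⟨⟨π, 0, hπ0⟩⟩
  obtain ⟨p, ⟨hpc, hp0⟩, hmin⟩ := (measure (rk (W := W))).wf.has_min
    {A | A ∈ cone ρ S ∧ A ≠ 0} ⟨1, by
      have := cone_mem (ρ := ρ) S.one_mem
      rwa [map_one] at this, one_ne_zero⟩
  have hmin' : ∀ q ∈ cone ρ S, q ≠ 0 → rk p ≤ rk q := by
    intro q hq hq0
    exact not_lt.1 (hmin q ⟨hq, hq0⟩)
  rcases le_or_gt (rk p) 1 with hr | hr
  · obtain ⟨x, hx, hxl⟩ := mem_closure_iff_seq_limit.1 hpc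
    choose d s hs hxe using hx
    refine ⟨s, d, p, hs, ?_, hp0, hr⟩
    have : x = fun n => d n • ρ (s n) := funext hxe
    rwa [this] at hxl
  · exfalso
    obtain ⟨a, b, ha, hb, hpab⟩ := exists_factor p
    exact gm_step ρ S hZ hirr π hπ hπ0 hπr (rk p) hr a b ha hb (hpab ▸ hpc) hmin'

end GM

end Pool.Agent.Lib.MP_d9b062_al
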