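import Pool.Agent.Lib.MP_d9b062_al.Poly

/-!
# Gradings (orthogonal idempotents) and block LU decomposition in a ring
-/

set_option linter.unusedSectionVars false
set_option linter.unusedVariables false
set_option linter.unusedSimpArgs false

namespace Pool.Agent.Lib.MP_d9b062_al

open Finset

section Ring

variable {R : Type*} [Ring R] {ι : Type*} [Fintype ι]

/-- `P` is a complete family of orthogonal idempotents. -/
structure IsGrading (P : ι → R) : Prop where
  idem : ∀ i, P i * P i = P i
  orth : ∀ i j, i ≠ j → P i * P j = 0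
  sum_eq : ∑ i, P i = 1

/-- block diagonal part `1`, other blocks supported on the relation `s`. -/
def Unip (P : ι → R) (s : ι → ι → Prop) (T : R) : Prop :=
  (∀ i, P i * T * P i = P i) ∧ ∀ i j, i ≠ j → ¬ s i j → P i * T * P j = 0

/-- all blocks supported on the relation `s`. -/
def Supp (P : ι → R) (s : ι → ι → Prop) (T : R) : Prop :=
  ∀ i j, ¬ s i j → P i * T * P j = 0

/-- block diagonal -/
def Diag (P : ι → R) (T : R) : Prop := ∀ i, P i * T = T * P i

variable {P : ι → R} {s : ι → ι → Prop}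

lemma IsGrading.mul_ite [DecidableEq ι] (hP : IsGrading P) (i j : ι) :
    P i * P j = if i = j then P i else 0 := by
  split_ifs with h
  · subst h; exact hP.idem i
  · exact hP.orth i j h

lemma IsGrading.mul_sum (hP : IsGrading P) (T : R) : T = ∑ j, T * P j := by
  rw [← Finset.mul_sum, hP.sum_eq, mul_one]

lemma IsGrading.sum_mul (hP : IsGrading P) (T : R) : T = ∑ j, P j * T := by
  rw [← Finset.sum_mul, hP.sum_eq, one_mul]

lemma IsGrading.block_mul (hP : IsGrading P) (S T : R) (i j : ι) :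
    P i * (S * T) * P j = ∑ k, (P i * S * P k) * (P k * T * P j) := by
  have : ∀ k, (P i * S * P k) * (P k * T * P j) = (P i * S) * P k * (T * P j) := by
    intro k
    rw [show (P i * S * P k) * (P k * T * P j) = (P i * S) * (P k * P k) * (T * P j) by
      noncomm_ring, hP.idem]
  simp only [this]
  rw [← Finset.sum_mul, ← Finset.mul_sum, hP.sum_eq, mul_one]
  noncomm_ring

/-- equality of all blocks -/
lemma IsGrading.ext (hP : IsGrading P) {S T : R} (h : ∀ i j, P i * S * P j = P i * T * P j) :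
    S = T := by
  rw [hP.sum_mul S, hP.sum_mul T]
  refine Finset.sum_congr rfl fun i _ => ?_
  rw [hP.mul_sum (P i * S), hP.mul_sum (P i * T)]
  exact Finset.sum_congr rfl fun j _ => h i j

lemma IsGrading.block_one (hP : IsGrading P) {i j : ι} (h : i ≠ j) : P i * 1 * P j = 0 := by
  rw [mul_one, hP.orth i j h]

lemma Unip.one (hP : IsGrading P) : Unip P s (1 : R) :=
  ⟨fun i => by rw [mul_one, hP.idem], fun i j h _ => hP.block_one h⟩

/-- multiplication of unipotents (for a strict order) -/
lemma Unip.mul (hP : IsGrading P) (hs : ∀ i j k, s i j → s j k → s i k) (hi : ∀ i, ¬ s i i)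
    {S T : R} (hS : Unip P s S) (hT : Unip P s T) : Unip P s (S * T) := by
  classical
  constructor
  · intro i
    rw [hP.block_mul, Finset.sum_eq_single i]
    · rw [hS.1, hT.1, hP.idem]
    · intro k _ hk
      by_cases h1 : s i k
      · have h2 : ¬ s k i := fun h => hi i (hs i k i h1 h)
        rw [hT.2 k i hk h2, mul_zero]
      · rw [hS.2 i k (Ne.symm hk) h1, zero_mul]
    · intro h; exact absurd (Finset.mem_univ i) h
  · intro i j hij hn
    rw [hP.block_mul]
    refine Finset.sum_eq_zero fun k _ => ?_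
    by_cases hik : i = k
    · subst hik
      rw [hT.2 i j hij hn, mul_zero]
    · by_cases h1 : s i k
      · by_cases hkj : k = j
        · subst hkj; exact absurd h1 hn
        · have h2 : ¬ s k j := fun h => hn (hs i k j h1 h)
          rw [hT.2 k j hkj h2, mul_zero]
      · rw [hS.2 i k hik h1, zero_mul]

lemma Supp.mul (hP : IsGrading P) (hs : ∀ i j k, s i j → s j k → s i k)
    {S T : R} (hS : Supp P s S) (hT : Supp P s T) : Supp P s (S * T) := by
  intro i j hn
  rw [hP.block_mul]
  refine Finset.sum_eq_zero fun k _ => ?_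
  by_cases h1 : s i k
  · have h2 : ¬ s k j := fun h => hn (hs i k j h1 h)
    rw [hT k j h2, mul_zero]
  · rw [hS i k h1, zero_mul]

lemma Unip.supp (hP : IsGrading P) (hi : ∀ i, ¬ s i i) {T : R} (hT : Unip P s T) :
    Supp P s (1 - T) := by
  intro i j hn
  rw [mul_sub, sub_mul, mul_one]
  by_cases hij : i = j
  · subst hij; rw [hT.1, hP.idem, sub_self]
  · rw [hT.2 i j hij hn, hP.orth i j hij, sub_self]

lemma Supp.unip (hP : IsGrading P) (hi : ∀ i, ¬ s i i) {T : R} (hT : Supp P s T) :
    Unip P s (1 + T) := by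
  constructor
  · intro i
    rw [mul_add, add_mul, mul_one, hP.idem, hT i i (hi i), add_zero]
  · intro i j hij hn
    rw [mul_add, add_mul, mul_one, hP.orth i j hij, hT i j hn, add_zero]

lemma Supp.pow_zero_of_card (hP : IsGrading P) (hs : ∀ i j k, s i j → s j k → s i k)
    (hi : ∀ i, ¬ s i i) {T : R} (hT : Supp P s T) : T ^ (Fintype.card ι + 1) = 0 := by
  classical
  have key : ∀ (k : ℕ) (i j : ι), (Finset.univ.filter (fun m => s i m)).card < k →
      P i * T ^ k * P j = 0 := by
    intro k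
    induction k with
    | zero => intro i j h; exact absurd h (Nat.not_lt_zero _)
    | succ k ih =>
      intro i j h
      rw [pow_succ', hP.block_mul]
      refine Finset.sum_eq_zero fun l _ => ?_
      by_cases h1 : s i l
      · have hlt : (Finset.univ.filter (fun m => s l m)).card <
            (Finset.univ.filter (fun m => s i m)).card := by
          apply Finset.card_lt_card
          rw [Finset.ssubset_iff_of_subset]
          · exact ⟨l, by simp [h1], by simp [hi l]⟩
          · intro m hm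
            simp only [Finset.mem_filter, Finset.mem_univ, true_and] at hm ⊢
            exact hs i l m h1 hm
        rw [ih l j (by omega), mul_zero]
      · rw [hT i l h1, zero_mul]
  apply hP.ext
  intro i j
  rw [key (Fintype.card ι + 1) i j (Nat.lt_succ_of_le (Finset.card_le_univ _))]
  simp

/-- the inverse of a unipotent as a polynomial in it -/
noncomputable def unipInv (ι : Type*) [Fintype ι] (T : R) : R :=
  ∑ k ∈ Finset.range (Fintype.card ι + 1), (1 - T) ^ k

lemma Unip.mul_unipInv (hP : IsGrading P) (hs : ∀ i j k, s i j → s j k → s i k)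
    (hi : ∀ i, ¬ s i i) {T : R} (hT : Unip P s T) : T * unipInv ι T = 1 := by
  have h0 := (hT.supp hP hi).pow_zero_of_card hP hs hi
  have h := mul_neg_geom_sum (1 - T) (Fintype.card ι + 1)
  rw [h0, sub_zero, sub_sub_cancel] at h
  exact h

lemma Unip.unipInv_mul (hP : IsGrading P) (hs : ∀ i j k, s i j → s j k → s i k)
    (hi : ∀ i, ¬ s i i) {T : R} (hT : Unip P s T) : unipInv ι T * T = 1 := by
  have h0 := (hT.supp hP hi).pow_zero_of_card hP hs hi
  have h := geom_sum_mul_neg (1 - T) (Fintype.card ι + 1)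
  rw [h0, sub_zero, sub_sub_cancel] at h
  exact h

lemma Unip.isUnit (hP : IsGrading P) (hs : ∀ i j k, s i j → s j k → s i k)
    (hi : ∀ i, ¬ s i i) {T : R} (hT : Unip P s T) : IsUnit T :=
  ⟨⟨T, unipInv ι T, hT.mul_unipInv hP hs hi, hT.unipInv_mul hP hs hi⟩, rfl⟩

lemma Unip.inverse_eq (hP : IsGrading P) (hs : ∀ i j k, s i j → s j k → s i k)
    (hi : ∀ i, ¬ s i i) {T : R} (hT : Unip P s T) : Ring.inverse T = unipInv ι T := by
  let u : Rˣ := ⟨T, unipInv ι T, hT.mul_unipInv hP hs hi, hT.unipInv_mul hP hs hi⟩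
  have h : Ring.inverse (u : R) = ((u⁻¹ : Rˣ) : R) := Ring.inverse_unit u
  exact h

lemma Unip.unipInv_unip (hP : IsGrading P) (hs : ∀ i j k, s i j → s j k → s i k)
    (hi : ∀ i, ¬ s i i) {T : R} (hT : Unip P s T) : Unip P s (unipInv ι T) := by
  have h1 : Supp P s (1 - T) := hT.supp hP hi
  have hpow : ∀ k : ℕ, Supp P s ((1 - T) ^ (k + 1)) := by
    intro k
    induction k with
    | zero => simpa using h1
    | succ k ih => rw [pow_succ]; exact ih.mul hP hs h1
  have h2 : unipInv ι T = 1 + ∑ k ∈ Finset.range (Fintype.card ι), (1 - T) ^ (k + 1) := by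
    rw [unipInv, Finset.sum_range_succ', pow_zero, add_comm]
  rw [h2]
  apply Supp.unip hP hi
  intro i j hn
  rw [Finset.mul_sum, Finset.sum_mul]
  exact Finset.sum_eq_zero fun k _ => hpow k i j hn

lemma Unip.units_inv (hP : IsGrading P) (hs : ∀ i j k, s i j → s j k → s i k)
    (hi : ∀ i, ¬ s i i) {T : Rˣ} (hT : Unip P s (T : R)) : Unip P s ((T⁻¹ : Rˣ) : R) := by
  have h : ((T⁻¹ : Rˣ) : R) = unipInv ι (T : R) := by
    rw [← Ring.inverse_unit, hT.inverse_eq hP hs hi]
  rw [h]
  exact hT.unipInv_unip hP hs hi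

/-- conjugation by a block diagonal unit preserves unipotents -/
lemma Unip.conj {T : R} (hT : Unip P s T) {l : Rˣ} (hl : Diag P (l : R)) :
    Unip P s ((l : R) * T * ((l⁻¹ : Rˣ) : R)) := by
  have hl' : ∀ i, P i * ((l⁻¹ : Rˣ) : R) = ((l⁻¹ : Rˣ) : R) * P i := by
    intro i
    have := hl i
    calc P i * ((l⁻¹ : Rˣ) : R) = ((l⁻¹ : Rˣ) : R) * ((l : R) * P i) * ((l⁻¹ : Rˣ) : R) := by
          rw [← mul_assoc, Units.inv_mul, one_mul]
      _ = ((l⁻¹ : Rˣ) : R) * (P i * (l : R)) * ((l⁻¹ : Rˣ) : R) := by rw [this]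
      _ = ((l⁻¹ : Rˣ) : R) * P i := by rw [mul_assoc, mul_assoc, Units.mul_inv, mul_one]
  have key : ∀ i j, P i * ((l : R) * T * ((l⁻¹ : Rˣ) : R)) * P j =
      (l : R) * (P i * T * P j) * ((l⁻¹ : Rˣ) : R) := by
    intro i j
    calc P i * ((l : R) * T * ((l⁻¹ : Rˣ) : R)) * P j
        = (P i * (l : R)) * T * (((l⁻¹ : Rˣ) : R) * P j) := by noncomm_ring
      _ = ((l : R) * P i) * T * (P j * ((l⁻¹ : Rˣ) : R)) := by rw [hl i, hl' j]
      _ = _ := by noncomm_ring
  constructor
  · intro i
    rw [key, hT.1, ← hl i, mul_assoc, Units.mul_inv, mul_one]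
  · intro i j hij hn
    rw [key, hT.2 i j hij hn, mul_zero, zero_mul]

lemma Unip.mono {s' : ι → ι → Prop} (h : ∀ i j, s i j → s' i j) {T : R} (hT : Unip P s T) :
    Unip P s' T :=
  ⟨hT.1, fun i j hij hn => hT.2 i j hij fun h' => hn (h i j h')⟩

lemma Diag.one : Diag P (1 : R) := fun i => by simp
lemma Diag.mul {S T : R} (hS : Diag P S) (hT : Diag P T) : Diag P (S * T) := fun i => by
  rw [← mul_assoc, hS i, mul_assoc, hT i, mul_assoc]
lemma Diag.inv {T : Rˣ} (hT : Diag P (T : R)) : Diag P ((T⁻¹ : Rˣ) : R) := fun i => by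
  calc P i * ((T⁻¹ : Rˣ) : R) = ((T⁻¹ : Rˣ) : R) * ((T : R) * P i) * ((T⁻¹ : Rˣ) : R) := by
        rw [← mul_assoc, Units.inv_mul, one_mul]
    _ = ((T⁻¹ : Rˣ) : R) * (P i * (T : R)) * ((T⁻¹ : Rˣ) : R) := by rw [hT i]
    _ = ((T⁻¹ : Rˣ) : R) * P i := by rw [mul_assoc, mul_assoc, Units.mul_inv, mul_one]

lemma IsGrading.diag (hP : IsGrading P) (k : ι) : Diag P (P k) := by
  classical
  intro i
  rw [hP.mul_ite, hP.mul_ite]
  by_cases h : i = k
  · subst h; rfl
  · rw [if_neg h, if_neg (Ne.symm h)]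

end Ring

/-! ### LU decomposition -/

section LU

variable {R : Type*} [Ring R] {ι : Type*} [Fintype ι] [LinearOrder ι] {P : ι → R}

/-- the projection on the blocks `≥ i` -/
def Qge (P : ι → R) (i : ι) : R := ∑ j ∈ univ.filter (fun j => i ≤ j), P j
/-- the projection on the blocks `< i` -/
def Qlt (P : ι → R) (i : ι) : R := ∑ j ∈ univ.filter (fun j => ¬ i ≤ j), P j

/-- compression to the blocks `≥ i`, extended by the identity -/
def Mi (P : ι → R) (i : ι) (T : R) : R := Qge P i * T * Qge P i + Qlt P i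

/-- all leading compressions are invertible -/
def Reg (P : ι → R) (T : R) : Prop := ∀ i, IsUnit (Mi P i T)

/-- the lower unipotent factor -/
noncomputable def yL (P : ι → R) (T : R) : R :=
  ∑ i, T * Qge P i * Ring.inverse (Mi P i T) * P i

lemma IsGrading.Q_add (hP : IsGrading P) (i : ι) : Qge P i + Qlt P i = 1 := by
  rw [Qge, Qlt, Finset.sum_filter_add_sum_filter_not, hP.sum_eq]

lemma IsGrading.P_Qge (hP : IsGrading P) (i j : ι) :
    P j * Qge P i = if i ≤ j then P j else 0 := by
  rw [Qge, Finset.mul_sum]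
  split_ifs with h
  · rw [Finset.sum_eq_single j]
    · exact hP.idem j
    · intro k _ hk; exact hP.orth j k (Ne.symm hk)
    · intro h'; simp [h] at h'
  · refine Finset.sum_eq_zero fun k hk => ?_
    simp only [Finset.mem_filter, Finset.mem_univ, true_and] at hk
    exact hP.orth j k fun e => h (e ▸ hk)

lemma IsGrading.Qge_P (hP : IsGrading P) (i j : ι) :
    Qge P i * P j = if i ≤ j then P j else 0 := by
  rw [Qge, Finset.sum_mul]
  split_ifs with h
  · rw [Finset.sum_eq_single j]
    · exact hP.idem j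
    · intro k _ hk; exact hP.orth k j hk
    · intro h'; simp [h] at h'
  · refine Finset.sum_eq_zero fun k hk => ?_
    simp only [Finset.mem_filter, Finset.mem_univ, true_and] at hk
    exact hP.orth k j fun e => h (e ▸ hk)

lemma IsGrading.P_Qlt (hP : IsGrading P) (i j : ι) :
    P j * Qlt P i = if i ≤ j then 0 else P j := by
  have h := congrArg (P j * ·) (hP.Q_add i)
  simp only [mul_add, mul_one] at h
  rw [hP.P_Qge] at h
  split_ifs at h ⊢ with h1
  · simpa using h
  · simpa using h

lemma IsGrading.Qlt_P (hP : IsGrading P) (i j : ι) :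
    Qlt P i * P j = if i ≤ j then 0 else P j := by
  have h := congrArg (· * P j) (hP.Q_add i)
  simp only [add_mul, one_mul] at h
  rw [hP.Qge_P] at h
  split_ifs at h ⊢ with h1
  · simpa using h
  · simpa using h

lemma IsGrading.Qge_idem (hP : IsGrading P) (i : ι) : Qge P i * Qge P i = Qge P i := by
  conv_lhs => rw [Qge, Finset.sum_mul]
  rw [Qge]
  refine Finset.sum_congr rfl fun j hj => ?_
  simp only [Finset.mem_filter, Finset.mem_univ, true_and] at hj
  have := hP.P_Qge i j
  rw [if_pos hj] at this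
  exact this

lemma IsGrading.Qge_Qlt (hP : IsGrading P) (i : ι) : Qge P i * Qlt P i = 0 := by
  have : Qlt P i = 1 - Qge P i := by rw [← hP.Q_add i]; abel
  rw [this, mul_sub, mul_one, hP.Qge_idem, sub_self]

lemma IsGrading.Qlt_Qge (hP : IsGrading P) (i : ι) : Qlt P i * Qge P i = 0 := by
  have : Qlt P i = 1 - Qge P i := by rw [← hP.Q_add i]; abel
  rw [this, sub_mul, one_mul, hP.Qge_idem, sub_self]

lemma IsGrading.Qlt_idem (hP : IsGrading P) (i : ι) : Qlt P i * Qlt P i = Qlt P i := by
  have : Qlt P i = 1 - Qge P i := by rw [← hP.Q_add i]; abel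
  rw [this, sub_mul, one_mul, mul_sub, mul_one, hP.Qge_idem, sub_self, sub_zero]

lemma IsGrading.Qge_Mi (hP : IsGrading P) (i : ι) (T : R) :
    Qge P i * Mi P i T = Qge P i * T * Qge P i := by
  rw [Mi, mul_add, hP.Qge_Qlt, add_zero, ← mul_assoc, ← mul_assoc, hP.Qge_idem]

lemma IsGrading.Mi_Qge (hP : IsGrading P) (i : ι) (T : R) :
    Mi P i T * Qge P i = Qge P i * T * Qge P i := by
  rw [Mi, add_mul, hP.Qlt_Qge, add_zero, mul_assoc, hP.Qge_idem]

lemma IsGrading.Qge_comm_inverse (hP : IsGrading P) {i : ι} {T : R} (h : IsUnit (Mi P i T)) :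
    Qge P i * Ring.inverse (Mi P i T) = Ring.inverse (Mi P i T) * Qge P i := by
  obtain ⟨u, hu⟩ := h
  have hc : Qge P i * (u : R) = (u : R) * Qge P i := by
    rw [hu, hP.Qge_Mi, hP.Mi_Qge]
  rw [← hu, Ring.inverse_unit]
  calc Qge P i * ((u⁻¹ : Rˣ) : R)
      = ((u⁻¹ : Rˣ) : R) * ((u : R) * Qge P i) * ((u⁻¹ : Rˣ) : R) := by
        rw [← mul_assoc, Units.inv_mul, one_mul]
    _ = ((u⁻¹ : Rˣ) : R) * (Qge P i * (u : R)) * ((u⁻¹ : Rˣ) : R) := by rw [hc]
    _ = ((u⁻¹ : Rˣ) : R) * Qge P i := by rw [mul_assoc, mul_assoc, Units.mul_inv, mul_one]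

lemma yL_P (hP : IsGrading P) (T : R) (i : ι) :
    yL P T * P i = T * Qge P i * Ring.inverse (Mi P i T) * P i := by
  rw [yL, Finset.sum_mul, Finset.sum_eq_single i]
  · rw [mul_assoc, hP.idem]
  · intro k _ hk; rw [mul_assoc, hP.orth k i hk, mul_zero]
  · intro h; exact absurd (Finset.mem_univ i) h

lemma Qge_yL_P (hP : IsGrading P) {T : R} {i : ι} (h : IsUnit (Mi P i T)) :
    Qge P i * yL P T * P i = P i := by
  rw [mul_assoc, yL_P hP]
  calc Qge P i * (T * Qge P i * Ring.inverse (Mi P i T) * P i)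
      = (Qge P i * T * Qge P i) * Ring.inverse (Mi P i T) * P i := by noncomm_ring
    _ = Qge P i * (Mi P i T * Ring.inverse (Mi P i T)) * P i := by
        rw [← hP.Qge_Mi, ← mul_assoc]
    _ = P i := by
        rw [Ring.mul_inverse_cancel _ h, mul_one, hP.Qge_P, if_pos le_rfl]

/-- the factor `y` is lower unipotent -/
lemma yL_unip (hP : IsGrading P) {T : R} (h : Reg P T) :
    Unip P (fun i j => i < j) (yL P T) := by
  have key : ∀ i j, j ≤ i → P i * yL P T * P j = P i * P j := by
    intro i j hij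
    have h1 := Qge_yL_P hP (h j)
    calc P i * yL P T * P j = (P i * Qge P j) * yL P T * P j := by
          rw [hP.P_Qge, if_pos hij]
      _ = P i * (Qge P j * yL P T * P j) := by noncomm_ring
      _ = P i * P j := by rw [h1]
  constructor
  · intro i; rw [key i i le_rfl, hP.idem]
  · intro i j hij hn
    rw [key i j (not_lt.mp hn), hP.orth i j hij]

lemma lt_trans' : ∀ i j k : ι, i < j → j < k → i < k := fun _ _ _ => lt_trans
lemma gt_trans' : ∀ i j k : ι, j < i → k < j → k < i := fun _ _ _ h h' => lt_trans h' h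

lemma IsGrading.Qge_eq_sum (i : ι) :
    Qge P i = ∑ j ∈ univ.filter (fun j => i ≤ j), P j := rfl

/-- a map which is lower block triangular satisfies `Q y = Q y Q` -/
lemma Unip.Qge_mul (hP : IsGrading P) {y : R} (hy : Unip P (fun i j => i < j) y) (i : ι) :
    Qge P i * y * Qlt P i = 0 := by
  rw [Qge, Qlt, Finset.sum_mul, Finset.sum_mul]
  refine Finset.sum_eq_zero fun j hj => ?_
  rw [Finset.mul_sum]
  refine Finset.sum_eq_zero fun k hk => ?_
  simp only [Finset.mem_filter, Finset.mem_univ, true_and, not_le] at hj hk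
  have : k < j := lt_of_lt_of_le hk hj
  exact hy.2 j k this.ne' (not_lt.mpr this.le)

lemma Unip.Qlt_mul (hP : IsGrading P) {x : R} (hx : Unip P (fun i j => j < i) x) (i : ι) :
    Qlt P i * x * Qge P i = 0 := by
  rw [Qge, Qlt, Finset.sum_mul, Finset.sum_mul]
  refine Finset.sum_eq_zero fun j hj => ?_
  rw [Finset.mul_sum]
  refine Finset.sum_eq_zero fun k hk => ?_
  simp only [Finset.mem_filter, Finset.mem_univ, true_and, not_le] at hj hk
  have : j < k := lt_of_lt_of_le hj hk
  exact hx.2 j k this.ne (not_lt.mpr this.le)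

/-- compressions of a lower unipotent are unipotent -/
lemma Unip.Mi_unip (hP : IsGrading P) {s : ι → ι → Prop} {y : R} (hy : Unip P s y) (i : ι) :
    Unip P s (Mi P i y) := by
  have key : ∀ a b, P a * Mi P i y * P b =
      if i ≤ a then (if i ≤ b then P a * y * P b else 0) else (if i ≤ b then 0 else P a * P b) := by
    intro a b
    have e : P a * Mi P i y * P b = (P a * Qge P i) * y * (Qge P i * P b) +
        (P a * Qlt P i) * P b := by
      rw [Mi]; noncomm_ring
    rw [e, hP.P_Qge, hP.Qge_P, hP.P_Qlt]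
    split_ifs with h1 h2 h2
    · simp
    · simp
    · simp only [zero_mul, zero_add]
      exact hP.orth a b fun h => h1 (h ▸ h2)
    · simp
  constructor
  · intro a
    rw [key]
    split_ifs with h
    · exact hy.1 a
    · exact hP.idem a
  · intro a b hab hn
    rw [key]
    split_ifs with h1 h2 h2
    · exact hy.2 a b hab hn
    · rfl
    · rfl
    · exact hP.orth a b hab

lemma IsGrading.diag_Qge (hP : IsGrading P) {d : R} (hd : Diag P d) (i : ι) :
    Qge P i * d = d * Qge P i := by
  rw [Qge, Finset.sum_mul, Finset.mul_sum]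
  exact Finset.sum_congr rfl fun j _ => hd j

lemma IsGrading.diag_Qlt (hP : IsGrading P) {d : R} (hd : Diag P d) (i : ι) :
    Qlt P i * d = d * Qlt P i := by
  rw [Qlt, Finset.sum_mul, Finset.mul_sum]
  exact Finset.sum_congr rfl fun j _ => hd j

lemma Diag.Mi_isUnit (hP : IsGrading P) {d : Rˣ} (hd : Diag P (d : R)) (i : ι) :
    IsUnit (Mi P i (d : R)) := by
  have hd' := hd.inv
  have e1 : Mi P i (d : R) = d * Qge P i + Qlt P i := by
    rw [Mi, hP.diag_Qge hd, mul_assoc, hP.Qge_idem]
  have e2 : Mi P i ((d⁻¹ : Rˣ) : R) = ((d⁻¹ : Rˣ) : R) * Qge P i + Qlt P i := by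
    rw [Mi, hP.diag_Qge hd', mul_assoc, hP.Qge_idem]
  have h1 : Mi P i (d : R) * Mi P i ((d⁻¹ : Rˣ) : R) = 1 := by
    rw [e1, e2]
    have a1 : (d : R) * Qge P i * (((d⁻¹ : Rˣ) : R) * Qge P i) = Qge P i := by
      rw [← hP.diag_Qge hd']
      calc (d : R) * Qge P i * (Qge P i * ((d⁻¹ : Rˣ) : R))
          = (d : R) * (Qge P i * Qge P i) * ((d⁻¹ : Rˣ) : R) := by noncomm_ring
        _ = Qge P i := by rw [hP.Qge_idem, ← hP.diag_Qge hd, mul_assoc, Units.mul_inv, mul_one]
    have a2 : (d : R) * Qge P i * Qlt P i = 0 := by rw [mul_assoc, hP.Qge_Qlt, mul_zero]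
    have a3 : Qlt P i * (((d⁻¹ : Rˣ) : R) * Qge P i) = 0 := by
      rw [← hP.diag_Qge hd', ← mul_assoc, hP.Qlt_Qge, zero_mul]
    rw [add_mul, mul_add, mul_add, a1, a2, a3, hP.Qlt_idem, add_zero, zero_add, hP.Q_add]
  have h2 : Mi P i ((d⁻¹ : Rˣ) : R) * Mi P i (d : R) = 1 := by
    rw [e1, e2]
    have a1 : ((d⁻¹ : Rˣ) : R) * Qge P i * ((d : R) * Qge P i) = Qge P i := by
      rw [← hP.diag_Qge hd]
      calc ((d⁻¹ : Rˣ) : R) * Qge P i * (Qge P i * (d : R))
          = ((d⁻¹ : Rˣ) : R) * (Qge P i * Qge P i) * (d : R) := by noncomm_ring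
        _ = Qge P i := by rw [hP.Qge_idem, ← hP.diag_Qge hd', mul_assoc, Units.inv_mul, mul_one]
    have a2 : ((d⁻¹ : Rˣ) : R) * Qge P i * Qlt P i = 0 := by
      rw [mul_assoc, hP.Qge_Qlt, mul_zero]
    have a3 : Qlt P i * ((d : R) * Qge P i) = 0 := by
      rw [← hP.diag_Qge hd, ← mul_assoc, hP.Qlt_Qge, zero_mul]
    rw [add_mul, mul_add, mul_add, a1, a2, a3, hP.Qlt_idem, add_zero, zero_add, hP.Q_add]
  exact ⟨⟨_, _, h1, h2⟩, rfl⟩

/-- `M_i` is multiplicative on products `y d x` -/
lemma Mi_mul (hP : IsGrading P) {y d x : R} (hy : Unip P (fun i j => i < j) y)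
    (hd : Diag P d) (hx : Unip P (fun i j => j < i) x) (i : ι) :
    Mi P i (y * d * x) = Mi P i y * Mi P i d * Mi P i x := by
  have h1 : Qge P i * y = Qge P i * y * Qge P i := by
    have := hy.Qge_mul hP i
    calc Qge P i * y = Qge P i * y * (Qge P i + Qlt P i) := by rw [hP.Q_add, mul_one]
      _ = _ := by rw [mul_add, this, add_zero]
  have h2 : x * Qge P i = Qge P i * x * Qge P i := by
    have := hx.Qlt_mul hP i
    calc x * Qge P i = (Qge P i + Qlt P i) * x * Qge P i := by rw [hP.Q_add, one_mul]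
      _ = _ := by rw [add_mul, add_mul, this, add_zero]
  have hQ := hP.Qge_idem i
  have hd1 := hP.diag_Qge hd i
  have e1 : Qge P i * (y * d * x) * Qge P i =
      (Qge P i * y * Qge P i) * (Qge P i * d * Qge P i) * (Qge P i * x * Qge P i) := by
    calc Qge P i * (y * d * x) * Qge P i = (Qge P i * y) * d * (x * Qge P i) := by noncomm_ring
      _ = (Qge P i * y * Qge P i) * d * (Qge P i * x * Qge P i) := by rw [← h1, ← h2]
      _ = (Qge P i * y * (Qge P i * Qge P i)) * d * ((Qge P i * Qge P i) * x * Qge P i) := by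
          rw [hQ]
      _ = _ := by noncomm_ring
  have o1 := hP.Qge_Qlt i
  have o2 := hP.Qlt_Qge i
  have o3 := hP.Qlt_idem i
  simp only [Mi]
  rw [e1]
  set A := Qge P i * y * Qge P i with hA
  set B := Qge P i * d * Qge P i with hB
  set C := Qge P i * x * Qge P i with hC
  set L := Qlt P i with hL
  have hAL : A * L = 0 := by rw [hA, mul_assoc, o1, mul_zero]
  have hLB : L * B = 0 := by rw [hB, ← mul_assoc, ← mul_assoc, o2, zero_mul, zero_mul]
  have hBL : B * L = 0 := by rw [hB, mul_assoc, o1, mul_zero]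
  have hLC : L * C = 0 := by rw [hC, ← mul_assoc, ← mul_assoc, o2, zero_mul, zero_mul]
  have : (A + L) * (B + L) * (C + L) = A * B * C + L := by
    have s1 : (A + L) * (B + L) = A * B + L := by
      rw [add_mul, mul_add, mul_add, hAL, hLB, o3, add_zero, zero_add]
    have s2 : A * B * L = 0 := by rw [mul_assoc, hBL, mul_zero]
    rw [s1, add_mul, mul_add, mul_add, s2, hLC, o3, add_zero, zero_add]
  rw [this]

/-- uniqueness of the lower factor -/
lemma yL_eq (hP : IsGrading P) {y x : R} {d : Rˣ} (hy : Unip P (fun i j => i < j) y)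
    (hd : Diag P (d : R)) (hx : Unip P (fun i j => j < i) x) :
    Reg P (y * d * x) ∧ yL P (y * d * x) = y := by
  have hreg : Reg P (y * d * x) := by
    intro i
    rw [Mi_mul hP hy hd hx]
    have h1 := (hy.Mi_unip hP i).isUnit hP lt_trans' (fun i => lt_irrefl i)
    have h2 := (hx.Mi_unip hP i).isUnit hP gt_trans' (fun i => lt_irrefl i)
    exact (h1.mul (Diag.Mi_isUnit hP hd i)).mul h2
  refine ⟨hreg, ?_⟩
  set T := y * (d : R) * x with hT
  have hxi := hx.mul_unipInv hP gt_trans' (fun i => lt_irrefl i)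
  have hxu := hx.unipInv_unip hP gt_trans' (fun i => lt_irrefl i)
  rw [hP.mul_sum (yL P T), hP.mul_sum y]
  refine Finset.sum_congr rfl fun i _ => ?_
  rw [yL_P hP]
  set u : R := unipInv ι x * ((d⁻¹ : Rˣ) : R) * P i with hu
  have hu1 : T * u = y * P i := by
    calc T * u = y * (d : R) * (x * unipInv ι x) * ((d⁻¹ : Rˣ) : R) * P i := by
          rw [hT, hu]; noncomm_ring
      _ = y * P i := by rw [hxi, mul_one, mul_assoc y, Units.mul_inv, mul_one]
  have hd' := hd.inv
  have hu2 : Qlt P i * u = 0 := by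
    have h := hxu.Qlt_mul hP i
    calc Qlt P i * u = Qlt P i * unipInv ι x * (((d⁻¹ : Rˣ) : R) * P i) := by
          rw [hu]; noncomm_ring
      _ = Qlt P i * unipInv ι x * (Qge P i * P i * ((d⁻¹ : Rˣ) : R)) := by
          rw [← hd' i, hP.Qge_P, if_pos le_rfl]
      _ = (Qlt P i * unipInv ι x * Qge P i) * (P i * ((d⁻¹ : Rˣ) : R)) := by noncomm_ring
      _ = 0 := by rw [h, zero_mul]
  have hu3 : Qge P i * u = u := by
    calc Qge P i * u = Qge P i * u + Qlt P i * u := by rw [hu2, add_zero]
      _ = u := by rw [← add_mul, hP.Q_add, one_mul]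
  have hu4 : Mi P i T * u = P i := by
    have hyP : Qge P i * y * P i = P i := by
      have h1 := (hy.Qge_mul hP i)
      rw [Qge, Finset.sum_mul, Finset.sum_mul, Finset.sum_eq_single i]
      · exact hy.1 i
      · intro k hk hki
        simp only [Finset.mem_filter, Finset.mem_univ, true_and] at hk
        exact hy.2 k i hki (not_lt.mpr hk)
      · intro h; simp at h
    calc Mi P i T * u = Qge P i * T * (Qge P i * u) + Qlt P i * u := by
          rw [Mi, add_mul]; noncomm_ring
      _ = Qge P i * (T * u) := by rw [hu3, hu2, add_zero, mul_assoc]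
      _ = P i := by rw [hu1, ← mul_assoc, hyP]
  have hu5 : Ring.inverse (Mi P i T) * P i = u := by
    rw [← hu4, ← mul_assoc, Ring.inverse_mul_cancel _ (hreg i), one_mul]
  calc T * Qge P i * Ring.inverse (Mi P i T) * P i = T * (Qge P i * (Ring.inverse (Mi P i T) * P i)) := by
        noncomm_ring
    _ = y * P i := by rw [hu5, hu3, hu1]

/-- `y⁻¹ T` is upper block triangular -/
lemma Qlt_yinv_T (hP : IsGrading P) {T : R} (h : Reg P T) (i : ι) :
    Qlt P i * (Ring.inverse (yL P T) * T) * Qge P i = 0 := by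
  set y := yL P T with hy
  have hyu := yL_unip hP h
  rw [← hy] at hyu
  have hQ := hP.Qge_idem i
  set M := Mi P i T with hM
  -- `y Q = T Q Z` with `Z = Q Z`
  set Z : R := ∑ j ∈ univ.filter (fun j => i ≤ j), Qge P j * Ring.inverse (Mi P j T) * P j with hZ
  have hQQ : ∀ j, i ≤ j → Qge P i * Qge P j = Qge P j := by
    intro j hij
    conv_lhs => rw [Qge.eq_1 P j, Finset.mul_sum]
    conv_rhs => rw [Qge]
    refine Finset.sum_congr rfl fun k hk => ?_
    simp only [Finset.mem_filter, Finset.mem_univ, true_and] at hk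
    rw [hP.Qge_P, if_pos (hij.trans hk)]
  have hQZ : Qge P i * Z = Z := by
    rw [hZ, Finset.mul_sum]
    refine Finset.sum_congr rfl fun j hj => ?_
    simp only [Finset.mem_filter, Finset.mem_univ, true_and] at hj
    rw [← mul_assoc, ← mul_assoc, hQQ j hj]
  have hyQ : y * Qge P i = T * Z := by
    conv_lhs => rw [Qge, Finset.mul_sum]
    rw [hZ, Finset.mul_sum]
    refine Finset.sum_congr rfl fun j hj => ?_
    rw [hy, yL_P hP]; noncomm_ring
  -- `T Q M⁻¹ (Q y Q) = y Q`
  have hu := h i
  have hcomm := hP.Qge_comm_inverse hu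
  have e1 : T * Qge P i * Ring.inverse M * (Qge P i * y * Qge P i) = y * Qge P i := by
    have : Qge P i * y * Qge P i = M * Z := by
      calc Qge P i * y * Qge P i = Qge P i * T * Z := by rw [mul_assoc, hyQ, mul_assoc]
        _ = Qge P i * T * (Qge P i * Z) + Qlt P i * Z := by
            have h0 : Qlt P i * Z = 0 := by
              rw [← hQZ, ← mul_assoc, hP.Qlt_Qge, zero_mul]
            rw [h0, add_zero, hQZ]
        _ = M * Z := by rw [hM, Mi]; noncomm_ring
    rw [this]
    calc T * Qge P i * Ring.inverse M * (M * Z)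
        = T * Qge P i * (Ring.inverse M * M) * Z := by noncomm_ring
      _ = T * (Qge P i * Z) := by rw [Ring.inverse_mul_cancel _ hu, mul_one, mul_assoc]
      _ = y * Qge P i := by rw [hQZ, hyQ]
  -- `(Q y Q + Q')` is a unit
  have hYu := (hyu.Mi_unip hP i).isUnit hP lt_trans' (fun i => lt_irrefl i)
  set Y := Mi P i y with hYdef
  have hYQ : Y * Qge P i = Qge P i * y * Qge P i := hP.Mi_Qge i y
  have e2 : T * Qge P i = y * Qge P i * Ring.inverse Y * M * Qge P i := by
    -- from e1: T Q M⁻¹ Y Q = y Q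
    have e3 : T * Qge P i * Ring.inverse M * Qge P i = y * Qge P i * Ring.inverse Y * Qge P i := by
      have hYc := hP.Qge_comm_inverse hYu
      calc T * Qge P i * Ring.inverse M * Qge P i
          = T * Qge P i * Ring.inverse M * ((Y * Ring.inverse Y) * Qge P i) := by
            rw [Ring.mul_inverse_cancel _ hYu, one_mul]
        _ = T * Qge P i * Ring.inverse M * (Y * (Ring.inverse Y * Qge P i)) := by noncomm_ring
        _ = T * Qge P i * Ring.inverse M * (Y * (Qge P i * Ring.inverse Y)) := by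
            rw [hYdef, ← hYc]
        _ = T * Qge P i * Ring.inverse M * ((Y * Qge P i) * Ring.inverse Y) := by noncomm_ring
        _ = T * Qge P i * Ring.inverse M * ((Y * (Qge P i * Qge P i)) * Ring.inverse Y) := by
            rw [hQ]
        _ = (T * Qge P i * Ring.inverse M * (Qge P i * y * Qge P i)) *
              (Qge P i * Ring.inverse Y) := by
            rw [← mul_assoc Y, hYQ]; noncomm_ring
        _ = y * Qge P i * (Qge P i * Ring.inverse Y) := by rw [e1]
        _ = y * (Qge P i * (Qge P i * Ring.inverse Y)) := by noncomm_ring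
        _ = y * (Qge P i * (Ring.inverse Y * Qge P i)) := by rw [hYdef, hYc]
        _ = y * Qge P i * Ring.inverse Y * Qge P i := by noncomm_ring
    calc T * Qge P i = T * (Qge P i * Qge P i) := by rw [hQ]
      _ = T * Qge P i * ((Ring.inverse M * M) * Qge P i) := by
          rw [Ring.inverse_mul_cancel _ hu, one_mul, mul_assoc]
      _ = T * (Qge P i * Ring.inverse M) * (M * Qge P i) := by noncomm_ring
      _ = T * ((Qge P i * Qge P i) * Ring.inverse M) * (M * Qge P i) := by rw [hQ]
      _ = T * (Qge P i * (Qge P i * Ring.inverse M)) * (M * Qge P i) := by noncomm_ring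
      _ = T * (Qge P i * (Ring.inverse M * Qge P i)) * (M * Qge P i) := by rw [hM, hcomm]
      _ = (T * Qge P i * Ring.inverse M * Qge P i) * (M * Qge P i) := by noncomm_ring
      _ = (y * Qge P i * Ring.inverse Y * Qge P i) * (M * Qge P i) := by rw [e3]
      _ = y * Qge P i * Ring.inverse Y * (Qge P i * M * Qge P i) := by noncomm_ring
      _ = y * Qge P i * Ring.inverse Y * (M * Qge P i) := by
          rw [hM, hP.Qge_Mi, hP.Mi_Qge, mul_assoc (Qge P i * T), hQ]
      _ = _ := by noncomm_ring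
  have hyunit := hyu.isUnit hP lt_trans' (fun i => lt_irrefl i)
  calc Qlt P i * (Ring.inverse y * T) * Qge P i
      = Qlt P i * Ring.inverse y * (T * Qge P i) := by noncomm_ring
    _ = Qlt P i * Ring.inverse y * (y * Qge P i * Ring.inverse Y * M * Qge P i) := by
        conv_lhs => rw [e2]
    _ = Qlt P i * (Ring.inverse y * y) * Qge P i * (Ring.inverse Y * M * Qge P i) := by
        noncomm_ring
    _ = 0 := by rw [Ring.inverse_mul_cancel _ hyunit, mul_one, hP.Qlt_Qge, zero_mul]

end LU

end Pool.Agent.Lib.MP_d9b062_al
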