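import Pool.Agent.Lib.MP_d9b062_al.AlgDefs

namespace Pool.Agent.Lib.MP_d9b062_al.Stmt

open NormedSpace Matrix

attribute [local instance 100] LieRing.ofAssociativeRing

variable {N : ℕ} {𝔤 : LieSubalgebra ℝ (Matrix (Fin N) (Fin N) ℝ)}

theorem mem_of_inZcl [LieAlgebra.IsSemisimple ℝ 𝔤]
    (hmul : ∀ S T : Matrix (Fin N) (Fin N) ℝ, InZcl 𝔤 S → InZcl 𝔤 T → InZcl 𝔤 (S * T))
    (hbr : ∀ X : Matrix (Fin N) (Fin N) ℝ, (∀ t : ℝ, InZcl 𝔤 (exp (t • X))) →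
      ∀ Y ∈ 𝔤, X * Y - Y * X ∈ 𝔤)
    (hcen : ∀ z : Matrix (Fin N) (Fin N) ℝ, (∀ t : ℝ, InZcl 𝔤 (exp (t • z))) →
      (∀ X ∈ 𝔤, z * X = X * z) → z = 0)
    {X : Matrix (Fin N) (Fin N) ℝ} (hX : ∀ t : ℝ, InZcl 𝔤 (exp (t • X))) : X ∈ 𝔤 := by
  have hK : LieAlgebra.IsKilling ℝ 𝔤 := inferInstance
  let D : LieDerivation ℝ 𝔤 𝔤 :=
    { toFun := fun Y => ⟨X * Y.1 - Y.1 * X, hbr X hX Y.1 Y.2⟩
      map_add' := fun Y Z => Subtype.ext (by
        change X * (Y.1 + Z.1) - (Y.1 + Z.1) * X = (X * Y.1 - Y.1 * X) + (X * Z.1 - Z.1 * X)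
        rw [mul_add, add_mul]; abel)
      map_smul' := fun a Y => Subtype.ext (by
        change X * (a • Y.1) - (a • Y.1) * X = a • (X * Y.1 - Y.1 * X)
        rw [mul_smul_comm, smul_mul_assoc, smul_sub])
      leibniz' := fun Y Z => Subtype.ext (by
        change X * (Y.1 * Z.1 - Z.1 * Y.1) - (Y.1 * Z.1 - Z.1 * Y.1) * X =
          (Y.1 * (X * Z.1 - Z.1 * X) - (X * Z.1 - Z.1 * X) * Y.1) -
            (Z.1 * (X * Y.1 - Y.1 * X) - (X * Y.1 - Y.1 * X) * Z.1)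
        noncomm_ring) }
  obtain ⟨Y₀, hY₀⟩ := LieDerivation.IsKilling.exists_eq_ad D
  have h1 : ∀ Y ∈ 𝔤, X * Y - Y * X = Y₀.1 * Y - Y * Y₀.1 := by
    intro Y hY
    have h2 := congrArg (fun E : LieDerivation ℝ 𝔤 𝔤 => (E ⟨Y, hY⟩).1) hY₀
    simp only [LieDerivation.ad_apply_apply] at h2
    exact h2.symm
  have hc : ∀ Y ∈ 𝔤, (X - Y₀.1) * Y = Y * (X - Y₀.1) := by
    intro Y hY
    have := h1 Y hY
    rw [sub_mul, mul_sub, sub_eq_sub_iff_sub_eq_sub]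
    exact this
  have hc0 : Commute X (-Y₀.1) := by
    have := hc Y₀.1 Y₀.2
    rw [sub_mul, mul_sub, sub_left_inj] at this
    exact Commute.neg_right this
  have h3 : X - Y₀.1 = 0 := by
    refine hcen _ (fun t => ?_) hc
    have h4 : t • (X - Y₀.1) = t • X + t • (-Y₀.1) := by
      rw [← smul_add, sub_eq_add_neg]
    rw [h4, Matrix.exp_add_of_commute _ _ ((hc0.smul_left t).smul_right t)]
    refine hmul _ _ (hX t) fun p hp => ?_
    have := hp [t • (-Y₀.1)] (fun Y hY => by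
      rw [List.mem_singleton.mp hY]
      exact 𝔤.smul_mem t (𝔤.neg_mem_iff.mpr Y₀.2))
    rwa [List.map_singleton, List.prod_singleton] at this
  rw [sub_eq_zero] at h3
  rw [h3]
  exact Y₀.2

end Pool.Agent.Lib.MP_d9b062_al.Stmt
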