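import Pool.Agent.Lib.MP_d9b062_al.Defs

/-!
# Polynomial functions on finite-dimensional spaces
-/

namespace Pool.Agent.Lib.MP_d9b062_al

open scoped Topology

/-- The algebra of polynomial functions on a real vector space. -/
def PolyFun (W : Type*) [AddCommGroup W] [Module ℝ W] : Subalgebra ℝ (W → ℝ) :=
  Algebra.adjoin ℝ {f | ∃ φ : W →ₗ[ℝ] ℝ, f = φ}

/-- A map between real vector spaces all of whose linear functionals are polynomial. -/
def IsPolyMap {W W' : Type*} [AddCommGroup W] [Module ℝ W] [AddCommGroup W'] [Module ℝ W']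
    (f : W → W') : Prop :=
  ∀ φ : W' →ₗ[ℝ] ℝ, (fun x => φ (f x)) ∈ PolyFun W

section

variable {W W' W'' : Type*} [AddCommGroup W] [Module ℝ W] [AddCommGroup W'] [Module ℝ W']
  [AddCommGroup W''] [Module ℝ W'']

lemma PolyFun.linear (φ : W →ₗ[ℝ] ℝ) : (φ : W → ℝ) ∈ PolyFun W :=
  Algebra.subset_adjoin ⟨φ, rfl⟩

lemma PolyFun.const (c : ℝ) : (fun _ : W => c) ∈ PolyFun W :=
  (PolyFun W).algebraMap_mem c

/-- Induction principle. -/
lemma PolyFun.induction {p : (W → ℝ) → Prop} (hl : ∀ φ : W →ₗ[ℝ] ℝ, p φ)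
    (hc : ∀ c : ℝ, p (fun _ => c)) (ha : ∀ f g, p f → p g → p (fun x => f x + g x))
    (hm : ∀ f g, p f → p g → p (fun x => f x * g x)) {F : W → ℝ} (hF : F ∈ PolyFun W) : p F := by
  induction hF using Algebra.adjoin_induction with
  | mem x hx => obtain ⟨φ, rfl⟩ := hx; exact hl φ
  | algebraMap r => exact hc r
  | add x y _ _ hx hy => exact ha x y hx hy
  | mul x y _ _ hx hy => exact hm x y hx hy

lemma PolyFun.add {f g : W → ℝ} (hf : f ∈ PolyFun W) (hg : g ∈ PolyFun W) :
    (fun x => f x + g x) ∈ PolyFun W := (PolyFun W).add_mem hf hg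

lemma PolyFun.mul {f g : W → ℝ} (hf : f ∈ PolyFun W) (hg : g ∈ PolyFun W) :
    (fun x => f x * g x) ∈ PolyFun W := (PolyFun W).mul_mem hf hg

lemma PolyFun.sub {f g : W → ℝ} (hf : f ∈ PolyFun W) (hg : g ∈ PolyFun W) :
    (fun x => f x - g x) ∈ PolyFun W := (PolyFun W).sub_mem hf hg

lemma PolyFun.pow {f : W → ℝ} (hf : f ∈ PolyFun W) (n : ℕ) :
    (fun x => f x ^ n) ∈ PolyFun W := (PolyFun W).pow_mem hf n

lemma PolyFun.sum {κ : Type*} (s : Finset κ) {f : κ → W → ℝ} (hf : ∀ i ∈ s, f i ∈ PolyFun W) :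
    (fun x => ∑ i ∈ s, f i x) ∈ PolyFun W := by
  have := (PolyFun W).sum_mem hf
  convert this using 1
  ext x
  simp

lemma PolyFun.prod {κ : Type*} (s : Finset κ) {f : κ → W → ℝ} (hf : ∀ i ∈ s, f i ∈ PolyFun W) :
    (fun x => ∏ i ∈ s, f i x) ∈ PolyFun W := by
  have := (PolyFun W).prod_mem hf
  convert this using 1
  ext x
  simp

lemma IsPolyMap.linear (A : W →ₗ[ℝ] W') : IsPolyMap (A : W → W') :=
  fun φ => PolyFun.linear (φ ∘ₗ A)

lemma IsPolyMap.const (c : W') : IsPolyMap (fun _ : W => c) := fun φ => PolyFun.const (φ c)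

lemma IsPolyMap.id : IsPolyMap (fun x : W => x) := fun φ => PolyFun.linear φ

lemma IsPolyMap.add {f g : W → W'} (hf : IsPolyMap f) (hg : IsPolyMap g) :
    IsPolyMap (fun x => f x + g x) := fun φ => by
  simpa using PolyFun.add (hf φ) (hg φ)

lemma IsPolyMap.sub {f g : W → W'} (hf : IsPolyMap f) (hg : IsPolyMap g) :
    IsPolyMap (fun x => f x - g x) := fun φ => by
  simpa using PolyFun.sub (hf φ) (hg φ)

lemma IsPolyMap.sum {κ : Type*} (s : Finset κ) {f : κ → W → W'}
    (hf : ∀ i ∈ s, IsPolyMap (f i)) : IsPolyMap (fun x => ∑ i ∈ s, f i x) := fun φ => by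
  simpa using PolyFun.sum s (fun i hi => hf i hi φ)

lemma IsPolyMap.smul {f : W → ℝ} {g : W → W'} (hf : f ∈ PolyFun W) (hg : IsPolyMap g) :
    IsPolyMap (fun x => f x • g x) := fun φ => by
  simpa using PolyFun.mul hf (hg φ)

lemma IsPolyMap.of_polyFun {f : W → ℝ} (hf : f ∈ PolyFun W) : IsPolyMap f := fun φ => by
  have : (fun x => φ (f x)) = fun x => φ 1 * f x := by
    ext x
    have := φ.map_smul (f x) 1
    simp only [smul_eq_mul, mul_one] at this
    rw [this, mul_comm]
  rw [this]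
  exact PolyFun.mul (PolyFun.const _) hf

lemma IsPolyMap.polyFun {f : W → ℝ} (hf : IsPolyMap f) : f ∈ PolyFun W := hf LinearMap.id

/-- composition of a polynomial function with a polynomial map -/
lemma PolyFun.comp {F : W' → ℝ} (hF : F ∈ PolyFun W') {f : W → W'} (hf : IsPolyMap f) :
    (fun x => F (f x)) ∈ PolyFun W := by
  refine PolyFun.induction (p := fun F => (fun x => F (f x)) ∈ PolyFun W) (fun φ => hf φ)
    (fun c => PolyFun.const c) (fun f g hf hg => PolyFun.add hf hg)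
    (fun f g hf hg => PolyFun.mul hf hg) hF

lemma IsPolyMap.comp {g : W' → W''} (hg : IsPolyMap g) {f : W → W'} (hf : IsPolyMap f) :
    IsPolyMap (fun x => g (f x)) := fun φ => PolyFun.comp (hg φ) hf

lemma IsPolyMap.linear_comp (A : W' →ₗ[ℝ] W'') {f : W → W'} (hf : IsPolyMap f) :
    IsPolyMap (fun x => A (f x)) := (IsPolyMap.linear A).comp hf

/-- bilinear combination of polynomial maps -/
lemma IsPolyMap.bilin {V₁ V₂ V₃ : Type*} [AddCommGroup V₁] [Module ℝ V₁] [AddCommGroup V₂]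
    [Module ℝ V₂] [AddCommGroup V₃] [Module ℝ V₃] [FiniteDimensional ℝ V₁]
    (B : V₁ →ₗ[ℝ] V₂ →ₗ[ℝ] V₃) {f : W → V₁} {g : W → V₂}
    (hf : IsPolyMap f) (hg : IsPolyMap g) : IsPolyMap (fun x => B (f x) (g x)) := by
  intro φ
  let b := Module.finBasis ℝ V₁
  have key : (fun x => φ (B (f x) (g x))) =
      fun x => ∑ i, b.coord i (f x) * φ (B (b i) (g x)) := by
    ext x
    have h : B (f x) (g x) = ∑ i, b.coord i (f x) • B (b i) (g x) := by
      conv_lhs => rw [← b.sum_repr (f x)]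
      rw [map_sum, LinearMap.sum_apply]
      refine Finset.sum_congr rfl fun i _ => ?_
      rw [map_smul, LinearMap.smul_apply, Module.Basis.coord_apply]
    rw [h, map_sum]
    refine Finset.sum_congr rfl fun i _ => ?_
    rw [map_smul, smul_eq_mul]
  rw [key]
  exact PolyFun.sum _ fun i _ =>
    PolyFun.mul (hf (b.coord i)) (hg (φ ∘ₗ B (b i)))

end

section End

variable {W : Type*} [AddCommGroup W] [Module ℝ W]
variable {E : Type*} [NormedAddCommGroup E] [NormedSpace ℝ E] [FiniteDimensional ℝ E]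

lemma IsPolyMap.mul {f g : W → E →L[ℝ] E} (hf : IsPolyMap f) (hg : IsPolyMap g) :
    IsPolyMap (fun x => f x * g x) :=
  IsPolyMap.bilin (LinearMap.mul ℝ (E →L[ℝ] E)) hf hg

lemma IsPolyMap.pow {f : W → E →L[ℝ] E} (hf : IsPolyMap f) (n : ℕ) :
    IsPolyMap (fun x => f x ^ n) := by
  induction n with
  | zero => simpa using IsPolyMap.const (1 : E →L[ℝ] E)
  | succ n ih => simpa [pow_succ] using ih.mul hf

lemma IsPolyMap.apply {f : W → E →L[ℝ] E} {g : W → E} (hf : IsPolyMap f) (hg : IsPolyMap g) :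
    IsPolyMap (fun x => f x (g x)) := by
  let B : (E →L[ℝ] E) →ₗ[ℝ] E →ₗ[ℝ] E :=
    LinearMap.mk₂ ℝ (fun T v => T v) (by intros; simp) (by intros; simp) (by intros; simp)
      (by intros; simp)
  exact IsPolyMap.bilin B hf hg

/-- Polynomial functions on a finite-dimensional normed space are continuous. -/
lemma PolyFun.continuous {F : E → ℝ} (hF : F ∈ PolyFun E) : Continuous F := by
  refine PolyFun.induction (p := fun F => Continuous F)
    (fun φ => φ.continuous_of_finiteDimensional) (fun c => continuous_const)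
    (fun f g hf hg => hf.add hg) (fun f g hf hg => hf.mul hg) hF

/-- Polynomial functions on a finite-dimensional normed space are smooth. -/
lemma PolyFun.contDiff {F : E → ℝ} (hF : F ∈ PolyFun E) {n : WithTop ℕ∞} : ContDiff ℝ n F := by
  refine PolyFun.induction (p := fun F => ContDiff ℝ n F)
    (fun φ => (LinearMap.toContinuousLinearMap φ).contDiff) (fun c => contDiff_const)
    (fun f g hf hg => hf.add hg) (fun f g hf hg => hf.mul hg) hF

end End

end Pool.Agent.Lib.MP_d9b062_al
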