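import Pool.Agent.Lib.MP_d9b062_al.AlgDefs
import Pool.Agent.Lib.MP_d9b062_al_h20.Rep

/-!
# From matrices to operators
-/

namespace Pool.Agent.Lib.MP_d9b062_al.Stmt

open NormedSpace Matrix

attribute [local instance 100] LieRing.ofAssociativeRing

variable {N : ℕ}

/-- matrices as operators -/
noncomputable def Φ (N : ℕ) : Matrix (Fin N) (Fin N) ℝ ≃ₐ[ℝ] Op N :=
  (Matrix.toEuclideanCLM (n := Fin N) (𝕜 := ℝ)).toAlgEquiv

lemma Φ_toLp (T : Matrix (Fin N) (Fin N) ℝ) (v : Fin N → ℝ) :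
    Φ N T (WithLp.toLp 2 v) = WithLp.toLp 2 (T *ᵥ v) := rfl

lemma ofLp_Φ (T : Matrix (Fin N) (Fin N) ℝ) (v : V N) :
    WithLp.ofLp (Φ N T v) = T *ᵥ WithLp.ofLp v := rfl

lemma polyVal_Φ (p : MvPolynomial (Fin N × Fin N) ℝ) (T : Matrix (Fin N) (Fin N) ℝ) :
    MP_d9b062_al.polyVal p (Φ N T) = polyVal p T := by
  unfold MP_d9b062_al.polyVal polyVal
  congr 2
  funext ij
  have h : (EuclideanSpace.single ij.2 (1 : ℝ) : V N) = WithLp.toLp 2 (Pi.single ij.2 1) := rfl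
  rw [h, Φ_toLp]
  simp

lemma Φ_continuous : Continuous (Φ N) :=
  (Φ N).toLinearMap.continuous_of_finiteDimensional

lemma Φ_exp (T : Matrix (Fin N) (Fin N) ℝ) : Φ N (exp T) = exp (Φ N T) := by
  let _ : NormedRing (Matrix (Fin N) (Fin N) ℝ) := Matrix.linftyOpNormedRing
  let _ : NormedAlgebra ℝ (Matrix (Fin N) (Fin N) ℝ) := Matrix.linftyOpNormedAlgebra
  let _ : NormedAlgebra ℚ (Matrix (Fin N) (Fin N) ℝ) := .restrictScalars ℚ ℝ _
  exact map_exp (Φ N) Φ_continuous T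

/-- matrices as operators, on the units -/
noncomputable def ΦU (N : ℕ) : GL (Fin N) ℝ ≃* (Op N)ˣ :=
  Units.mapEquiv (Φ N).toMulEquiv

lemma coe_ΦU (g : GL (Fin N) ℝ) : ((ΦU N g : (Op N)ˣ) : Op N) = Φ N g.1 := rfl

lemma coe_ΦU_inv (g : GL (Fin N) ℝ) : (((ΦU N g)⁻¹ : (Op N)ˣ) : Op N) = Φ N g⁻¹.1 := rfl

/-- the operator version of a representation -/
noncomputable def opRep {𝒢 : Type*} [Group 𝒢] (ρ : 𝒢 →* GL (Fin N) ℝ) : 𝒢 →* (Op N)ˣ :=
  (ΦU N).toMonoidHom.comp ρ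

lemma coe_opRep {𝒢 : Type*} [Group 𝒢] (ρ : 𝒢 →* GL (Fin N) ℝ) (g : 𝒢) :
    ((opRep ρ g : (Op N)ˣ) : Op N) = Φ N (ρ g).1 := rfl

/-- the operator version of a space of matrices -/
noncomputable def opSub (A : Submodule ℝ (Matrix (Fin N) (Fin N) ℝ)) : Submodule ℝ (Op N) :=
  A.map (Φ N).toLinearMap

lemma Φ_mem_opSub {A : Submodule ℝ (Matrix (Fin N) (Fin N) ℝ)} {X : Matrix (Fin N) (Fin N) ℝ} :
    Φ N X ∈ opSub A ↔ X ∈ A := by
  constructor
  · rintro ⟨Y, hY, h⟩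
    rwa [← (Φ N).injective h]
  · intro h
    exact ⟨X, h, rfl⟩

lemma exists_of_opSub {A : Submodule ℝ (Matrix (Fin N) (Fin N) ℝ)} {Z : Op N} (h : Z ∈ opSub A) :
    ∃ X ∈ A, Φ N X = Z := h

/-- the operator version of an element of `A` -/
noncomputable def opE (A : Submodule ℝ (Matrix (Fin N) (Fin N) ℝ)) : A →ₗ[ℝ] opSub A :=
  (Φ N).toLinearMap.restrict (fun _ h => Φ_mem_opSub.mpr h)

lemma coe_opE (A : Submodule ℝ (Matrix (Fin N) (Fin N) ℝ)) (X : A) :
    ((opE A X : opSub A) : Op N) = Φ N X.1 := rfl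

lemma opE_surj (A : Submodule ℝ (Matrix (Fin N) (Fin N) ℝ)) (Z : opSub A) :
    ∃ X : A, opE A X = Z := by
  obtain ⟨X, hX, h⟩ := Z.2
  exact ⟨⟨X, hX⟩, Subtype.ext h⟩

/-- hyperbolic matrices -/
lemma isHyperbolic_Φ {X : Matrix (Fin N) (Fin N) ℝ} :
    MP_d9b062_al.IsHyperbolic (Φ N X) ↔ IsHyperbolic X := by
  constructor
  · rintro ⟨b, hb⟩
    choose d hd using hb
    let e := EuclideanSpace.basisFun (Fin N) ℝ
    -- the matrix whose columns are the `b j`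
    let P : Matrix (Fin N) (Fin N) ℝ := e.toBasis.toMatrix b
    let Q : Matrix (Fin N) (Fin N) ℝ := b.toMatrix e.toBasis
    have hPQ : P * Q = 1 := Module.Basis.toMatrix_mul_toMatrix_flip _ _
    have hQP : Q * P = 1 := Module.Basis.toMatrix_mul_toMatrix_flip _ _
    refine ⟨⟨P, Q, hPQ, hQP⟩, d, ?_⟩
    have hP : ∀ i j, P i j = b j i := by
      intro i j
      rfl
    have hXP : X * P = P * diagonal d := by
      ext i j
      rw [Matrix.mul_diagonal, hP]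
      have h1 := congrArg (fun v : V N => v i) (hd j)
      have h2 : (Φ N X (b j)) i = (X *ᵥ WithLp.ofLp (b j)) i := rfl
      simp only [h2] at h1
      change (X *ᵥ WithLp.ofLp (b j)) i = b j i * d j
      rw [h1]
      change d j * b j i = _
      exact mul_comm _ _
    change X = P * diagonal d * Q
    rw [← hXP, mul_assoc, hPQ, mul_one]
  · rintro ⟨P, d, hX⟩
    let e : V N ≃ₗ[ℝ] V N := LinearEquiv.ofLinearMap (Φ N P.1 : V N →ₗ[ℝ] V N)
      (Φ N P⁻¹.1 : V N →ₗ[ℝ] V N)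
      (by
        ext1 v
        have : (Φ N P.1 * Φ N P⁻¹.1) v = v := by
          rw [← map_mul, ← Units.val_mul, mul_inv_cancel, Units.val_one, map_one]; rfl
        exact this)
      (by
        ext1 v
        have : (Φ N P⁻¹.1 * Φ N P.1) v = v := by
          rw [← map_mul, ← Units.val_mul, inv_mul_cancel, Units.val_one, map_one]; rfl
        exact this)
    have hXP : X * P.1 = P.1 * diagonal d := by
      rw [hX, mul_assoc, ← Units.val_mul, inv_mul_cancel, Units.val_one, mul_one]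
    refine ⟨(EuclideanSpace.basisFun (Fin N) ℝ).toBasis.map e, fun i => ⟨d i, ?_⟩⟩
    rw [Module.Basis.map_apply]
    have h1 : (EuclideanSpace.basisFun (Fin N) ℝ).toBasis i = WithLp.toLp 2 (Pi.single i 1) := by
      simp
    rw [h1]
    change Φ N X (Φ N P.1 (WithLp.toLp 2 (Pi.single i 1))) =
      d i • Φ N P.1 (WithLp.toLp 2 (Pi.single i 1))
    have h2 : Φ N X (Φ N P.1 (WithLp.toLp 2 (Pi.single i 1))) =
        Φ N (X * P.1) (WithLp.toLp 2 (Pi.single i 1)) := by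
      rw [map_mul]; rfl
    rw [h2, hXP, map_mul]
    change Φ N P.1 (Φ N (diagonal d) (WithLp.toLp 2 (Pi.single i 1))) = _
    rw [Φ_toLp (diagonal d), ← map_smul]
    congr 1
    rw [← WithLp.toLp_smul]
    congr 1
    ext j
    rw [Matrix.mulVec_diagonal]
    by_cases h : j = i
    · subst h; simp
    · simp [h]

lemma exists_Φ (Z : Op N) : ∃ X, Φ N X = Z := (Φ N).surjective Z

end Pool.Agent.Lib.MP_d9b062_al.Stmt
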