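import Pool.Agent.Lib.MP_d9b062_al.Transfer
import Pool.Agent.Lib.MP_d9b062_al.Assembly2

/-!
# From matrices to operators: the theorem
-/

namespace Pool.Agent.Lib.MP_d9b062_al.Stmt

open NormedSpace Matrix

attribute [local instance 100] LieRing.ofAssociativeRing

section

variable {𝒢 : Type*} [Group 𝒢] {N : ℕ} {ρ : 𝒢 →* GL (Fin N) ℝ}
  {𝔤 : LieSubalgebra ℝ (Matrix (Fin N) (Fin N) ℝ)}

/-- the exponential as a unit -/
noncomputable def expU (X : Op N) : (Op N)ˣ :=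
  { val := exp X
    inv := exp (-X)
    val_inv := by
      let _ : NormedAlgebra ℚ (Op N) := .restrictScalars ℚ ℝ _
      rw [← exp_add_of_commute (Commute.neg_right (Commute.refl X)), add_neg_cancel, exp_zero]
    inv_val := by
      let _ : NormedAlgebra ℚ (Op N) := .restrictScalars ℚ ℝ _
      rw [← exp_add_of_commute (Commute.neg_left (Commute.refl X)), neg_add_cancel, exp_zero] }

lemma mem_closure_iff {g : (Op N)ˣ} : g ∈ zariskiClosure (opRep ρ).range ↔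
    ∀ p : MvPolynomial (Fin N × Fin N) ℝ, (∀ x : 𝒢, polyVal p (ρ x).1 = 0) →
      MP_d9b062_al.polyVal p (g : Op N) = 0 := by
  constructor
  · intro h p hp
    refine h p ?_
    rintro _ ⟨x, rfl⟩
    rw [coe_opRep, polyVal_Φ]
    exact hp x
  · intro h p hp
    refine h p fun x => ?_
    rw [← polyVal_Φ, ← coe_opRep]
    exact hp _ ⟨x, rfl⟩

lemma opRep_mem (x : 𝒢) : opRep ρ x ∈ zariskiClosure (opRep ρ).range :=
  fun _ hp => hp _ ⟨x, rfl⟩

lemma mem_lieAlg_of_mem (hρ : SameZariskiClosure ρ 𝔤) {X : Matrix (Fin N) (Fin N) ℝ}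
    (hX : X ∈ 𝔤) : Φ N X ∈ lieAlg (zariskiClosure (opRep ρ).range) := by
  intro t
  refine ⟨expU (t • Φ N X), mem_closure_iff.mpr fun p hp => ?_, rfl⟩
  have h1 := (hρ p).mp hp [t • X] (fun Y hY => by
    rw [List.mem_singleton.mp hY]
    exact 𝔤.smul_mem t hX)
  rw [List.map_singleton, List.prod_singleton, ← polyVal_Φ, Φ_exp, map_smul] at h1
  exact h1

lemma mem_of_mem_lieAlg (hρ : SameZariskiClosure ρ 𝔤)
    (hmem : ∀ X, (∀ t : ℝ, InZcl 𝔤 (exp (t • X))) → X ∈ 𝔤) {X : Matrix (Fin N) (Fin N) ℝ}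
    (hX : Φ N X ∈ lieAlg (zariskiClosure (opRep ρ).range)) : X ∈ 𝔤 := by
  apply hmem
  intro t p hp
  obtain ⟨g, hg, hge⟩ := hX t
  have h1 := mem_closure_iff.mp hg p ((hρ p).mpr hp)
  rw [hge, ← map_smul, ← Φ_exp, polyVal_Φ] at h1
  exact h1

lemma mem_lieAlg_iff (hρ : SameZariskiClosure ρ 𝔤)
    (hmem : ∀ X, (∀ t : ℝ, InZcl 𝔤 (exp (t • X))) → X ∈ 𝔤) {X : Matrix (Fin N) (Fin N) ℝ} :
    Φ N X ∈ lieAlg (zariskiClosure (opRep ρ).range) ↔ X ∈ 𝔤 :=
  ⟨mem_of_mem_lieAlg hρ hmem, mem_lieAlg_of_mem hρ⟩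

lemma Φ_lie (X Y : Matrix (Fin N) (Fin N) ℝ) : Φ N ⁅X, Y⁆ = ⁅Φ N X, Φ N Y⁆ := by
  rw [LieRing.of_associative_ring_bracket, LieRing.of_associative_ring_bracket, map_sub, map_mul,
    map_mul]

/-- `Φ` as an isomorphism of Lie algebras -/
noncomputable def ΦL (N : ℕ) : Matrix (Fin N) (Fin N) ℝ ≃ₗ⁅ℝ⁆ Op N :=
  { (Φ N).toLinearEquiv with
    map_lie' := fun {X Y} => Φ_lie X Y }

theorem isSemisimpleIrr (hirr : IsIrreducible ρ) [LieAlgebra.IsSemisimple ℝ 𝔤]
    (hρ : SameZariskiClosure ρ 𝔤)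
    (hmem : ∀ X, (∀ t : ℝ, InZcl 𝔤 (exp (t • X))) → X ∈ 𝔤) :
    IsSemisimpleIrr (zariskiClosure (opRep ρ).range) where
  closed := by
    intro g hg p hp
    exact hg p fun h hh => hh p hp
  connected := by
    intro p hp g hg
    refine mem_closure_iff.mp hg p ((hρ p).mpr fun l hl => ?_)
    have h1 := hp (l.map (Φ N)) (by
      intro Z hZ
      obtain ⟨X, hX, rfl⟩ := List.mem_map.mp hZ
      exact mem_lieAlg_of_mem hρ (hl X hX))
    have h2 : ((l.map (Φ N)).map exp).prod = Φ N (l.map exp).prod := by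
      rw [map_list_prod, List.map_map, List.map_map]
      congr 1
      apply List.map_congr_left
      intro X _
      exact (Φ_exp X).symm
    rw [h2, polyVal_Φ] at h1
    exact h1
  irreducible := by
    refine ⟨hirr.1, fun W hW => ?_⟩
    let e : V N ≃ₗ[ℝ] (Fin N → ℝ) := WithLp.linearEquiv 2 ℝ (Fin N → ℝ)
    have h1 := hirr.2 (W.map e.toLinearMap) (by
      rintro g _ ⟨v, hv, rfl⟩
      exact ⟨Φ N (ρ g).1 v, hW _ (opRep_mem g) v hv, rfl⟩)
    rcases h1 with h1 | h1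
    · left
      rw [Submodule.eq_bot_iff]
      intro v hv
      have h2 : e v ∈ W.map e.toLinearMap := ⟨v, hv, rfl⟩
      rw [h1, Submodule.mem_bot] at h2
      exact e.injective (by rw [h2, map_zero])
    · right
      have := congrArg (Submodule.comap e.toLinearMap) h1
      rwa [Submodule.comap_map_eq_of_injective e.injective, Submodule.comap_top] at this
  semisimple := by
    refine ⟨𝔤.map (ΦL N).toLieHom, ?_, ?_⟩
    · ext Z
      obtain ⟨X, rfl⟩ := exists_Φ Z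
      rw [mem_lieAlg_iff hρ hmem]
      constructor
      · rintro ⟨Y, hY, h⟩
        have : Y = X := (Φ N).injective h
        rwa [← this]
      · intro h
        exact ⟨X, h, rfl⟩
    · have hK : LieAlgebra.IsKilling ℝ 𝔤 := inferInstance
      have e := (ΦL N).lieSubalgebraMap 𝔤
      have : LieAlgebra.IsKilling ℝ (𝔤.map (ΦL N).toLieHom) := LieAlgebra.isKilling_of_equiv e
      infer_instance

theorem isCartanSubspace_op (hρ : SameZariskiClosure ρ 𝔤)
    (hmem : ∀ X, (∀ t : ℝ, InZcl 𝔤 (exp (t • X))) → X ∈ 𝔤)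
    {A : Submodule ℝ (Matrix (Fin N) (Fin N) ℝ)} (hA : IsCartanSubspace 𝔤 A) :
    MP_d9b062_al.IsCartanSubspace (zariskiClosure (opRep ρ).range) (opSub A) where
  mem_lieAlg := by
    rintro _ ⟨X, hX, rfl⟩
    exact mem_lieAlg_of_mem hρ (hA.mem X hX)
  hyperbolic := by
    rintro _ ⟨X, hX, rfl⟩
    exact isHyperbolic_Φ.mpr (hA.hyperbolic X hX)
  commute := by
    rintro _ ⟨X, hX, rfl⟩ _ ⟨Y, hY, rfl⟩
    change Φ N X * Φ N Y = Φ N Y * Φ N X
    rw [← map_mul, hA.commute X hX Y hY, map_mul]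
  maximal := by
    intro B hAB hB hBc
    have h1 := hA.maximal (B.comap (Φ N).toLinearMap) (fun X hX => hAB (Φ_mem_opSub.mpr hX))
      (fun X hX => ⟨mem_of_mem_lieAlg hρ hmem (hB _ hX).1, isHyperbolic_Φ.mp (hB _ hX).2⟩)
      (fun X hX Y hY => (Φ N).injective (by
        rw [map_mul, map_mul]
        exact hBc _ hX _ hY))
    intro Z hZ
    obtain ⟨X, rfl⟩ := exists_Φ Z
    exact Φ_mem_opSub.mpr (h1 hZ)

theorem isRoot_op (hρ : SameZariskiClosure ρ 𝔤)
    (hmem : ∀ X, (∀ t : ℝ, InZcl 𝔤 (exp (t • X))) → X ∈ 𝔤)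
    {A : Submodule ℝ (Matrix (Fin N) (Fin N) ℝ)} {α : opSub A →ₗ[ℝ] ℝ}
    (hα : MP_d9b062_al.IsRoot (zariskiClosure (opRep ρ).range) (opSub A) α) :
    IsRoot 𝔤 A (α ∘ₗ opE A) := by
  obtain ⟨hne, Z, hZ, hZ0, h⟩ := hα
  obtain ⟨Z, rfl⟩ := exists_Φ Z
  refine ⟨?_, Z, mem_of_mem_lieAlg hρ hmem hZ, ?_, ?_⟩
  · intro h0
    apply hne
    ext X
    obtain ⟨Y, rfl⟩ := opE_surj A X
    exact LinearMap.congr_fun h0 Y
  · rintro rfl
    exact hZ0 (map_zero _)
  · intro X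
    apply (Φ N).injective
    rw [map_sub, map_mul, map_mul, map_smul]
    exact h (opE A X)

theorem isLongest_op (hρ : SameZariskiClosure ρ 𝔤)
    (hmem : ∀ X, (∀ t : ℝ, InZcl 𝔤 (exp (t • X))) → X ∈ 𝔤)
    {A : Submodule ℝ (Matrix (Fin N) (Fin N) ℝ)} {H : A} {w : 𝒢}
    (hw : IsLongest 𝔤 A H (ρ w)) :
    MP_d9b062_al.IsLongest (zariskiClosure (opRep ρ).range) (opSub A) (opE A H) (opRep ρ w) := by
  have hcj : ∀ X : Matrix (Fin N) (Fin N) ℝ,
      (((opRep ρ w)⁻¹ : (Op N)ˣ) : Op N) * Φ N X * ((opRep ρ w : (Op N)ˣ) : Op N) =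
        Φ N ((ρ w)⁻¹.1 * X * (ρ w).1) := by
    intro X
    rw [map_mul, map_mul]
    rfl
  refine ⟨opRep_mem w, ?_, ?_⟩
  · rintro _ ⟨X, hX, rfl⟩
    have := Φ_mem_opSub.mpr (hw.1 X hX)
    rw [← hcj] at this
    exact this
  · intro α hα hpos
    refine lt_of_eq_of_lt ?_ (hw.2 _ (isRoot_op hρ hmem hα) hpos ⟨_, hw.1 H.1 H.2⟩ rfl)
    change α _ = α _
    congr 1
    apply Subtype.ext
    exact hcj H.1

theorem isMilnor_of_op (h : IsMilnorRep (opRep ρ)) : IsMilnor ρ := by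
  rintro ⟨κ, hκ, φ, u, hu, hinj, hdense, hprop⟩
  apply h
  have hu1 : u 1 = 0 := by
    have := hu 1 1
    rw [mul_one, map_one, map_one, Units.val_one, one_mulVec] at this
    simpa using this
  let ψ : FreeGroup κ →* AffRep (opRep ρ) :=
    { toFun := fun x => ⟨φ x, WithLp.toLp 2 (u x)⟩
      map_one' := by
        refine AffRep.ext (map_one φ) ?_
        change WithLp.toLp 2 (u 1) = 0
        rw [hu1]; rfl
      map_mul' := fun x y => by
        refine AffRep.ext (map_mul φ x y) ?_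
        change WithLp.toLp 2 (u (x * y)) = _
        rw [hu]
        rfl }
  have hψ : Function.Injective ψ := by
    intro x y hxy
    apply hinj
    have h1 := congrArg AffRep.lin hxy
    have h2 := congrArg (fun z : AffRep (opRep ρ) => WithLp.ofLp z.tr) hxy
    exact Prod.ext h1 h2
  refine ⟨ψ.range, ⟨κ, hκ, ⟨(MonoidHom.ofInjective hψ).symm⟩⟩, ?_, ?_⟩
  · intro p hp g
    rw [coe_opRep, polyVal_Φ]
    refine hdense p (fun x => ?_) g
    have := hp (ψ x) ⟨x, rfl⟩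
    rw [coe_opRep, polyVal_Φ] at this
    exact this
  · intro K hK
    have hK' : IsCompact ((fun v : V N => (WithLp.ofLp v : Fin N → ℝ)) '' K) :=
      hK.image (PiLp.continuous_ofLp 2 _)
    refine ((hprop _ hK').image ψ).subset ?_
    rintro _ ⟨⟨x, rfl⟩, z, ⟨v, hv, hvz⟩, hz⟩
    refine ⟨x, ⟨WithLp.ofLp v, ⟨v, hv, rfl⟩, z, hz, ?_⟩, rfl⟩
    rw [← hvz]
    rfl

/-- The final theorem, from the algebraicity of `𝔤`. -/
theorem isMilnor_of_mem (hirr : IsIrreducible ρ) [LieAlgebra.IsSemisimple ℝ 𝔤]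
    (hρ : SameZariskiClosure ρ 𝔤)
    (hmem : ∀ X, (∀ t : ℝ, InZcl 𝔤 (exp (t • X))) → X ∈ 𝔤)
    {A : Submodule ℝ (Matrix (Fin N) (Fin N) ℝ)} (hA : IsCartanSubspace 𝔤 A)
    {H : A} (hH : IsRegular 𝔤 A H) {w : 𝒢} (hw : IsLongest 𝔤 A H (ρ w))
    (hS : ¬ CondS ρ A w) : IsMilnor ρ := by
  apply isMilnor_of_op
  refine isMilnorRep_of_isMilnor (opRep ρ) (opSub A) w ?_ fun h =>
    isMilnor_main (isSemisimpleIrr hirr hρ hmem) (isCartanSubspace_op hρ hmem hA)
      (H := opE A H) (fun α hα => hH _ (isRoot_op hρ hmem hα)) (isLongest_op hρ hmem hw) h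
  rintro ⟨v, hv, hwv⟩
  apply hS
  refine ⟨WithLp.ofLp v, fun l hl => ?_, fun h => hwv ?_⟩
  · have h1 := hv l (by
      rintro _ ⟨X, hX, rfl⟩
      rw [coe_opRep]
      change Φ N (ρ l).1 * Φ N X = Φ N X * Φ N (ρ l).1
      rw [← map_mul, hl X hX, map_mul])
    exact congrArg WithLp.ofLp h1
  · exact congrArg (WithLp.toLp 2) h

/-- Schur's lemma for `𝔤` -/
theorem schur (hirr : IsIrreducible ρ) (hρ : SameZariskiClosure ρ 𝔤)
    (T : Matrix (Fin N) (Fin N) ℝ) (hT : ∀ X ∈ 𝔤, T * X = X * T) : T = 0 ∨ IsUnit T := by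
  have h1 : ∀ l : List (Matrix (Fin N) (Fin N) ℝ), (∀ X ∈ l, X ∈ 𝔤) →
      T * (l.map exp).prod = (l.map exp).prod * T := by
    intro l
    induction l with
    | nil => intro _; simp
    | cons X l ih =>
      intro hl
      have h2 : Commute T (exp X) :=
        Commute.exp_right (hT X (hl X List.mem_cons_self))
      have h3 := ih fun Y hY => hl Y (List.mem_cons_of_mem _ hY)
      rw [List.map_cons, List.prod_cons, ← mul_assoc, h2.eq, mul_assoc, h3, mul_assoc]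
  have h2 : ∀ g : 𝒢, T * (ρ g).1 = (ρ g).1 * T := by
    intro g
    ext i j
    rw [Matrix.mul_apply, Matrix.mul_apply, ← sub_eq_zero]
    let p : MvPolynomial (Fin N × Fin N) ℝ :=
      ∑ k, MvPolynomial.C (T i k) * MvPolynomial.X (k, j) -
        ∑ k, MvPolynomial.X (i, k) * MvPolynomial.C (T k j)
    have hp : ∀ M : Matrix (Fin N) (Fin N) ℝ,
        polyVal p M = ∑ k, T i k * M k j - ∑ k, M i k * T k j := by
      intro M
      simp [p, polyVal]
    have h3 : polyVal p (ρ g).1 = 0 := by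
      refine (hρ p).mpr (fun l hl => ?_) g
      rw [hp, ← Matrix.mul_apply, ← Matrix.mul_apply, h1 l hl, sub_self]
    rw [← hp]
    exact h3
  rcases hirr.2 (LinearMap.ker T.mulVecLin) (by
    intro g v hv
    rw [LinearMap.mem_ker, Matrix.mulVecLin_apply] at hv ⊢
    rw [Matrix.mulVec_mulVec, h2, ← Matrix.mulVec_mulVec, hv, Matrix.mulVec_zero]) with h | h
  · right
    rw [← Matrix.mulVec_injective_iff_isUnit]
    rw [LinearMap.ker_eq_bot] at h
    exact h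
  · left
    rw [LinearMap.ker_eq_top] at h
    ext i j
    have := congrFun (LinearMap.congr_fun h (Pi.single j 1)) i
    simpa using this

end

end Pool.Agent.Lib.MP_d9b062_al.Stmt
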